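import Pool.Agent.Helper91.LB.Defs

/-!
LB-BD. From an isomorphism to `ℓ_∞^n` to a basis in the polytope.
`X = range (coords g) ⊆ ℓ_∞^m`, `τ = ‖T‖ > 0`. Each coordinate functional `T_i` of `T` has norm `≤ τ`; extend it
by Hahn-Banach (`exists_extension_norm_eq`) to `F_i` on `Fin m → ℝ`; `a i j = F_i (e_j)`, `∑_j |a i j| ≤ τ`
(test `F_i` on the vector of signs). Put `α i (j, true) = (a i j)⁺/τ`, `α i (j, false) = (a i j)⁻/τ`, plus the
missing mass split equally between `(j0, true)` and `(j0, false)` for some `j0` (`m > 0` because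
`coords g` is injective and `n > 0`); then `cc (sg g) α i = (1/τ) ∑_j a i j • g j`. Let `y i` be the vector with
`T (coords g (y i)) = τ e_i`; then `⟪cc (sg g) α l, y i⟫ = F_l (coords g (y i))/τ = δ`, and for signs `ε_i`
`∑ ε_i ⟪g j, y i⟫ = (T⁻¹ (τ ε))_j ≤ ‖T⁻¹‖ τ`.
-/

namespace Pool.Agent.LB

open Finset MeasureTheory ProbabilityTheory
open scoped RealInnerProductSpace

/-- The linear map `y ↦ (⟪g j, y⟫)_j`. -/
noncomputable def coords {n m : ℕ} (g : Fin m → E n) : E n →ₗ[ℝ] (Fin m → ℝ) where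
  toFun y := fun j => ⟪g j, y⟫
  map_add' y z := by funext j; simp [inner_add_right]
  map_smul' c y := by funext j; simp [inner_smul_right]

/-- Signs of a finite family. -/
theorem exists_signs {ι : Type} (c : ι → ℝ) :
    ∃ s : ι → ℝ, (∀ i, |s i| ≤ 1) ∧ ∀ i, s i * c i = |c i| := by
  refine ⟨fun i => if 0 ≤ c i then 1 else -1, fun i => ?_, fun i => ?_⟩
  · dsimp only
    split_ifs <;> simp
  · dsimp only
    split_ifs with h
    · rw [one_mul, abs_of_nonneg h]
    · rw [neg_one_mul, abs_of_neg (not_le.mp h)]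

theorem bm_data {n m : ℕ} (g : Fin m → E n) (hinj : Function.Injective (coords g)) (hn : 0 < n)
    (T : LinearMap.range (coords g) ≃L[ℝ] (Fin n → ℝ)) :
    ∃ α : Fin n → Fin m × Bool → ℝ, (∀ l k, 0 ≤ α l k) ∧ (∀ l, ∑ k, α l k = 1) ∧
      ∃ y : Fin n → E n, (∀ i j, ⟪cc (sg g) α i, y j⟫ = if i = j then (1 : ℝ) else 0) ∧
        ∀ j, ∑ i, |⟪g j, y i⟫| ≤
          ‖(T : LinearMap.range (coords g) →L[ℝ] (Fin n → ℝ))‖ *
            ‖(T.symm : (Fin n → ℝ) →L[ℝ] LinearMap.range (coords g))‖ := by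
  classical
  have : Nonempty (Fin n) := ⟨⟨0, hn⟩⟩
  -- `m > 0`
  have hm : 0 < m := by
    by_contra h
    have hm0 : m = 0 := by omega
    subst hm0
    have h1 : (EuclideanSpace.single (⟨0, hn⟩ : Fin n) (1 : ℝ) : E n) = 0 :=
      hinj (Subsingleton.elim _ _)
    have h2 := congrArg (fun v : E n => ‖v‖) h1
    simp at h2
  set j0 : Fin m := ⟨0, hm⟩ with hj0
  set Tc : LinearMap.range (coords g) →L[ℝ] (Fin n → ℝ) :=
    (T : LinearMap.range (coords g) →L[ℝ] (Fin n → ℝ)) with hTc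
  set τ : ℝ := ‖Tc‖ with hτ
  have hτpos : 0 < τ := by
    refine lt_of_le_of_ne Tc.opNorm_nonneg fun h00 => ?_
    have h1 : ‖Tc (T.symm (fun _ => 1))‖ ≤ τ * ‖T.symm (fun _ => 1)‖ := Tc.le_opNorm _
    have h2 : Tc (T.symm (fun _ => 1)) = (fun _ => (1 : ℝ)) := T.apply_symm_apply _
    rw [h2, ← h00, zero_mul, norm_le_zero_iff] at h1
    have := congrFun h1 (Classical.arbitrary (Fin n))
    simp at this
  -- Hahn-Banach
  have hF : ∀ i : Fin n, ∃ F : (Fin m → ℝ) →L[ℝ] ℝ,
      (∀ x : LinearMap.range (coords g), F x = T x i) ∧ ‖F‖ ≤ τ := by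
    intro i
    set f : LinearMap.range (coords g) →L[ℝ] ℝ :=
      (ContinuousLinearMap.proj (R := ℝ) (φ := fun _ : Fin n => ℝ) i).comp Tc with hf
    obtain ⟨F, hF1, hF2⟩ := exists_extension_norm_eq (LinearMap.range (coords g)) f
    refine ⟨F, fun x => by rw [hF1]; rfl, ?_⟩
    rw [hF2]
    refine ContinuousLinearMap.opNorm_le_bound _ Tc.opNorm_nonneg fun x => ?_
    calc ‖f x‖ = ‖Tc x i‖ := rfl
      _ ≤ ‖Tc x‖ := norm_le_pi_norm _ _
      _ ≤ ‖Tc‖ * ‖x‖ := Tc.le_opNorm x
  choose F hFT hFn using hF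
  set a : Fin n → Fin m → ℝ := fun i j => F i (Pi.single j 1) with ha
  have hFa : ∀ i (v : Fin m → ℝ), F i v = ∑ j, v j * a i j := by
    intro i v
    have e : v = ∑ j, v j • (Pi.single j (1 : ℝ) : Fin m → ℝ) := by
      funext k
      simp [Finset.sum_apply, Pi.single_apply]
    conv_lhs => rw [e]
    rw [map_sum]
    refine Finset.sum_congr rfl fun j _ => ?_
    rw [map_smul, smul_eq_mul]
  have ha1 : ∀ i, ∑ j, |a i j| ≤ τ := by
    intro i
    obtain ⟨s, hs1, hs2⟩ := exists_signs (a i)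
    have h1 : F i s = ∑ j, |a i j| := by
      rw [hFa]
      exact Finset.sum_congr rfl fun j _ => hs2 j
    have h2 : ‖s‖ ≤ 1 := by
      rw [pi_norm_le_iff_of_nonneg zero_le_one]
      exact hs1
    rw [← h1]
    calc F i s ≤ ‖F i s‖ := le_abs_self _
      _ ≤ ‖F i‖ * ‖s‖ := (F i).le_opNorm s
      _ ≤ τ * 1 := by
        have := hFn i
        gcongr
      _ = τ := mul_one _
  set μ : Fin n → ℝ := fun i => (1 - (∑ j, |a i j|) / τ) / 2 with hμ
  have hμ0 : ∀ i, 0 ≤ μ i := by
    intro i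
    have : (∑ j, |a i j|) / τ ≤ 1 := by
      rw [div_le_one hτpos]
      exact ha1 i
    simp only [hμ]
    linarith
  set α : Fin n → Fin m × Bool → ℝ := fun i k =>
    (if k.2 then (|a i k.1| + a i k.1) / (2 * τ) else (|a i k.1| - a i k.1) / (2 * τ)) +
      (if k.1 = j0 then μ i else 0) with hα
  have hcc : ∀ i, cc (sg g) α i = ∑ j, (a i j / τ) • g j := by
    intro i
    unfold cc
    rw [Fintype.sum_prod_type]
    refine Finset.sum_congr rfl fun j _ => ?_
    rw [Fintype.sum_bool]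
    simp only [hα, sg, if_true, Bool.false_eq_true, if_false]
    rw [smul_neg, ← sub_eq_add_neg, ← sub_smul]
    congr 1
    field_simp
    ring
  refine ⟨α, ?_, ?_, ?_⟩
  · intro i k
    simp only [hα]
    have h1 := abs_nonneg (a i k.1)
    have h2 := neg_abs_le (a i k.1)
    have h3 := le_abs_self (a i k.1)
    have h4 := hμ0 i
    refine add_nonneg ?_ ?_
    · split_ifs
      · exact div_nonneg (by linarith) (by linarith)
      · exact div_nonneg (by linarith) (by linarith)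
    · split_ifs
      · exact h4
      · exact le_rfl
  · intro i
    rw [Fintype.sum_prod_type]
    have e1 : ∀ j, ∑ b : Bool, α i (j, b) = |a i j| / τ + (if j = j0 then 2 * μ i else 0) := by
      intro j
      rw [Fintype.sum_bool]
      simp only [hα, if_true, Bool.false_eq_true, if_false]
      split_ifs
      · field_simp
        ring
      · field_simp
        ring
    rw [Finset.sum_congr rfl fun j _ => e1 j, Finset.sum_add_distrib, Finset.sum_ite_eq',
      if_pos (Finset.mem_univ _), ← Finset.sum_div]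
    simp only [hμ]
    ring
  -- the dual basis
  have hy0 : ∀ i : Fin n, ∃ y : E n, coords g y =
      ((T.symm (Pi.single i 1) : LinearMap.range (coords g)) : Fin m → ℝ) := by
    intro i
    exact (T.symm (Pi.single i 1)).2
  choose y0 hy0 using hy0
  refine ⟨fun i => τ • y0 i, ?_, ?_⟩
  · intro l i
    rw [hcc, inner_smul_right, sum_inner]
    have e1 : ∀ j, ⟪(a l j / τ) • g j, y0 i⟫ = (coords g (y0 i) j * a l j) / τ := by
      intro j
      rw [real_inner_smul_left]
      change a l j / τ * ⟪g j, y0 i⟫ = ⟪g j, y0 i⟫ * a l j / τ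
      ring
    rw [Finset.sum_congr rfl fun j _ => e1 j, ← Finset.sum_div, ← hFa l, hy0 i, hFT,
      T.apply_symm_apply, mul_div_cancel₀ _ hτpos.ne', Pi.single_apply]
  · intro j
    obtain ⟨s, hs1, hs2⟩ := exists_signs (fun i => ⟪g j, τ • y0 i⟫)
    have e1 : ∑ i, |⟪g j, τ • y0 i⟫| =
        τ * ((T.symm s : LinearMap.range (coords g)) : Fin m → ℝ) j := by
      have e2 : s = ∑ i, s i • (Pi.single i (1 : ℝ) : Fin n → ℝ) := by
        funext k
        simp [Finset.sum_apply, Pi.single_apply]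
      conv_rhs => rw [e2]
      rw [map_sum]
      simp only [map_smul]
      rw [Submodule.coe_sum, Finset.sum_apply, Finset.mul_sum]
      refine Finset.sum_congr rfl fun i _ => ?_
      rw [← hs2 i, real_inner_smul_right, Submodule.coe_smul, Pi.smul_apply, smul_eq_mul,
        ← hy0 i]
      change s i * (τ * ⟪g j, y0 i⟫) = τ * (s i * ⟪g j, y0 i⟫)
      ring
    rw [e1]
    have h2 : ‖s‖ ≤ 1 := by
      rw [pi_norm_le_iff_of_nonneg zero_le_one]
      exact hs1
    refine mul_le_mul_of_nonneg_left ?_ hτpos.le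
    calc ((T.symm s : LinearMap.range (coords g)) : Fin m → ℝ) j
        ≤ ‖((T.symm s : LinearMap.range (coords g)) : Fin m → ℝ) j‖ := le_abs_self _
      _ ≤ ‖((T.symm s : LinearMap.range (coords g)) : Fin m → ℝ)‖ := norm_le_pi_norm _ _
      _ = ‖T.symm s‖ := rfl
      _ ≤ ‖(T.symm : (Fin n → ℝ) →L[ℝ] LinearMap.range (coords g))‖ * ‖s‖ :=
        (T.symm : (Fin n → ℝ) →L[ℝ] LinearMap.range (coords g)).le_opNorm s
      _ ≤ ‖(T.symm : (Fin n → ℝ) →L[ℝ] LinearMap.range (coords g))‖ * 1 := by gcongr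
      _ = _ := mul_one _

end Pool.Agent.LB
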