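import Pool.Agent.Helper91.LB.Defs

/-!
LB-A1. The Gram determinant and the squared distance to the span (proved by helper88).

`V2_insert`: with `z = x l`, `w = (Hc x I).starProjection z` and `z - w = ∑ a_i x_i`, the Gram matrix
of `(x_i), z` is `Mᵀ * gram ((x_i), w) * M` with `M` unipotent, and `w` is orthogonal to all `x_i`.
-/

namespace Pool.Agent.LB

open Finset MeasureTheory ProbabilityTheory
open scoped RealInnerProductSpace

section
variable {n : ℕ} {ι : Type} [DecidableEq ι]

theorem V2_empty (x : ι → E n) : V2 x ∅ = 1 := by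
  unfold V2
  have : IsEmpty {l // l ∈ (∅ : Finset ι)} := ⟨fun l => absurd l.2 (Finset.notMem_empty _)⟩
  exact Matrix.det_isEmpty

theorem V2_congr {x x' : ι → E n} {I : Finset ι} (h : ∀ l ∈ I, x l = x' l) : V2 x I = V2 x' I := by
  unfold V2
  congr 2
  funext l
  exact h l l.2

theorem V2_nonneg (x : ι → E n) (I : Finset ι) : 0 ≤ V2 x I :=
  (Matrix.posSemidef_gram ℝ _).det_nonneg

theorem V2_ne_zero_iff {x : ι → E n} {I : Finset ι} :
    V2 x I ≠ 0 ↔ LinearIndepOn ℝ x (I : Set ι) := by
  unfold V2
  rw [Matrix.det_gram_ne_zero_iff_linearIndependent]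
  exact Iff.rfl

theorem gram_sum_smul {κ : Type} [Fintype κ] (u : κ → E n) (M : Matrix κ κ ℝ) :
    Matrix.gram ℝ (fun j => ∑ i, M i j • u i) = M.transpose * Matrix.gram ℝ u * M := by
  ext j k
  simp only [Matrix.gram_apply, Matrix.mul_apply, Matrix.transpose_apply, sum_inner, inner_sum,
    real_inner_smul_left, real_inner_smul_right, Finset.sum_mul]
  refine Finset.sum_congr rfl fun a _ => Finset.sum_congr rfl fun b _ => ?_
  ring

theorem det_gram_sum {κ : Type} [Fintype κ] [DecidableEq κ] (v : κ → E n) (z w : E n)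
    (a : κ → ℝ) (hz : z = (∑ i, a i • v i) + w) (hw : ∀ i, ⟪v i, w⟫ = 0) :
    (Matrix.gram ℝ (Sum.elim v (fun _ : Unit => z))).det =
      (Matrix.gram ℝ v).det * ‖w‖ ^ 2 := by
  have h1 : Sum.elim v (fun _ : Unit => z) = fun j => ∑ i,
      (Matrix.fromBlocks (1 : Matrix κ κ ℝ) (Matrix.of fun i (_ : Unit) => a i) 0
        (1 : Matrix Unit Unit ℝ)) i j • (Sum.elim v (fun _ : Unit => w)) i := by
    funext j
    rcases j with j | j
    · simp [Matrix.one_apply, Fintype.sum_sum_type]
    · simp [Fintype.sum_sum_type, hz]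
  have h2 : Matrix.gram ℝ (Sum.elim v (fun _ : Unit => w)) =
      Matrix.fromBlocks (Matrix.gram ℝ v) 0 0 (Matrix.of fun _ _ : Unit => ‖w‖ ^ 2) := by
    ext j k
    rcases j with j | j <;> rcases k with k | k
    · simp
    · simp [hw]
    · have h3 : ⟪w, v k⟫ = 0 := by rw [real_inner_comm]; exact hw k
      simp [h3]
    · simp
  rw [h1, gram_sum_smul, Matrix.det_mul, Matrix.det_mul, Matrix.det_transpose, h2,
    Matrix.det_fromBlocks_zero₂₁, Matrix.det_fromBlocks_zero₂₁]
  simp

theorem V2_insert (x : ι → E n) {I : Finset ι} {l : ι} (hl : l ∉ I) :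
    V2 x (insert l I) = V2 x I * d2 x I (x l) := by
  classical
  set S : Submodule ℝ (E n) := Submodule.span ℝ (x '' (I : Set ι)) with hS
  have hHc : Hc x I = Sᗮ := rfl
  set w : E n := (Hc x I).starProjection (x l) with hw
  have hwmem : w ∈ Sᗮ := by
    rw [hw, hHc]
    exact Submodule.starProjection_apply_mem _ _
  have hzw : x l - w ∈ S := by
    have h1 : x l - w ∈ Sᗮᗮ := by
      rw [hw, hHc]
      exact Submodule.sub_starProjection_mem_orthogonal _
    rwa [Submodule.orthogonal_orthogonal] at h1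
  have hrange : x '' (I : Set ι) = Set.range (fun i : {i // i ∈ I} => x i) := by
    ext y
    constructor
    · rintro ⟨i, hi, rfl⟩
      exact ⟨⟨i, hi⟩, rfl⟩
    · rintro ⟨i, rfl⟩
      exact ⟨i, i.2, rfl⟩
  rw [hS, hrange, Submodule.mem_span_range_iff_exists_fun] at hzw
  obtain ⟨a, ha⟩ := hzw
  have hzeq : x l = (∑ i, a i • (fun i : {i // i ∈ I} => x i) i) + w := by
    rw [ha]; abel
  have horth : ∀ i : {i // i ∈ I}, ⟪(fun i : {i // i ∈ I} => x i) i, w⟫ = 0 := by
    intro i
    exact (Submodule.mem_orthogonal _ _).1 hwmem _ (Submodule.subset_span ⟨i, i.2, rfl⟩)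
  have key := det_gram_sum (fun i : {i // i ∈ I} => x i) (x l) w a hzeq horth
  -- the reindexing
  let e : {i // i ∈ I} ⊕ Unit ≃ {i // i ∈ insert l I} :=
    { toFun := Sum.elim (fun i => ⟨i, Finset.mem_insert_of_mem i.2⟩)
        (fun _ => ⟨l, Finset.mem_insert_self l I⟩)
      invFun := fun i => if h : (i : ι) ∈ I then Sum.inl ⟨i, h⟩ else Sum.inr ()
      left_inv := by
        rintro (i | i)
        · simp
        · simp [hl]
      right_inv := by
        rintro ⟨i, hi⟩
        by_cases h : i ∈ I
        · simp [h]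
        · have : i = l := by
            rcases Finset.mem_insert.1 hi with h' | h'
            · exact h'
            · exact absurd h' h
          subst this
          simp [h] }
  have hdet : V2 x (insert l I) =
      (Matrix.gram ℝ (Sum.elim (fun i : {i // i ∈ I} => x i) (fun _ : Unit => x l))).det := by
    unfold V2
    rw [← Matrix.det_submatrix_equiv_self e]
    congr 1
    ext j k
    rcases j with j | j <;> rcases k with k | k <;> simp [e]
  rw [hdet, key]
  rfl

end

end Pool.Agent.LB
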