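import Pool.Agent.Helper91.LB.A1

/-!
LB-A2. Simple consequences. `d2_anti`: the orthogonal complement of a larger span is smaller, and
`‖H'.starProjection z‖ ≤ ‖H.starProjection z‖` for `H' ≤ H`. `V2_union_le`: induction on `K` with
`V2_insert`, `d2_anti` (distance to the span of `I ∪ K'` is at most the distance to the span of `I`).
`finrank_Hc`: if `V2 x I ≠ 0` the span has dimension `I.card`.
-/

namespace Pool.Agent.LB

open Finset MeasureTheory ProbabilityTheory
open scoped RealInnerProductSpace

section
variable {n : ℕ} {ι : Type} [DecidableEq ι]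

omit [DecidableEq ι] in
theorem Hc_congr {x x' : ι → E n} {I : Finset ι} (h : ∀ l ∈ I, x l = x' l) : Hc x I = Hc x' I := by
  unfold Hc
  rw [Set.image_congr (fun l hl => h l (Finset.mem_coe.1 hl))]

omit [DecidableEq ι] in
theorem d2_congr {x x' : ι → E n} {I : Finset ι} (h : ∀ l ∈ I, x l = x' l) (z : E n) :
    d2 x I z = d2 x' I z := by
  unfold d2
  simp only [Hc_congr h]

omit [DecidableEq ι] in
theorem d2_nonneg (x : ι → E n) (I : Finset ι) (z : E n) : 0 ≤ d2 x I z := by
  unfold d2; positivity

omit [DecidableEq ι] in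
theorem d2_le_norm (x : ι → E n) (I : Finset ι) (z : E n) : d2 x I z ≤ ‖z‖ ^ 2 := by
  unfold d2
  exact pow_le_pow_left₀ (norm_nonneg _) ((Hc x I).norm_starProjection_apply_le z) 2

omit [DecidableEq ι] in
theorem Hc_anti (x : ι → E n) {I J : Finset ι} (h : I ⊆ J) : Hc x J ≤ Hc x I := by
  unfold Hc
  apply Submodule.orthogonal_le
  apply Submodule.span_mono
  apply Set.image_mono
  exact_mod_cast h

omit [DecidableEq ι] in
theorem d2_anti (x : ι → E n) {I J : Finset ι} (h : I ⊆ J) (z : E n) : d2 x J z ≤ d2 x I z := by
  unfold d2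
  apply pow_le_pow_left₀ (norm_nonneg _)
  have h1 := Submodule.starProjection_comp_starProjection_of_le (Hc_anti x h)
  have h2 : (Hc x J).starProjection z = (Hc x J).starProjection ((Hc x I).starProjection z) := by
    conv_lhs => rw [← h1]
    rfl
  rw [h2]
  exact (Hc x J).norm_starProjection_apply_le _

theorem V2_union_le (x : ι → E n) {I K : Finset ι} (h : Disjoint I K) :
    V2 x (I ∪ K) ≤ V2 x I * ∏ l ∈ K, d2 x I (x l) := by
  induction K using Finset.induction_on with
  | empty => simp
  | insert a s ha ih =>
    have hd : Disjoint I s := h.mono_right (Finset.subset_insert _ _)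
    have haI : a ∉ I := fun hc => (Finset.disjoint_left.1 h hc) (Finset.mem_insert_self _ _)
    have haIs : a ∉ I ∪ s := by simp [haI, ha]
    rw [Finset.union_insert, V2_insert x haIs, Finset.prod_insert ha]
    calc V2 x (I ∪ s) * d2 x (I ∪ s) (x a)
        ≤ (V2 x I * ∏ l ∈ s, d2 x I (x l)) * d2 x I (x a) := by
          apply mul_le_mul (ih hd) (d2_anti x Finset.subset_union_left _) (d2_nonneg _ _ _)
          exact mul_nonneg (V2_nonneg _ _) (Finset.prod_nonneg fun l _ => d2_nonneg _ _ _)
      _ = _ := by ring

theorem finrank_Hc {x : ι → E n} {I : Finset ι} (h : V2 x I ≠ 0) :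
    Module.finrank ℝ (Hc x I) = n - I.card := by
  have hli := V2_ne_zero_iff.1 h
  have h1 : Module.finrank ℝ (Submodule.span ℝ (x '' (I : Set ι))) = I.card := by
    have h2 := finrank_span_eq_card (R := ℝ) hli.linearIndependent
    have h4 : Fintype.card (I : Set ι) = I.card := by simp
    rw [h4] at h2
    have h3 : Set.range (fun i : (I : Set ι) => x i) = x '' (I : Set ι) := by
      rw [Set.image_eq_range]
    rw [h3] at h2
    exact h2
  have h2 := (Submodule.span ℝ (x '' (I : Set ι))).finrank_add_finrank_orthogonal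
  rw [finrank_euclideanSpace_fin, h1] at h2
  unfold Hc
  omega

omit [DecidableEq ι] in
/-- `d2` does not see the part of `z` in the span. -/
theorem d2_add (x : ι → E n) (I : Finset ι) (z w : E n)
    (hw : w ∈ Submodule.span ℝ (x '' (I : Set ι))) : d2 x I (z + w) = d2 x I z := by
  unfold d2
  have h : (Hc x I).starProjection w = 0 := by
    rw [Submodule.starProjection_apply_eq_zero_iff]
    unfold Hc
    exact Submodule.le_orthogonal_orthogonal _ hw
  rw [map_add, h, add_zero]

end

end Pool.Agent.LB
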