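import Pool.Agent.Helper91.LB.A2

/-!
LB-B. Dual basis. `x` is linearly independent (test with `y j`), so `V2 x univ > 0`. Add the indices
`i ∈ J` one by one to `Jᶜ` (induction on `J`): `V2 x (insert i I) = V2 x I * d2 x I (x i)` and
`d2 x I (x i) * ‖y i‖² ≥ 1` for `i ∉ I`, because `y i` is orthogonal to the span of `x l`, `l ∈ I`, so
`1 = ⟪x i, y i⟫ = ⟪(Hc x I).starProjection (x i), y i⟫ ≤ ‖(Hc x I).starProjection (x i)‖ ‖y i‖`.
-/

namespace Pool.Agent.LB

open Finset MeasureTheory ProbabilityTheory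
open scoped RealInnerProductSpace

theorem one_le_d2_mul {n : ℕ} (x y : Fin n → E n)
    (hxy : ∀ i j, ⟪x i, y j⟫ = if i = j then (1 : ℝ) else 0) (I : Finset (Fin n)) {i : Fin n}
    (hi : i ∉ I) : 1 ≤ d2 x I (x i) * ‖y i‖ ^ 2 := by
  have hy : y i ∈ Hc x I := by
    unfold Hc
    rw [Submodule.mem_orthogonal]
    intro u hu
    induction hu using Submodule.span_induction with
    | mem u hu =>
      obtain ⟨l, hl, rfl⟩ := hu
      rw [hxy, if_neg]
      rintro rfl
      exact hi hl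
    | zero => simp
    | add a b _ _ ha hb => rw [inner_add_left, ha, hb, add_zero]
    | smul c a _ ha => rw [inner_smul_left, ha, mul_zero]
  have h1 : ⟪(Hc x I).starProjection (x i), y i⟫ = (1 : ℝ) := by
    rw [Submodule.inner_starProjection_left_eq_right,
      Submodule.starProjection_eq_self_iff.2 hy, hxy, if_pos rfl]
  have h2 : (1 : ℝ) ≤ ‖(Hc x I).starProjection (x i)‖ * ‖y i‖ := by
    rw [← h1]; exact real_inner_le_norm _ _
  have h3 : (1 : ℝ) ≤ (‖(Hc x I).starProjection (x i)‖ * ‖y i‖) ^ 2 := one_le_pow₀ h2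
  rw [mul_pow] at h3
  exact h3

theorem V2_compl_le {n : ℕ} (x y : Fin n → E n)
    (hxy : ∀ i j, ⟪x i, y j⟫ = if i = j then (1 : ℝ) else 0) (J : Finset (Fin n)) :
    0 < V2 x univ ∧ V2 x Jᶜ ≤ V2 x univ * ∏ i ∈ J, ‖y i‖ ^ 2 := by
  have hli : LinearIndependent ℝ x := by
    rw [Fintype.linearIndependent_iff]
    intro g hg i
    have h := congrArg (fun z => ⟪z, y i⟫) hg
    simp only [sum_inner, inner_smul_left, hxy, inner_zero_left] at h
    simpa using h
  have hpos : 0 < V2 x univ := by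
    refine lt_of_le_of_ne (V2_nonneg x univ) (Ne.symm ?_)
    rw [V2_ne_zero_iff, Finset.coe_univ, linearIndepOn_univ_iff]
    exact hli
  refine ⟨hpos, ?_⟩
  induction J using Finset.induction_on with
  | empty => simp
  | insert i J hi ih =>
    have hiI : i ∉ (insert i J)ᶜ := by simp
    have hJ : Jᶜ = insert i (insert i J)ᶜ := by
      ext j
      simp only [Finset.mem_compl, Finset.mem_insert]
      by_cases h : j = i
      · subst h; simp [hi]
      · simp [h]
    have h1 := one_le_d2_mul x y hxy _ hiI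
    rw [hJ, V2_insert x hiI] at ih
    rw [Finset.prod_insert hi]
    have h0 := V2_nonneg x (insert i J)ᶜ
    have hy0 : 0 ≤ ‖y i‖ ^ 2 := by positivity
    calc V2 x (insert i J)ᶜ ≤ V2 x (insert i J)ᶜ * (d2 x (insert i J)ᶜ (x i) * ‖y i‖ ^ 2) :=
          le_mul_of_one_le_right h0 h1
      _ = (V2 x (insert i J)ᶜ * d2 x (insert i J)ᶜ (x i)) * ‖y i‖ ^ 2 := by ring
      _ ≤ (V2 x univ * ∏ i ∈ J, ‖y i‖ ^ 2) * ‖y i‖ ^ 2 := mul_le_mul_of_nonneg_right ih hy0
      _ = V2 x univ * (‖y i‖ ^ 2 * ∏ i ∈ J, ‖y i‖ ^ 2) := by ring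

end Pool.Agent.LB
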