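import Pool.Agent.Helper91.LB.Defs

/-!
LB-S. Second moment of an empirical mean of `t` independent choices with distribution `α`:
`(1/t²) (∑_i E‖w_i‖² + ∑_{i≠j} ⟪μ, μ⟫)`, `μ = ∑ α_k w_k`. Also the product weights sum to `1`.
-/

namespace Pool.Agent.LB

open Finset MeasureTheory ProbabilityTheory
open scoped RealInnerProductSpace

theorem sum_prod_eq_one {κ : Type} [Fintype κ] {ι : Type} [Fintype ι] [DecidableEq ι] (α : ι → κ → ℝ)
    (hα : ∀ i, ∑ k, α i k = 1) : ∑ f : ι → κ, ∏ i, α i (f i) = 1 := by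
  have h := Finset.prod_univ_sum (fun _ : ι => (univ : Finset κ)) (fun i k => α i k)
  rw [Fintype.piFinset_univ] at h
  rw [← h, Finset.prod_congr rfl fun i _ => hα i]
  simp

theorem sample_norm_shift {F : Type} [NormedAddCommGroup F] [InnerProductSpace ℝ F] {κ : Type}
    [Fintype κ] (α : κ → ℝ) (hα : ∑ k, α k = 1) (w : κ → F) (t : ℕ) : ∀ u : F,
    ∑ f : Fin t → κ, (∏ i, α (f i)) * ‖u + ∑ i, w (f i)‖ ^ 2 =
      ‖u + (t : ℝ) • ∑ k, α k • w k‖ ^ 2 +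
        t * (∑ k, α k * ‖w k‖ ^ 2 - ‖∑ k, α k • w k‖ ^ 2) := by
  induction t with
  | zero => intro u; simp
  | succ t ih =>
    intro u
    have h1 : ∑ f : Fin (t + 1) → κ, (∏ i, α (f i)) * ‖u + ∑ i, w (f i)‖ ^ 2 =
        ∑ k, α k * ∑ f : Fin t → κ, (∏ i, α (f i)) * ‖(u + w k) + ∑ i, w (f i)‖ ^ 2 := by
      rw [← (Fin.consEquiv (fun _ : Fin (t + 1) => κ)).sum_comp, Fintype.sum_prod_type]
      refine Finset.sum_congr rfl fun k _ => ?_
      rw [Finset.mul_sum]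
      refine Finset.sum_congr rfl fun f _ => ?_
      simp only [Fin.consEquiv_apply, Fin.prod_univ_succ, Fin.sum_univ_succ, Fin.cons_zero,
        Fin.cons_succ]
      rw [add_assoc, mul_assoc]
    rw [h1]
    set μ : F := ∑ k, α k • w k with hμ
    have h2 : ∀ k, α k * ∑ f : Fin t → κ, (∏ i, α (f i)) * ‖(u + w k) + ∑ i, w (f i)‖ ^ 2 =
        α k * ‖u + (t : ℝ) • μ‖ ^ 2 + 2 * inner ℝ (u + (t : ℝ) • μ) (α k • w k) +
          α k * ‖w k‖ ^ 2 + α k * (t * (∑ k, α k * ‖w k‖ ^ 2 - ‖μ‖ ^ 2)) := by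
      intro k
      rw [ih (u + w k), add_right_comm, norm_add_sq_real, inner_smul_right]
      ring
    rw [Finset.sum_congr rfl fun k _ => h2 k]
    rw [Finset.sum_add_distrib, Finset.sum_add_distrib, Finset.sum_add_distrib, ← Finset.sum_mul,
      ← Finset.sum_mul, ← Finset.mul_sum, ← inner_sum, ← hμ, hα]
    have h3 : u + ((t + 1 : ℕ) : ℝ) • μ = (u + (t : ℝ) • μ) + μ := by
      push_cast
      rw [add_smul, one_smul, add_assoc]
    rw [h3, norm_add_sq_real (u + (t : ℝ) • μ) μ]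
    push_cast
    ring

theorem sample_norm {F : Type} [NormedAddCommGroup F] [InnerProductSpace ℝ F] {κ : Type} [Fintype κ]
    (α : κ → ℝ) (hα : ∑ k, α k = 1) (w : κ → F) (t : ℕ) (ht : 0 < t) :
    ∑ f : Fin t → κ, (∏ i, α (f i)) * ‖(t : ℝ)⁻¹ • ∑ i, w (f i)‖ ^ 2 =
      (1 - (t : ℝ)⁻¹) * ‖∑ k, α k • w k‖ ^ 2 + (t : ℝ)⁻¹ * ∑ k, α k * ‖w k‖ ^ 2 := by
  have ht' : (t : ℝ) ≠ 0 := by exact_mod_cast ht.ne'
  have h := sample_norm_shift α hα w t 0
  simp only [zero_add] at h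
  have h1 : ∀ f : Fin t → κ, (∏ i, α (f i)) * ‖(t : ℝ)⁻¹ • ∑ i, w (f i)‖ ^ 2 =
      ((t : ℝ)⁻¹) ^ 2 * ((∏ i, α (f i)) * ‖∑ i, w (f i)‖ ^ 2) := by
    intro f
    rw [norm_smul, mul_pow, norm_inv, Real.norm_natCast]
    ring
  rw [Finset.sum_congr rfl fun f _ => h1 f, ← Finset.mul_sum, h, norm_smul, mul_pow,
    Real.norm_natCast]
  field_simp
  ring

end Pool.Agent.LB
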