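import Pool.Agent.Helper91.LB.A2
import Pool.Agent.Helper91.LB.S

/-!
LB-C. Expectations over independent random columns (all finite weighted sums).

As a function of one column `l ∈ I` (the others fixed) `V2 (update x l z) I = V2 x (I.erase l) *
d2 x (I.erase l) z = c * ‖P z‖²` with `c ≥ 0` and a fixed linear `P` (V2_insert); it does not depend on
column `l` if `l ∉ I`. So for one column `sample_norm` gives (weights `∏ i, α l (f i)`)
`c‖P b‖² ≤ E c‖P (mean)‖² = (1-1/t) c‖P b‖² + (1/t) ∑_k α_k c‖P v_k‖² ≤ c‖P b‖² + (1/t) ∑_k α_k c‖P v_k‖²`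
(lower bound: Jensen `‖P b‖² ≤ ∑ α_k ‖P v_k‖²`), `b = ∑ α_k v_k`.
Induction over the set `L` of the columns that have been randomised (`L = ∅ → L = univ`), with the
statement for ALL base points `x` outside `L`. The sums are handled by the resampling identity
`resampleCol`: the expectation does not change if one coordinate is drawn again.
-/

namespace Pool.Agent.LB

open Finset MeasureTheory ProbabilityTheory
open scoped RealInnerProductSpace

section resampleCol
variable {n : ℕ} {β : Fin n → Type} [∀ l, Fintype (β l)]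

/-- Resampling one coordinate. -/
theorem resampleCol (w : ∀ l, β l → ℝ) (l₀ : Fin n) (hw : ∑ b, w l₀ b = 1)
    (H : (∀ l, β l) → ℝ) :
    ∑ f : (∀ l, β l), (∏ l, w l (f l)) * H f =
      ∑ f : (∀ l, β l), (∏ l, w l (f l)) * ∑ b, w l₀ b * H (Function.update f l₀ b) := by
  classical
  let e : ((∀ l, β l) × β l₀) ≃ ((∀ l, β l) × β l₀) :=
    { toFun := fun p => (Function.update p.1 l₀ p.2, p.1 l₀)
      invFun := fun p => (Function.update p.1 l₀ p.2, p.1 l₀)
      left_inv := fun p => by
        ext
        · simp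
        · simp
      right_inv := fun p => by
        ext
        · simp
        · simp }
  have h1 : ∑ f : (∀ l, β l), (∏ l, w l (f l)) * ∑ b, w l₀ b * H (Function.update f l₀ b) =
      ∑ p : (∀ l, β l) × β l₀,
        (∏ l, w l (p.1 l)) * (w l₀ p.2 * H (Function.update p.1 l₀ p.2)) := by
    rw [Fintype.sum_prod_type]
    exact Finset.sum_congr rfl fun f _ => Finset.mul_sum _ _ _
  rw [h1, ← Equiv.sum_comp e, Fintype.sum_prod_type]
  refine Finset.sum_congr rfl fun f _ => ?_
  have h2 : ∀ b : β l₀, (∏ l, w l ((e (f, b)).1 l)) *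
      (w l₀ (e (f, b)).2 * H (Function.update (e (f, b)).1 l₀ (e (f, b)).2)) =
      w l₀ b * ((∏ l, w l (f l)) * H f) := by
    intro b
    have e1 : (e (f, b)).1 = Function.update f l₀ b := rfl
    have e2 : (e (f, b)).2 = f l₀ := rfl
    rw [e1, e2, Function.update_idem, Function.update_eq_self,
      ← Finset.mul_prod_erase univ (fun l => w l (Function.update f l₀ b l)) (Finset.mem_univ l₀),
      ← Finset.mul_prod_erase univ (fun l => w l (f l)) (Finset.mem_univ l₀)]
    have e3 : ∏ l ∈ univ.erase l₀, w l (Function.update f l₀ b l) =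
        ∏ l ∈ univ.erase l₀, w l (f l) := by
      refine Finset.prod_congr rfl fun l hl => ?_
      rw [Function.update_of_ne (Finset.ne_of_mem_erase hl)]
    rw [e3, Function.update_self]
    ring
  rw [Finset.sum_congr rfl fun b _ => h2 b, ← Finset.sum_mul, hw, one_mul]

theorem sum_weights (w : ∀ l, β l → ℝ) (hw : ∀ l, ∑ b, w l b = 1) :
    ∑ f : (∀ l, β l), ∏ l, w l (f l) = 1 := by
  classical
  have h := Finset.prod_univ_sum (fun l => (univ : Finset (β l))) w
  rw [Fintype.piFinset_univ] at h
  rw [← h]
  exact Finset.prod_eq_one fun l _ => hw l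

end resampleCol

section
variable {n : ℕ} {κ : Type} [Fintype κ]

omit [Fintype κ] in
theorem wt_nonneg {α : Fin n → κ → ℝ} (hα0 : ∀ l k, 0 ≤ α l k) (t : Fin n → ℕ)
    (f : ∀ l, Fin (t l) → κ) : 0 ≤ wt α t f :=
  Finset.prod_nonneg fun l _ => Finset.prod_nonneg fun _ _ => hα0 l _

theorem V2_update (x : Fin n → E n) {I : Finset (Fin n)} {l : Fin n} (hl : l ∈ I) (z : E n) :
    V2 (Function.update x l z) I = V2 x (I.erase l) * d2 x (I.erase l) z := by
  have h1 : I = insert l (I.erase l) := (Finset.insert_erase hl).symm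
  have hc : ∀ j ∈ I.erase l, Function.update x l z j = x j := fun j hj =>
    Function.update_of_ne (Finset.ne_of_mem_erase hj) _ _
  conv_lhs => rw [h1]
  rw [V2_insert _ (Finset.notMem_erase l I), V2_congr hc, d2_congr hc, Function.update_self]

theorem V2_update_of_notMem (x : Fin n → E n) {I : Finset (Fin n)} {l : Fin n} (hl : l ∉ I)
    (z : E n) : V2 (Function.update x l z) I = V2 x I :=
  V2_congr fun j hj => Function.update_of_ne (by rintro rfl; exact hl hj) _ _

theorem norm_sq_jensen {F : Type} [NormedAddCommGroup F] [InnerProductSpace ℝ F]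
    (α : κ → ℝ) (hα0 : ∀ k, 0 ≤ α k) (hα : ∑ k, α k = 1) (w : κ → F) :
    ‖∑ k, α k • w k‖ ^ 2 ≤ ∑ k, α k * ‖w k‖ ^ 2 := by
  have hc : ConvexOn ℝ Set.univ (fun x : F => ‖x‖ ^ 2) :=
    convexOn_univ_norm.pow (fun _ _ => norm_nonneg _) 2
  have := hc.map_sum_le (t := univ) (w := α) (p := w) (fun k _ => hα0 k) hα
    (fun k _ => Set.mem_univ _)
  simpa [smul_eq_mul] using this

/-- one column: Jensen -/
theorem col_jensen (v : κ → E n) (α : κ → ℝ) (hα0 : ∀ k, 0 ≤ α k) (hα : ∑ k, α k = 1)
    (x : Fin n → E n) (I : Finset (Fin n)) (l : Fin n) :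
    V2 (Function.update x l (∑ k, α k • v k)) I ≤
      ∑ k, α k * V2 (Function.update x l (v k)) I := by
  by_cases hl : l ∈ I
  · simp_rw [V2_update x hl]
    have h1 : d2 x (I.erase l) (∑ k, α k • v k) ≤ ∑ k, α k * d2 x (I.erase l) (v k) := by
      unfold d2
      rw [map_sum]
      simp_rw [map_smul]
      exact norm_sq_jensen α hα0 hα _
    calc V2 x (I.erase l) * d2 x (I.erase l) (∑ k, α k • v k)
        ≤ V2 x (I.erase l) * ∑ k, α k * d2 x (I.erase l) (v k) :=
          mul_le_mul_of_nonneg_left h1 (V2_nonneg _ _)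
      _ = ∑ k, α k * (V2 x (I.erase l) * d2 x (I.erase l) (v k)) := by
          rw [Finset.mul_sum]; exact Finset.sum_congr rfl fun k _ => by ring
  · simp_rw [V2_update_of_notMem x hl]
    rw [← Finset.sum_mul, hα, one_mul]

/-- one column: the second moment of the mean -/
theorem col_sample (v : κ → E n) (α : κ → ℝ) (hα : ∑ k, α k = 1)
    (x : Fin n → E n) {I : Finset (Fin n)} {l : Fin n} (hl : l ∈ I) (t : ℕ) (ht : 0 < t) :
    ∑ f : Fin t → κ, (∏ i, α (f i)) *
        V2 (Function.update x l ((t : ℝ)⁻¹ • ∑ i, v (f i))) I =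
      (1 - (t : ℝ)⁻¹) * V2 (Function.update x l (∑ k, α k • v k)) I +
        (t : ℝ)⁻¹ * ∑ k, α k * V2 (Function.update x l (v k)) I := by
  simp_rw [V2_update x hl]
  have h := sample_norm α hα (fun k => (Hc x (I.erase l)).starProjection (v k)) t ht
  have e1 : ∀ f : Fin t → κ, d2 x (I.erase l) ((t : ℝ)⁻¹ • ∑ i, v (f i)) =
      ‖(t : ℝ)⁻¹ • ∑ i, (Hc x (I.erase l)).starProjection (v (f i))‖ ^ 2 := by
    intro f
    unfold d2
    rw [map_smul, map_sum]
  have e2 : d2 x (I.erase l) (∑ k, α k • v k) =
      ‖∑ k, α k • (Hc x (I.erase l)).starProjection (v k)‖ ^ 2 := by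
    unfold d2
    rw [map_sum]; simp_rw [map_smul]
  have e3 : ∀ k, d2 x (I.erase l) (v k) = ‖(Hc x (I.erase l)).starProjection (v k)‖ ^ 2 :=
    fun k => rfl
  simp_rw [e1, e2, e3]
  set c := V2 x (I.erase l) with hc
  calc ∑ f : Fin t → κ, (∏ i, α (f i)) *
        (c * ‖(t : ℝ)⁻¹ • ∑ i, (Hc x (I.erase l)).starProjection (v (f i))‖ ^ 2)
      = c * ∑ f : Fin t → κ, (∏ i, α (f i)) *
        ‖(t : ℝ)⁻¹ • ∑ i, (Hc x (I.erase l)).starProjection (v (f i))‖ ^ 2 := by
        rw [Finset.mul_sum]; exact Finset.sum_congr rfl fun f _ => by ring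
    _ = c * ((1 - (t : ℝ)⁻¹) * ‖∑ k, α k • (Hc x (I.erase l)).starProjection (v k)‖ ^ 2 +
          (t : ℝ)⁻¹ * ∑ k, α k * ‖(Hc x (I.erase l)).starProjection (v k)‖ ^ 2) := by rw [h]
    _ = _ := by
        rw [mul_add, Finset.mul_sum, Finset.mul_sum, Finset.mul_sum]
        congr 1
        · ring
        · exact Finset.sum_congr rfl fun k _ => by ring

theorem sum_col_weights (α : κ → ℝ) (hα : ∑ k, α k = 1) (t : ℕ) :
    ∑ f : Fin t → κ, ∏ i, α (f i) = 1 :=
  sum_prod_eq_one (fun _ : Fin t => α) (fun _ => hα)

theorem col_lower (v : κ → E n) (α : κ → ℝ) (hα0 : ∀ k, 0 ≤ α k) (hα : ∑ k, α k = 1)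
    (x : Fin n → E n) (I : Finset (Fin n)) (l : Fin n) (t : ℕ) (ht : 0 < t) :
    V2 (Function.update x l (∑ k, α k • v k)) I ≤
      ∑ f : Fin t → κ, (∏ i, α (f i)) *
        V2 (Function.update x l ((t : ℝ)⁻¹ • ∑ i, v (f i))) I := by
  by_cases hl : l ∈ I
  · rw [col_sample v α hα x hl t ht]
    have h := col_jensen v α hα0 hα x I l
    have ht' : (0 : ℝ) ≤ (t : ℝ)⁻¹ := by positivity
    nlinarith [mul_le_mul_of_nonneg_left h ht']
  · simp_rw [V2_update_of_notMem x hl]
    rw [← Finset.sum_mul, sum_col_weights α hα, one_mul]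

theorem col_upper (v : κ → E n) (α : κ → ℝ) (hα : ∑ k, α k = 1)
    (x : Fin n → E n) {I : Finset (Fin n)} {l : Fin n} (hl : l ∈ I) (t : ℕ) (ht : 0 < t) :
    ∑ f : Fin t → κ, (∏ i, α (f i)) *
        V2 (Function.update x l ((t : ℝ)⁻¹ • ∑ i, v (f i))) I ≤
      V2 (Function.update x l (∑ k, α k • v k)) I +
        (t : ℝ)⁻¹ * ∑ k, α k * V2 (Function.update x l (v k)) I := by
  rw [col_sample v α hα x hl t ht]
  have h0 := V2_nonneg (Function.update x l (∑ k, α k • v k)) I
  have ht' : (0 : ℝ) ≤ (t : ℝ)⁻¹ := by positivity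
  nlinarith [mul_nonneg ht' h0]

omit [Fintype κ] in
/-- resampling a column of the random matrix -/
theorem xs_update (v : κ → E n) (t : Fin n → ℕ) (f : ∀ l, Fin (t l) → κ) (l : Fin n)
    (g : Fin (t l) → κ) (L : Finset (Fin n)) (hl : l ∉ L) (x : Fin n → E n) :
    (insert l L).piecewise (xs v t (Function.update f l g)) x =
      Function.update (L.piecewise (xs v t f) x) l (((t l : ℕ) : ℝ)⁻¹ • ∑ i, v (g i)) := by
  funext j
  by_cases hj : j = l
  · subst hj
    rw [Finset.piecewise_eq_of_mem _ _ _ (Finset.mem_insert_self _ _), Function.update_self]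
    unfold xs
    rw [Function.update_self]
  · rw [Function.update_of_ne hj]
    by_cases hjL : j ∈ L
    · rw [Finset.piecewise_eq_of_mem _ _ _ (Finset.mem_insert_of_mem hjL),
        Finset.piecewise_eq_of_mem _ _ _ hjL]
      unfold xs
      rw [Function.update_of_ne hj]
    · rw [Finset.piecewise_eq_of_notMem _ _ _ (by simp [hj, hjL]),
        Finset.piecewise_eq_of_notMem _ _ _ hjL]

theorem update_piecewise' {γ : Type} (L : Finset (Fin n)) (a x : Fin n → γ) {l : Fin n}
    (hl : l ∉ L) (z : γ) :
    Function.update (L.piecewise a x) l z = L.piecewise a (Function.update x l z) := by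
  funext j
  by_cases hj : j = l
  · subst hj
    rw [Function.update_self, Finset.piecewise_eq_of_notMem _ _ _ hl, Function.update_self]
  · rw [Function.update_of_ne hj]
    by_cases hjL : j ∈ L
    · rw [Finset.piecewise_eq_of_mem _ _ _ hjL, Finset.piecewise_eq_of_mem _ _ _ hjL]
    · rw [Finset.piecewise_eq_of_notMem _ _ _ hjL, Finset.piecewise_eq_of_notMem _ _ _ hjL,
        Function.update_of_ne hj]

theorem piecewise_insert_cc {γ : Type} (L : Finset (Fin n)) (a x : Fin n → γ) {l : Fin n}
    (hl : l ∉ L) :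
    L.piecewise a (Function.update x l (a l)) = (insert l L).piecewise a x := by
  funext j
  by_cases hj : j = l
  · subst hj
    rw [Finset.piecewise_eq_of_notMem _ _ _ hl, Function.update_self,
      Finset.piecewise_eq_of_mem _ _ _ (Finset.mem_insert_self _ _)]
  · by_cases hjL : j ∈ L
    · rw [Finset.piecewise_eq_of_mem _ _ _ hjL,
        Finset.piecewise_eq_of_mem _ _ _ (Finset.mem_insert_of_mem hjL)]
    · rw [Finset.piecewise_eq_of_notMem _ _ _ hjL, Function.update_of_ne hj,
        Finset.piecewise_eq_of_notMem _ _ _ (by simp [hj, hjL])]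

theorem exp_resample {α : Fin n → κ → ℝ} (hα : ∀ l, ∑ k, α l k = 1) (v : κ → E n)
    (t : Fin n → ℕ) (I : Finset (Fin n)) (l : Fin n) (L : Finset (Fin n)) (hl : l ∉ L)
    (x : Fin n → E n) :
    ∑ f : (∀ l, Fin (t l) → κ), wt α t f * V2 ((insert l L).piecewise (xs v t f) x) I =
      ∑ f : (∀ l, Fin (t l) → κ), wt α t f * ∑ g : Fin (t l) → κ, (∏ i, α l (g i)) *
        V2 (Function.update (L.piecewise (xs v t f) x) l (((t l : ℕ) : ℝ)⁻¹ • ∑ i, v (g i))) I := by
  have h := resampleCol (β := fun l => Fin (t l) → κ) (fun l g => ∏ i, α l (g i)) l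
    (sum_col_weights (α l) (hα l) (t l))
    (fun f => V2 ((insert l L).piecewise (xs v t f) x) I)
  unfold wt
  rw [h]
  refine Finset.sum_congr rfl fun f _ => ?_
  congr 1
  refine Finset.sum_congr rfl fun g _ => ?_
  rw [xs_update v t f l g L hl x]

theorem sum_wt {α : Fin n → κ → ℝ} (hα : ∀ l, ∑ k, α l k = 1) (t : Fin n → ℕ) :
    ∑ f : (∀ l, Fin (t l) → κ), wt α t f = 1 :=
  sum_weights (β := fun l => Fin (t l) → κ) (fun l g => ∏ i, α l (g i))
    (fun l => sum_col_weights (α l) (hα l) (t l))

theorem exp_lower (v : κ → E n) {α : Fin n → κ → ℝ} (hα0 : ∀ l k, 0 ≤ α l k)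
    (hα : ∀ l, ∑ k, α l k = 1) (t : Fin n → ℕ) (ht : ∀ l, 1 ≤ t l) (I : Finset (Fin n)) :
    V2 (cc v α) I ≤ ∑ f : (∀ l, Fin (t l) → κ), wt α t f * V2 (xs v t f) I := by
  have key : ∀ L : Finset (Fin n), V2 (cc v α) I ≤
      ∑ f : (∀ l, Fin (t l) → κ), wt α t f * V2 (L.piecewise (xs v t f) (cc v α)) I := by
    intro L
    induction L using Finset.induction_on with
    | empty =>
      simp_rw [Finset.piecewise_empty]
      rw [← Finset.sum_mul, sum_wt hα, one_mul]
    | insert l L hl ih =>
      refine ih.trans ?_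
      rw [exp_resample hα v t I l L hl]
      refine Finset.sum_le_sum fun f _ => mul_le_mul_of_nonneg_left ?_ (wt_nonneg hα0 t f)
      have h := col_lower v (α l) (hα0 l) (hα l) (L.piecewise (xs v t f) (cc v α)) I l (t l) (ht l)
      refine le_trans (le_of_eq ?_) h
      have e : Function.update (L.piecewise (xs v t f) (cc v α)) l (∑ k, α l k • v k) =
          L.piecewise (xs v t f) (cc v α) := by
        have e1 : (∑ k, α l k • v k) = (L.piecewise (xs v t f) (cc v α)) l := by
          rw [Finset.piecewise_eq_of_notMem _ _ _ hl]; rfl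
        rw [e1, Function.update_eq_self]
      rw [e]
  have h := key univ
  simpa only [Finset.piecewise_univ] using h

theorem exp_upper (v : κ → E n) {α : Fin n → κ → ℝ} (hα0 : ∀ l k, 0 ≤ α l k)
    (hα : ∀ l, ∑ k, α l k = 1) (t : Fin n → ℕ) (ht : ∀ l, 1 ≤ t l) (I : Finset (Fin n)) :
    ∑ f : (∀ l, Fin (t l) → κ), wt α t f * V2 (xs v t f) I ≤
      ∑ K ∈ I.powerset, (∏ l ∈ K, (t l : ℝ)⁻¹) *
        ∑ φ : Fin n → κ, (∏ l, α l (φ l)) * V2 (K.piecewise (v ∘ φ) (cc v α)) I := by
  have key : ∀ (L : Finset (Fin n)) (x : Fin n → E n),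
      ∑ f : (∀ l, Fin (t l) → κ), wt α t f * V2 (L.piecewise (xs v t f) x) I ≤
        ∑ K ∈ (I ∩ L).powerset, (∏ l ∈ K, (t l : ℝ)⁻¹) *
          ∑ φ : Fin n → κ, (∏ l, α l (φ l)) *
            V2 (K.piecewise (v ∘ φ) (L.piecewise (cc v α) x)) I := by
    intro L
    induction L using Finset.induction_on with
    | empty =>
      intro x
      simp only [Finset.piecewise_empty, Finset.inter_empty, Finset.powerset_empty,
        Finset.sum_singleton, Finset.prod_empty, one_mul]
      rw [← Finset.sum_mul, ← Finset.sum_mul, sum_wt hα, sum_prod_eq_one α hα]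
    | insert l L hl ih =>
      intro x
      rw [exp_resample hα v t I l L hl]
      by_cases hlI : l ∈ I
      · have h1 : ∑ f : (∀ l, Fin (t l) → κ), wt α t f * ∑ g : Fin (t l) → κ, (∏ i, α l (g i)) *
            V2 (Function.update (L.piecewise (xs v t f) x) l
              (((t l : ℕ) : ℝ)⁻¹ • ∑ i, v (g i))) I ≤
            (∑ f : (∀ l, Fin (t l) → κ), wt α t f *
              V2 (L.piecewise (xs v t f) (Function.update x l (∑ k, α l k • v k))) I) +
            ((t l : ℕ) : ℝ)⁻¹ * ∑ k, α l k * ∑ f : (∀ l, Fin (t l) → κ), wt α t f *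
              V2 (L.piecewise (xs v t f) (Function.update x l (v k))) I := by
          calc _ ≤ ∑ f : (∀ l, Fin (t l) → κ), wt α t f *
                (V2 (L.piecewise (xs v t f) (Function.update x l (∑ k, α l k • v k))) I +
                  ((t l : ℕ) : ℝ)⁻¹ * ∑ k, α l k *
                    V2 (L.piecewise (xs v t f) (Function.update x l (v k))) I) := by
                refine Finset.sum_le_sum fun f _ =>
                  mul_le_mul_of_nonneg_left ?_ (wt_nonneg hα0 t f)
                have h := col_upper v (α l) (hα l) (L.piecewise (xs v t f) x) hlI (t l) (ht l)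
                simp_rw [update_piecewise' L (xs v t f) x hl] at h ⊢
                exact h
            _ = _ := by
                simp_rw [mul_add, Finset.sum_add_distrib]
                congr 1
                simp_rw [Finset.mul_sum]
                rw [Finset.sum_comm]
                exact Finset.sum_congr rfl fun k _ => Finset.sum_congr rfl fun f _ => by ring
        refine h1.trans ?_
        have h2 := ih (Function.update x l (∑ k, α l k • v k))
        have h3 : ((t l : ℕ) : ℝ)⁻¹ * ∑ k, α l k * ∑ f : (∀ l, Fin (t l) → κ), wt α t f *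
              V2 (L.piecewise (xs v t f) (Function.update x l (v k))) I ≤
            ((t l : ℕ) : ℝ)⁻¹ * ∑ k, α l k *
              ∑ K ∈ (I ∩ L).powerset, (∏ l ∈ K, (t l : ℝ)⁻¹) *
                ∑ φ : Fin n → κ, (∏ l, α l (φ l)) *
                  V2 (K.piecewise (v ∘ φ) (L.piecewise (cc v α) (Function.update x l (v k)))) I := by
          refine mul_le_mul_of_nonneg_left ?_ (by positivity)
          exact Finset.sum_le_sum fun k _ => mul_le_mul_of_nonneg_left (ih _) (hα0 l k)
        refine (add_le_add h2 h3).trans (le_of_eq ?_)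
        have hI : I ∩ insert l L = insert l (I ∩ L) := by
          ext j; simp only [Finset.mem_inter, Finset.mem_insert]
          constructor
          · rintro ⟨h, h' | h'⟩
            · exact Or.inl h'
            · exact Or.inr ⟨h, h'⟩
          · rintro (h | ⟨h, h'⟩)
            · subst h; exact ⟨hlI, Or.inl rfl⟩
            · exact ⟨h, Or.inr h'⟩
        rw [hI, Finset.sum_powerset_insert (fun h => hl (Finset.mem_inter.1 h).2)]
        congr 1
        · refine Finset.sum_congr rfl fun K hK => ?_
          congr 1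
          refine Finset.sum_congr rfl fun φ _ => ?_
          have e : L.piecewise (cc v α) (Function.update x l (∑ k, α l k • v k)) =
              (insert l L).piecewise (cc v α) x := piecewise_insert_cc L (cc v α) x hl
          rw [e]
        · have hstep : ∀ K ∈ (I ∩ L).powerset,
              (∏ j ∈ insert l K, (t j : ℝ)⁻¹) *
                ∑ φ : Fin n → κ, (∏ l, α l (φ l)) *
                  V2 ((insert l K).piecewise (v ∘ φ) ((insert l L).piecewise (cc v α) x)) I =
              ((t l : ℕ) : ℝ)⁻¹ * ∑ k, α l k * ((∏ j ∈ K, (t j : ℝ)⁻¹) *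
                ∑ φ : Fin n → κ, (∏ l, α l (φ l)) *
                  V2 (K.piecewise (v ∘ φ)
                    (L.piecewise (cc v α) (Function.update x l (v k)))) I) := by
            intro K hK
            have hKL : K ⊆ I ∩ L := Finset.mem_powerset.1 hK
            have hlK : l ∉ K := fun h => hl (Finset.mem_inter.1 (hKL h)).2
            rw [Finset.prod_insert hlK]
            have hr := resampleCol (β := fun _ => κ) (fun l k => α l k) l (hα l)
              (fun φ => V2 ((insert l K).piecewise (v ∘ φ)
                ((insert l L).piecewise (cc v α) x)) I)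
            rw [hr]
            have e : ∀ (φ : Fin n → κ) (k : κ),
                (insert l K).piecewise (v ∘ Function.update φ l k)
                  ((insert l L).piecewise (cc v α) x) =
                K.piecewise (v ∘ φ) (L.piecewise (cc v α) (Function.update x l (v k))) := by
              intro φ k
              funext j
              by_cases hj : j = l
              · subst hj
                rw [Finset.piecewise_eq_of_mem _ _ _ (Finset.mem_insert_self _ _),
                  Finset.piecewise_eq_of_notMem _ _ _ hlK, Finset.piecewise_eq_of_notMem _ _ _ hl,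
                  Function.update_self, Function.comp_apply, Function.update_self]
              · by_cases hjK : j ∈ K
                · rw [Finset.piecewise_eq_of_mem _ _ _ (Finset.mem_insert_of_mem hjK),
                    Finset.piecewise_eq_of_mem _ _ _ hjK, Function.comp_apply, Function.comp_apply,
                    Function.update_of_ne hj]
                · rw [Finset.piecewise_eq_of_notMem _ _ _ (by simp [hj, hjK]),
                    Finset.piecewise_eq_of_notMem _ _ _ hjK]
                  by_cases hjL : j ∈ L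
                  · rw [Finset.piecewise_eq_of_mem _ _ _ (Finset.mem_insert_of_mem hjL),
                      Finset.piecewise_eq_of_mem _ _ _ hjL]
                  · rw [Finset.piecewise_eq_of_notMem _ _ _ (by simp [hj, hjL]),
                      Finset.piecewise_eq_of_notMem _ _ _ hjL, Function.update_of_ne hj]
            simp_rw [e, Finset.mul_sum]
            rw [Finset.sum_comm]
            exact Finset.sum_congr rfl fun k _ => Finset.sum_congr rfl fun φ _ => by ring
          rw [Finset.sum_congr rfl hstep]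
          rw [← Finset.mul_sum, Finset.sum_comm]
          congr 1
          exact Finset.sum_congr rfl fun k _ => by rw [Finset.mul_sum]
      · have hI : I ∩ insert l L = I ∩ L := by
          ext j; simp only [Finset.mem_inter, Finset.mem_insert]
          constructor
          · rintro ⟨h, h' | h'⟩
            · exact absurd (h' ▸ h) hlI
            · exact ⟨h, h'⟩
          · rintro ⟨h, h'⟩; exact ⟨h, Or.inr h'⟩
        rw [hI]
        have h1 : ∀ f : (∀ l, Fin (t l) → κ), ∑ g : Fin (t l) → κ, (∏ i, α l (g i)) *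
            V2 (Function.update (L.piecewise (xs v t f) x) l
              (((t l : ℕ) : ℝ)⁻¹ • ∑ i, v (g i))) I = V2 (L.piecewise (xs v t f) x) I := by
          intro f
          simp_rw [V2_update_of_notMem _ hlI]
          rw [← Finset.sum_mul, sum_col_weights (α l) (hα l), one_mul]
        rw [Finset.sum_congr rfl fun f _ => by rw [h1 f]]
        refine (ih x).trans (le_of_eq ?_)
        refine Finset.sum_congr rfl fun K hK => ?_
        congr 1
        refine Finset.sum_congr rfl fun φ _ => ?_
        congr 1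
        refine V2_congr fun j hj => ?_
        have hjl : j ≠ l := fun h => hlI (h ▸ hj)
        by_cases hjK : j ∈ K
        · rw [Finset.piecewise_eq_of_mem _ _ _ hjK, Finset.piecewise_eq_of_mem _ _ _ hjK]
        · rw [Finset.piecewise_eq_of_notMem _ _ _ hjK, Finset.piecewise_eq_of_notMem _ _ _ hjK]
          by_cases hjL : j ∈ L
          · rw [Finset.piecewise_eq_of_mem _ _ _ hjL,
              Finset.piecewise_eq_of_mem _ _ _ (Finset.mem_insert_of_mem hjL)]
          · rw [Finset.piecewise_eq_of_notMem _ _ _ hjL,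
              Finset.piecewise_eq_of_notMem _ _ _ (by simp [hjl, hjL])]
  have h := key univ (cc v α)
  simpa only [Finset.piecewise_univ, Finset.inter_univ] using h

/-- Jensen: passing from the columns in `K` to the vectors `v (φ l)`. -/
theorem jensen_cols (v : κ → E n) {α : Fin n → κ → ℝ} (hα0 : ∀ l k, 0 ≤ α l k)
    (hα : ∀ l, ∑ k, α l k = 1) (K I : Finset (Fin n)) :
    V2 (cc v α) I ≤ ∑ φ : Fin n → κ, (∏ l, α l (φ l)) * V2 (K.piecewise (v ∘ φ) (cc v α)) I := by
  induction K using Finset.induction_on with
  | empty =>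
    simp_rw [Finset.piecewise_empty]
    rw [← Finset.sum_mul, sum_prod_eq_one α hα, one_mul]
  | insert l K hl ih =>
    refine ih.trans ?_
    have hr := resampleCol (β := fun _ => κ) (fun l k => α l k) l (hα l)
      (fun φ => V2 ((insert l K).piecewise (v ∘ φ) (cc v α)) I)
    rw [hr]
    refine Finset.sum_le_sum fun φ _ => mul_le_mul_of_nonneg_left ?_
      (Finset.prod_nonneg fun l _ => hα0 l _)
    have h := col_jensen v (α l) (hα0 l) (hα l) (K.piecewise (v ∘ φ) (cc v α)) I l
    have e : Function.update (K.piecewise (v ∘ φ) (cc v α)) l (∑ k, α l k • v k) =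
        K.piecewise (v ∘ φ) (cc v α) := by
      have e1 : (∑ k, α l k • v k) = (K.piecewise (v ∘ φ) (cc v α)) l := by
        rw [Finset.piecewise_eq_of_notMem _ _ _ hl]; rfl
      rw [e1, Function.update_eq_self]
    rw [e] at h
    refine h.trans (le_of_eq ?_)
    refine Finset.sum_congr rfl fun k _ => ?_
    congr 2
    funext j
    by_cases hj : j = l
    · subst hj
      rw [Function.update_self, Finset.piecewise_eq_of_mem _ _ _ (Finset.mem_insert_self _ _),
        Function.comp_apply, Function.update_self]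
    · rw [Function.update_of_ne hj]
      by_cases hjK : j ∈ K
      · rw [Finset.piecewise_eq_of_mem _ _ _ (Finset.mem_insert_of_mem hjK),
          Finset.piecewise_eq_of_mem _ _ _ hjK, Function.comp_apply, Function.comp_apply,
          Function.update_of_ne hj]
      · have hjK' : j ∉ insert l K := by simp [hj, hjK]
        rw [Finset.piecewise_eq_of_notMem _ _ _ hjK, Finset.piecewise_eq_of_notMem _ _ _ hjK']

end

end Pool.Agent.LB
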