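import Pool.Agent.Helper91.LB.B

/-!
LB-EI. Initial bound of the potential.
`D > 0` and all `‖y i‖ > 0` (since `⟪x i, y i⟫ = 1`, `n > 0`). By `V2_compl_le` with `J = Iᶜ`, `k = |J|`:
`ω^I V2 x I ≤ V2 x univ ∏_I ω ∏_J ‖y‖² = V2 x univ (∏ ω) ∏_J (‖y i‖ D / n)`. Summing over `|J| = k`:
`k! ∑_{|J|=k} ∏_J ‖y i‖ ≤ (∑ ‖y i‖)^k = D^k` (elementary symmetric sums; e.g. `k! e_k ≤ (e_1)^k` by
induction on `k` or through injective functions `Fin k → Fin n`). So the terms with `|J| = k` contribute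
at most `V2 x univ (∏ ω) (n/(2D²))^k (D/n)^k D^k = V2 x univ (∏ ω) 2^(-k)`, and `∑_{k ≥ q} 2^(-k) = 2 · 2^(-q)`.
-/

namespace Pool.Agent.LB

open Finset MeasureTheory ProbabilityTheory
open scoped RealInnerProductSpace

theorem ei_pow {S a : ℝ} (hS : 0 ≤ S) (ha : 0 ≤ a) (k : ℕ) :
    S ^ (k + 1) + (k + 1) * (a * S ^ k) ≤ (S + a) ^ (k + 1) := by
  induction k with
  | zero => simp
  | succ k ih =>
    have h1 : (S + a) * (S ^ (k + 1) + (k + 1) * (a * S ^ k)) ≤ (S + a) * (S + a) ^ (k + 1) :=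
      mul_le_mul_of_nonneg_left ih (by positivity)
    have h2 : (S + a) * (S + a) ^ (k + 1) = (S + a) ^ (k + 1 + 1) := by ring
    rw [← h2]
    refine le_trans ?_ h1
    push_cast
    have h3 : 0 ≤ ((k : ℝ) + 1) * (a ^ 2 * S ^ k) := by positivity
    have h4 : (S + a) * (S ^ (k + 1) + ((k : ℝ) + 1) * (a * S ^ k)) =
        S ^ (k + 1 + 1) + ((k : ℝ) + 1 + 1) * (a * S ^ (k + 1)) +
          ((k : ℝ) + 1) * (a ^ 2 * S ^ k) := by ring
    rw [h4]
    linarith

theorem ei_esymm {ι : Type} [DecidableEq ι] {a : ι → ℝ} (ha : ∀ i, 0 ≤ a i) (s : Finset ι) :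
    ∀ k : ℕ, (k.factorial : ℝ) * ∑ J ∈ Finset.powersetCard k s, ∏ i ∈ J, a i ≤
      (∑ i ∈ s, a i) ^ k := by
  classical
  induction s using Finset.induction_on with
  | empty =>
    intro k
    rcases k with _ | k
    · simp
    · rw [Finset.powersetCard_eq_empty.mpr (by simp)]
      simp
  | insert i s hi ih =>
    intro k
    rcases k with _ | k
    · simp
    · rw [Finset.powersetCard_succ_insert hi, Finset.sum_union, Finset.sum_image,
        Finset.sum_insert hi]
      · have h1 : ∑ J ∈ Finset.powersetCard k s, ∏ j ∈ insert i J, a j =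
            a i * ∑ J ∈ Finset.powersetCard k s, ∏ j ∈ J, a j := by
          rw [Finset.mul_sum]
          apply Finset.sum_congr rfl
          intro J hJ
          rw [Finset.prod_insert]
          intro hiJ
          exact hi ((Finset.mem_powersetCard.mp hJ).1 hiJ)
        rw [h1]
        have hS : 0 ≤ ∑ j ∈ s, a j := Finset.sum_nonneg (fun j _ => ha j)
        have h2 := ih (k + 1)
        have h3 := ih k
        have h4 := ei_pow hS (ha i) k
        have h5 : ((k : ℝ) + 1) * (a i * ((k.factorial : ℝ) *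
            ∑ J ∈ Finset.powersetCard k s, ∏ j ∈ J, a j)) ≤
            ((k : ℝ) + 1) * (a i * (∑ j ∈ s, a j) ^ k) :=
          mul_le_mul_of_nonneg_left (mul_le_mul_of_nonneg_left h3 (ha i)) (by positivity)
        calc ((k + 1).factorial : ℝ) * (∑ J ∈ Finset.powersetCard (k + 1) s, ∏ j ∈ J, a j +
              a i * ∑ J ∈ Finset.powersetCard k s, ∏ j ∈ J, a j)
            = ((k + 1).factorial : ℝ) * ∑ J ∈ Finset.powersetCard (k + 1) s, ∏ j ∈ J, a j +
              ((k : ℝ) + 1) * (a i * ((k.factorial : ℝ) *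
                ∑ J ∈ Finset.powersetCard k s, ∏ j ∈ J, a j)) := by
              rw [Nat.factorial_succ]
              push_cast
              ring
          _ ≤ (∑ j ∈ s, a j) ^ (k + 1) + ((k : ℝ) + 1) * (a i * (∑ j ∈ s, a j) ^ k) :=
              add_le_add h2 h5
          _ ≤ (∑ j ∈ s, a j + a i) ^ (k + 1) := h4
          _ = (a i + ∑ j ∈ s, a j) ^ (k + 1) := by rw [add_comm]
      · intro J hJ J' hJ' h
        have h1 : i ∉ J := fun hiJ => hi ((Finset.mem_powersetCard.mp hJ).1 hiJ)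
        have h2 : i ∉ J' := fun hiJ => hi ((Finset.mem_powersetCard.mp hJ').1 hiJ)
        have h3 := congrArg (fun K => K.erase i) h
        simpa [Finset.erase_insert h1, Finset.erase_insert h2] using h3
      · rw [Finset.disjoint_left]
        intro J hJ hJ'
        obtain ⟨K, _, rfl⟩ := Finset.mem_image.mp hJ'
        exact hi ((Finset.mem_powersetCard.mp hJ).1 (Finset.mem_insert_self i K))

theorem ei_sum {n : ℕ} {a : Fin n → ℝ} (ha : ∀ i, 0 ≤ a i) {D : ℝ} (hD : D = ∑ i, a i)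
    (hD0 : 0 < D) (q : ℕ) :
    ∑ J ∈ (univ : Finset (Finset (Fin n))).filter (fun J => q ≤ J.card),
      (J.card.factorial : ℝ) * (2 * D)⁻¹ ^ J.card * ∏ i ∈ J, a i ≤ 2 * (1 / 2) ^ q := by
  classical
  have h1 : ∑ J ∈ (univ : Finset (Finset (Fin n))).filter (fun J => q ≤ J.card),
      (J.card.factorial : ℝ) * (2 * D)⁻¹ ^ J.card * ∏ i ∈ J, a i =
      ∑ k ∈ Finset.Ico q (n + 1),
        ∑ J ∈ ((univ : Finset (Finset (Fin n))).filter (fun J => q ≤ J.card)).filter
          (fun J => J.card = k),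
          (J.card.factorial : ℝ) * (2 * D)⁻¹ ^ J.card * ∏ i ∈ J, a i := by
    rw [Finset.sum_fiberwise_of_maps_to]
    intro J hJ
    have h2 : J.card ≤ n := by simpa using Finset.card_le_univ J
    simp only [Finset.mem_filter, Finset.mem_univ, true_and] at hJ
    rw [Finset.mem_Ico]
    omega
  rw [h1]
  have h2 : ∀ k ∈ Finset.Ico q (n + 1),
      ∑ J ∈ ((univ : Finset (Finset (Fin n))).filter (fun J => q ≤ J.card)).filter
          (fun J => J.card = k),
          (J.card.factorial : ℝ) * (2 * D)⁻¹ ^ J.card * ∏ i ∈ J, a i ≤ (1 / 2) ^ k := by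
    intro k hk
    rw [Finset.mem_Ico] at hk
    have h3 : ((univ : Finset (Finset (Fin n))).filter (fun J => q ≤ J.card)).filter
          (fun J => J.card = k) = Finset.powersetCard k univ := by
      ext J
      simp only [Finset.mem_filter, Finset.mem_univ, true_and, Finset.mem_powersetCard,
        Finset.subset_univ]
      omega
    rw [h3]
    calc ∑ J ∈ Finset.powersetCard k (univ : Finset (Fin n)),
          (J.card.factorial : ℝ) * (2 * D)⁻¹ ^ J.card * ∏ i ∈ J, a i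
        = (2 * D)⁻¹ ^ k * ((k.factorial : ℝ) *
            ∑ J ∈ Finset.powersetCard k (univ : Finset (Fin n)), ∏ i ∈ J, a i) := by
          rw [Finset.mul_sum, Finset.mul_sum]
          apply Finset.sum_congr rfl
          intro J hJ
          rw [(Finset.mem_powersetCard.mp hJ).2]
          ring
      _ ≤ (2 * D)⁻¹ ^ k * (∑ i, a i) ^ k :=
          mul_le_mul_of_nonneg_left (ei_esymm ha univ k) (by positivity)
      _ = (1 / 2) ^ k := by
          rw [← hD, ← mul_pow]
          congr 1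
          field_simp
  refine le_trans (Finset.sum_le_sum h2) ?_
  refine le_trans (geom_sum_Ico_le_of_lt_one (by norm_num) (by norm_num)) ?_
  apply le_of_eq
  ring

theorem Psi_init {n : ℕ} (hn : 0 < n) (x y : Fin n → E n)
    (hxy : ∀ i j, ⟪x i, y j⟫ = if i = j then (1 : ℝ) else 0)
    (D : ℝ) (hD : D = ∑ i, ‖y i‖) (ω : Fin n → ℝ) (hω : ∀ i, ω i = n * ‖y i‖ / D) (q : ℕ) :
    (∀ i, 0 < ω i) ∧ ∑ i, ω i = n ∧ 0 < D ∧
      Psi ω q (n / (2 * D ^ 2)) x ≤ 2 * (1 / 2) ^ q * (∏ l, ω l) * V2 x univ := by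
  classical
  have hn' : (0 : ℝ) < n := by exact_mod_cast hn
  have hy : ∀ i, 0 < ‖y i‖ := by
    intro i
    rw [norm_pos_iff]
    intro h0
    have := hxy i i
    rw [h0] at this
    simp at this
  have hDpos : 0 < D := by
    rw [hD]
    exact Finset.sum_pos (fun i _ => hy i) ⟨⟨0, hn⟩, Finset.mem_univ _⟩
  have hωpos : ∀ i, 0 < ω i := by
    intro i
    rw [hω]
    have := hy i
    positivity
  have hωsum : ∑ i, ω i = n := by
    simp_rw [hω]
    rw [← Finset.sum_div, ← Finset.mul_sum, ← hD]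
    field_simp
  refine ⟨hωpos, hωsum, hDpos, ?_⟩
  have hV : 0 ≤ V2 x univ := V2_nonneg _ _
  have hPi : 0 ≤ ∏ l, ω l := Finset.prod_nonneg (fun l _ => (hωpos l).le)
  -- termwise bound
  have hterm : ∀ I ∈ (univ : Finset (Finset (Fin n))).filter (fun I => I.card + q ≤ n),
      ((n - I.card).factorial : ℝ) * (n / (2 * D ^ 2)) ^ (n - I.card) * (∏ l ∈ I, ω l) * V2 x I ≤
      (∏ l, ω l) * V2 x univ * (((Iᶜ).card.factorial : ℝ) * (2 * D)⁻¹ ^ (Iᶜ).card *
        ∏ i ∈ Iᶜ, ‖y i‖) := by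
    intro I _
    have hc : (Iᶜ).card = n - I.card := by rw [Finset.card_compl, Fintype.card_fin]
    rw [← hc]
    have h1 := (V2_compl_le x y hxy Iᶜ).2
    rw [compl_compl] at h1
    have h2 : (∏ l ∈ I, ω l) * ∏ i ∈ Iᶜ, ‖y i‖ ^ 2 =
        (∏ l, ω l) * ((D / n) ^ (Iᶜ).card * ∏ i ∈ Iᶜ, ‖y i‖) := by
      rw [← Finset.prod_mul_prod_compl I ω, mul_assoc, ← Finset.prod_const,
        ← Finset.prod_mul_distrib, ← Finset.prod_mul_distrib]
      congr 1
      apply Finset.prod_congr rfl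
      intro i _
      rw [hω]
      field_simp
    have hIω : 0 ≤ ∏ l ∈ I, ω l := Finset.prod_nonneg (fun l _ => (hωpos l).le)
    have hcoef : 0 ≤ ((Iᶜ).card.factorial : ℝ) * (n / (2 * D ^ 2)) ^ (Iᶜ).card := by positivity
    calc ((Iᶜ).card.factorial : ℝ) * (n / (2 * D ^ 2)) ^ (Iᶜ).card * (∏ l ∈ I, ω l) * V2 x I
        ≤ ((Iᶜ).card.factorial : ℝ) * (n / (2 * D ^ 2)) ^ (Iᶜ).card * (∏ l ∈ I, ω l) *
            (V2 x univ * ∏ i ∈ Iᶜ, ‖y i‖ ^ 2) :=
          mul_le_mul_of_nonneg_left h1 (mul_nonneg hcoef hIω)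
      _ = ((Iᶜ).card.factorial : ℝ) * (n / (2 * D ^ 2)) ^ (Iᶜ).card * V2 x univ *
            ((∏ l ∈ I, ω l) * ∏ i ∈ Iᶜ, ‖y i‖ ^ 2) := by ring
      _ = (∏ l, ω l) * V2 x univ * (((Iᶜ).card.factorial : ℝ) *
            ((n / (2 * D ^ 2)) ^ (Iᶜ).card * (D / n) ^ (Iᶜ).card) * ∏ i ∈ Iᶜ, ‖y i‖) := by
          rw [h2]; ring
      _ = _ := by
          rw [← mul_pow]
          have h3 : (n : ℝ) / (2 * D ^ 2) * (D / n) = (2 * D)⁻¹ := by
            field_simp
          rw [h3]
  unfold Psi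
  refine le_trans (Finset.sum_le_sum hterm) ?_
  rw [← Finset.mul_sum]
  have hre : ∑ I ∈ (univ : Finset (Finset (Fin n))).filter (fun I => I.card + q ≤ n),
      (((Iᶜ).card.factorial : ℝ) * (2 * D)⁻¹ ^ (Iᶜ).card * ∏ i ∈ Iᶜ, ‖y i‖) =
      ∑ J ∈ (univ : Finset (Finset (Fin n))).filter (fun J => q ≤ J.card),
      ((J.card.factorial : ℝ) * (2 * D)⁻¹ ^ J.card * ∏ i ∈ J, ‖y i‖) := by
    refine Finset.sum_nbij' (fun I => Iᶜ) (fun I => Iᶜ) ?_ ?_ ?_ ?_ ?_
    · intro I hI
      have h2 : I.card ≤ n := by simpa using Finset.card_le_univ I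
      simp only [Finset.mem_filter, Finset.mem_univ, true_and, Finset.card_compl,
        Fintype.card_fin] at hI ⊢
      omega
    · intro I hI
      have h2 : I.card ≤ n := by simpa using Finset.card_le_univ I
      simp only [Finset.mem_filter, Finset.mem_univ, true_and, Finset.card_compl,
        Fintype.card_fin] at hI ⊢
      omega
    · intro I _
      exact compl_compl I
    · intro I _
      exact compl_compl I
    · intro I _
      rfl
  rw [hre]
  have h5 := ei_sum (a := fun i => ‖y i‖) (fun i => (hy i).le) hD hDpos q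
  calc (∏ l, ω l) * V2 x univ *
      ∑ J ∈ (univ : Finset (Finset (Fin n))).filter (fun J => q ≤ J.card),
      ((J.card.factorial : ℝ) * (2 * D)⁻¹ ^ J.card * ∏ i ∈ J, ‖y i‖)
      ≤ (∏ l, ω l) * V2 x univ * (2 * (1 / 2) ^ q) :=
        mul_le_mul_of_nonneg_left h5 (mul_nonneg hPi hV)
    _ = _ := by ring

end Pool.Agent.LB
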