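import Pool.Agent.Helper91.LB.A2

/-!
LB-EL. Lower bound of the potential.
`esymm_lower`: with `J = Iᶜ`, `∏_I ω = (∏ ω) ∏_J (1/ω)` and
`∏_J 1/ω = exp (∑_J -log ω) ≥ 1 + ∑_J (-log ω) ≥ 1 + ∑_J (1 - ω)`. Sum over `|J| = q`:
`C(n,q)(1+q) - C(n-1,q-1) ∑ ω = C(n,q)(1+q) - C(n,q) q = C(n,q)` (each `i` lies in `C(n-1,q-1)` sets `J`,
`n C(n-1,q-1) = q C(n,q)`).
`Psi_lower`: keep only the terms with `I.card + q = n` of `Psi` (all terms are `≥ 0`), use `h` and
`esymm_lower`.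
-/

namespace Pool.Agent.LB

open Finset MeasureTheory ProbabilityTheory
open scoped RealInnerProductSpace

theorem el_key {n : ℕ} {ω : Fin n → ℝ} (hω : ∀ l, 0 < ω l) (I : Finset (Fin n)) :
    (∏ l, ω l) * (1 + ∑ l ∈ Iᶜ, (1 - ω l)) ≤ ∏ l ∈ I, ω l := by
  classical
  have hI : 0 ≤ ∏ l ∈ I, ω l := Finset.prod_nonneg (fun l _ => (hω l).le)
  have hJ : 0 ≤ ∏ l ∈ Iᶜ, ω l := Finset.prod_nonneg (fun l _ => (hω l).le)
  have key : (∏ l ∈ Iᶜ, ω l) * (1 + ∑ l ∈ Iᶜ, (1 - ω l)) ≤ 1 := by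
    have e1 : 1 + ∑ l ∈ Iᶜ, (1 - ω l) ≤ Real.exp (∑ l ∈ Iᶜ, (1 - ω l)) := by
      linarith [Real.add_one_le_exp (∑ l ∈ Iᶜ, (1 - ω l))]
    have e2 : ∏ l ∈ Iᶜ, ω l ≤ Real.exp (∑ l ∈ Iᶜ, (ω l - 1)) := by
      rw [Real.exp_sum]
      exact Finset.prod_le_prod (fun l _ => (hω l).le)
        (fun l _ => by linarith [Real.add_one_le_exp (ω l - 1)])
    calc (∏ l ∈ Iᶜ, ω l) * (1 + ∑ l ∈ Iᶜ, (1 - ω l))
        ≤ (∏ l ∈ Iᶜ, ω l) * Real.exp (∑ l ∈ Iᶜ, (1 - ω l)) :=
          mul_le_mul_of_nonneg_left e1 hJ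
      _ ≤ Real.exp (∑ l ∈ Iᶜ, (ω l - 1)) * Real.exp (∑ l ∈ Iᶜ, (1 - ω l)) :=
          mul_le_mul_of_nonneg_right e2 (Real.exp_pos _).le
      _ = 1 := by
          rw [← Real.exp_add, ← Finset.sum_add_distrib]
          simp
  rw [← Finset.prod_mul_prod_compl I ω, mul_assoc]
  calc (∏ l ∈ I, ω l) * ((∏ l ∈ Iᶜ, ω l) * (1 + ∑ l ∈ Iᶜ, (1 - ω l)))
      ≤ (∏ l ∈ I, ω l) * 1 := mul_le_mul_of_nonneg_left key hI
    _ = _ := mul_one _

theorem el_count {n : ℕ} (q : ℕ) (l l' : Fin n) :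
    (((univ : Finset (Finset (Fin n))).filter (fun I => I.card + q = n)).filter
      (fun I => l ∈ Iᶜ)).card =
    (((univ : Finset (Finset (Fin n))).filter (fun I => I.card + q = n)).filter
      (fun I => l' ∈ Iᶜ)).card := by
  classical
  refine Finset.card_nbij' (fun I => I.map (Equiv.swap l l').toEmbedding)
    (fun I => I.map (Equiv.swap l l').toEmbedding) ?_ ?_ ?_ ?_
  · intro I hI
    simp only [Finset.coe_filter, Finset.mem_filter, Finset.mem_univ, true_and,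
      Finset.mem_compl, Set.mem_ofPred_eq, Finset.card_map] at hI ⊢
    refine ⟨hI.1, fun h => hI.2 ?_⟩
    rw [Finset.mem_map_equiv] at h
    simpa using h
  · intro I hI
    simp only [Finset.coe_filter, Finset.mem_filter, Finset.mem_univ, true_and,
      Finset.mem_compl, Set.mem_ofPred_eq, Finset.card_map] at hI ⊢
    refine ⟨hI.1, fun h => hI.2 ?_⟩
    rw [Finset.mem_map_equiv] at h
    simpa using h
  · intro I hI
    ext x
    simp [Finset.mem_map_equiv]
  · intro I hI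
    ext x
    simp [Finset.mem_map_equiv]

theorem el_card {n q : ℕ} (hq : q ≤ n) :
    ((univ : Finset (Finset (Fin n))).filter (fun I => I.card + q = n)).card = n.choose q := by
  classical
  have : (univ : Finset (Finset (Fin n))).filter (fun I => I.card + q = n) =
      Finset.powersetCard (n - q) univ := by
    ext I
    simp only [Finset.mem_filter, Finset.mem_univ, true_and, Finset.mem_powersetCard,
      Finset.subset_univ]
    omega
  rw [this, Finset.card_powersetCard, Finset.card_univ, Fintype.card_fin, Nat.choose_symm hq]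

theorem el_sum {n : ℕ} (f : Fin n → ℝ) (hf : ∑ l, f l = 0) (q : ℕ) :
    ∑ I ∈ (univ : Finset (Finset (Fin n))).filter (fun I => I.card + q = n),
      ∑ l ∈ Iᶜ, f l = 0 := by
  classical
  set F := (univ : Finset (Finset (Fin n))).filter (fun I => I.card + q = n) with hF
  have h1 : ∑ I ∈ F, ∑ l ∈ Iᶜ, f l = ∑ l, ∑ I ∈ F.filter (fun I => l ∈ Iᶜ), f l := by
    apply Finset.sum_comm'
    intro I l
    simp
  rw [h1]
  rcases Nat.eq_zero_or_pos n with h0 | h0
  · subst h0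
    simp
  · have h2 : ∀ l : Fin n, ∑ I ∈ F.filter (fun I => l ∈ Iᶜ), f l =
        ((F.filter (fun I => (⟨0, h0⟩ : Fin n) ∈ Iᶜ)).card : ℝ) * f l := by
      intro l
      rw [Finset.sum_const, nsmul_eq_mul, hF, el_count q l ⟨0, h0⟩]
    rw [Finset.sum_congr rfl (fun l _ => h2 l), ← Finset.mul_sum, hf, mul_zero]

theorem esymm_lower {n : ℕ} {ω : Fin n → ℝ} (hω : ∀ l, 0 < ω l) (hsum : ∑ l, ω l = n) (q : ℕ)
    (hq : q ≤ n) :
    (n.choose q : ℝ) * ∏ l, ω l ≤
      ∑ I ∈ (univ : Finset (Finset (Fin n))).filter (fun I => I.card + q = n), ∏ l ∈ I, ω l := by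
  classical
  calc (n.choose q : ℝ) * ∏ l, ω l
      = ∑ I ∈ (univ : Finset (Finset (Fin n))).filter (fun I => I.card + q = n),
          (∏ l, ω l) * (1 + ∑ l ∈ Iᶜ, (1 - ω l)) := by
        rw [← Finset.mul_sum, Finset.sum_add_distrib, el_sum (fun l => 1 - ω l) (by
          rw [Finset.sum_sub_distrib, hsum]; simp) q, Finset.sum_const, el_card hq]
        simp [mul_comm]
    _ ≤ _ := Finset.sum_le_sum (fun I _ => el_key hω I)

theorem Psi_lower {n : ℕ} {ω : Fin n → ℝ} (hω : ∀ l, 0 < ω l) (hsum : ∑ l, ω l = n) (q : ℕ)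
    (hq : q ≤ n) (x : Fin n → E n) {M : ℝ} (hM : 0 ≤ M)
    (h : ∀ I : Finset (Fin n), I.card + q = n → V2 x univ ≤ V2 x I * M ^ q) {y : ℝ} (hy : 0 < y) :
    (q.factorial : ℝ) * y ^ q * (n.choose q) * (∏ l, ω l) * V2 x univ ≤ M ^ q * Psi ω q y x := by
  classical
  have hV : 0 ≤ V2 x univ := V2_nonneg _ _
  have hqy : 0 ≤ (q.factorial : ℝ) * y ^ q := by positivity
  have hMq : 0 ≤ M ^ q := pow_nonneg hM q
  have h1 : M ^ q * ∑ I ∈ (univ : Finset (Finset (Fin n))).filter (fun I => I.card + q = n),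
      ((n - I.card).factorial : ℝ) * y ^ (n - I.card) * (∏ l ∈ I, ω l) * V2 x I ≤
      M ^ q * Psi ω q y x := by
    apply mul_le_mul_of_nonneg_left _ hMq
    unfold Psi
    apply Finset.sum_le_sum_of_subset_of_nonneg
    · intro I hI
      simp only [Finset.mem_filter, Finset.mem_univ, true_and] at hI ⊢
      omega
    · intro I _ _
      have := V2_nonneg x I
      have h2 : 0 ≤ ∏ l ∈ I, ω l := Finset.prod_nonneg (fun l _ => (hω l).le)
      positivity
  refine le_trans ?_ h1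
  rw [Finset.mul_sum]
  calc (q.factorial : ℝ) * y ^ q * (n.choose q) * (∏ l, ω l) * V2 x univ
      = ((q.factorial : ℝ) * y ^ q) * V2 x univ * ((n.choose q) * (∏ l, ω l)) := by ring
    _ ≤ ((q.factorial : ℝ) * y ^ q) * V2 x univ *
        ∑ I ∈ (univ : Finset (Finset (Fin n))).filter (fun I => I.card + q = n),
          ∏ l ∈ I, ω l :=
        mul_le_mul_of_nonneg_left (esymm_lower hω hsum q hq) (mul_nonneg hqy hV)
    _ = ∑ I ∈ (univ : Finset (Finset (Fin n))).filter (fun I => I.card + q = n),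
          ((q.factorial : ℝ) * y ^ q) * V2 x univ * ∏ l ∈ I, ω l := Finset.mul_sum _ _ _
    _ ≤ _ := by
        apply Finset.sum_le_sum
        intro I hI
        simp only [Finset.mem_filter, Finset.mem_univ, true_and] at hI
        have hn : n - I.card = q := by omega
        rw [hn]
        have h2 : 0 ≤ ∏ l ∈ I, ω l := Finset.prod_nonneg (fun l _ => (hω l).le)
        calc ((q.factorial : ℝ) * y ^ q) * V2 x univ * ∏ l ∈ I, ω l
            ≤ ((q.factorial : ℝ) * y ^ q) * (V2 x I * M ^ q) * ∏ l ∈ I, ω l :=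
              mul_le_mul_of_nonneg_right (mul_le_mul_of_nonneg_left (h I hI) hqy) h2
          _ = _ := by ring

end Pool.Agent.LB
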