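import Pool.Agent.Helper91.LB.Defs

/-!
LB-N. Numerical series bound.
`((2h + P/r)/z)^r ≤ 2^r ((2h/z)^r + (P/(r z))^r)`, so the sum is at most
`∑ (4h/z)^r/r! + ∑ (2P/z)^r/(r^r r!) ≤ exp (4h/z) + ∑ (2P/z)^r/(r!)²` (`r! ≤ r^r`), and
`∑ w^r/(r!)² ≤ (∑ (√w)^r/r!)² = exp (2 √w)`; finally `a + b ≤ 2 a b` for `a, b ≥ 1`. (The term `r = 0` is
`1`.)
-/

namespace Pool.Agent.LB

open Finset MeasureTheory ProbabilityTheory
open scoped RealInnerProductSpace

theorem num_factor (h R : ℕ) {P z : ℝ} (hP : 0 ≤ P) (hz : 0 < z) :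
    ∑ r ∈ range (R + 1), ((2 * (h : ℝ) + P / r) / z) ^ r / (r.factorial : ℝ) ≤
      2 * Real.exp (4 * h / z) * Real.exp (2 * Real.sqrt (2 * P / z)) := by
  set w : ℝ := 2 * P / z with hw
  have hw0 : 0 ≤ w := by positivity
  set s : ℝ := Real.sqrt w with hs
  have hs0 : 0 ≤ s := Real.sqrt_nonneg _
  have hsw : s ^ 2 = w := Real.sq_sqrt hw0
  have hA : ∑ r ∈ range (R + 1), (4 * (h : ℝ) / z) ^ r / (r.factorial : ℝ) ≤
      Real.exp (4 * h / z) :=
    Real.sum_le_exp_of_nonneg (by positivity) _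
  have hB0 : ∑ r ∈ range (R + 1), s ^ r / (r.factorial : ℝ) ≤ Real.exp s :=
    Real.sum_le_exp_of_nonneg hs0 _
  have hB : ∑ r ∈ range (R + 1), (s ^ r / (r.factorial : ℝ)) ^ 2 ≤ Real.exp (2 * s) := by
    have e : Real.exp (2 * s) = Real.exp s * Real.exp s := by
      rw [← Real.exp_add]; congr 1; ring
    rw [e]
    calc ∑ r ∈ range (R + 1), (s ^ r / (r.factorial : ℝ)) ^ 2
        ≤ ∑ r ∈ range (R + 1), (s ^ r / (r.factorial : ℝ)) * Real.exp s := by
          refine Finset.sum_le_sum fun r hr => ?_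
          rw [sq]
          refine mul_le_mul_of_nonneg_left ?_ (by positivity)
          refine le_trans ?_ hB0
          exact Finset.single_le_sum (f := fun r => s ^ r / (r.factorial : ℝ))
            (fun i _ => by positivity) hr
      _ = (∑ r ∈ range (R + 1), (s ^ r / (r.factorial : ℝ))) * Real.exp s := by
          rw [Finset.sum_mul]
      _ ≤ Real.exp s * Real.exp s := by gcongr
  have hterm : ∀ r ∈ range (R + 1), ((2 * (h : ℝ) + P / r) / z) ^ r / (r.factorial : ℝ) ≤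
      (4 * (h : ℝ) / z) ^ r / (r.factorial : ℝ) + (s ^ r / (r.factorial : ℝ)) ^ 2 := by
    intro r _
    have h1 : ((2 * (h : ℝ) + P / r) / z) ^ r ≤
        2 ^ r * ((2 * (h : ℝ) / z) ^ r + (P / (r * z)) ^ r) := by
      have e : (2 * (h : ℝ) + P / r) / z = 2 * (h : ℝ) / z + P / (r * z) := by
        rw [add_div, div_div]
      rw [e]
      refine (add_pow_le (by positivity) (by positivity) r).trans ?_
      refine mul_le_mul_of_nonneg_right ?_ (by positivity)
      exact pow_le_pow_right₀ (by norm_num) (Nat.sub_le _ _)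
    have h2 : 2 ^ r * ((2 * (h : ℝ) / z) ^ r + (P / (r * z)) ^ r) =
        (4 * (h : ℝ) / z) ^ r + w ^ r / (r : ℝ) ^ r := by
      rw [mul_add, ← mul_pow, ← mul_pow, ← div_pow]
      congr 2
      · ring
      · rw [hw, div_div, mul_comm z, ← mul_div_assoc]
    have hf : (0 : ℝ) < (r.factorial : ℝ) := by positivity
    have h3 : w ^ r / (r : ℝ) ^ r ≤ w ^ r / (r.factorial : ℝ) := by
      have hle : (r.factorial : ℝ) ≤ (r : ℝ) ^ r := by
        exact_mod_cast Nat.factorial_le_pow r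
      gcongr
    calc ((2 * (h : ℝ) + P / r) / z) ^ r / (r.factorial : ℝ)
        ≤ ((4 * (h : ℝ) / z) ^ r + w ^ r / (r.factorial : ℝ)) / (r.factorial : ℝ) := by
          gcongr
          linarith [h1.trans_eq h2]
      _ = (4 * (h : ℝ) / z) ^ r / (r.factorial : ℝ) + (s ^ r / (r.factorial : ℝ)) ^ 2 := by
          have e3 : (s ^ r / (r.factorial : ℝ)) ^ 2 = w ^ r / (r.factorial : ℝ) / (r.factorial : ℝ) := by
            rw [← hsw, div_pow, ← pow_mul, mul_comm r 2, pow_mul, div_div, sq (r.factorial : ℝ)]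
          rw [e3, add_div]
  have h1 : 1 ≤ Real.exp (4 * h / z) := Real.one_le_exp (by positivity)
  have h2 : 1 ≤ Real.exp (2 * s) := Real.one_le_exp (by positivity)
  calc ∑ r ∈ range (R + 1), ((2 * (h : ℝ) + P / r) / z) ^ r / (r.factorial : ℝ)
      ≤ ∑ r ∈ range (R + 1), ((4 * (h : ℝ) / z) ^ r / (r.factorial : ℝ) +
          (s ^ r / (r.factorial : ℝ)) ^ 2) := Finset.sum_le_sum hterm
    _ = ∑ r ∈ range (R + 1), (4 * (h : ℝ) / z) ^ r / (r.factorial : ℝ) +
          ∑ r ∈ range (R + 1), (s ^ r / (r.factorial : ℝ)) ^ 2 := Finset.sum_add_distrib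
    _ ≤ Real.exp (4 * h / z) + Real.exp (2 * s) := add_le_add hA hB
    _ ≤ 2 * Real.exp (4 * h / z) * Real.exp (2 * s) := by nlinarith

end Pool.Agent.LB
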