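import Pool.Agent.Helper91.LB.D
import Pool.Agent.Helper91.LB.EL
import Pool.Agent.Helper91.LB.EI
import Pool.Agent.Helper91.LB.N

/-!
LB-CH. The chain of sparsification steps (helper91).
-/

namespace Pool.Agent.LB

open Finset MeasureTheory ProbabilityTheory
open scoped RealInnerProductSpace

theorem exists_emp {n : ℕ} {κ : Type} [Fintype κ] [DecidableEq κ] (v : κ → E n) (t : Fin n → ℕ)
    (ht : ∀ l, 1 ≤ t l) (f : ∀ l, Fin (t l) → κ) :
    ∃ α : Fin n → κ → ℝ, (∀ l k, 0 ≤ α l k) ∧ (∀ l, ∑ k, α l k = 1) ∧ cc v α = xs v t f := by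
  refine ⟨fun l k => (t l : ℝ)⁻¹ * ∑ i, (if f l i = k then 1 else 0), ?_, ?_, ?_⟩
  · intro l k
    refine mul_nonneg (by positivity) (Finset.sum_nonneg fun i _ => ?_)
    split_ifs <;> norm_num
  · intro l
    have h0 : (t l : ℝ) ≠ 0 := by
      have := ht l
      positivity
    rw [← Finset.mul_sum, Finset.sum_comm]
    simp [h0]
  · funext l
    unfold cc xs
    simp_rw [← smul_smul]
    rw [← Finset.smul_sum]
    congr 1
    simp_rw [Finset.sum_smul]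
    rw [Finset.sum_comm]
    refine Finset.sum_congr rfl fun i _ => ?_
    simp

/-- One step of the chain, from sparse columns to sparser columns. -/
theorem chain_step {n m : ℕ} (g : Fin m → E n) {L : ℝ} (hL : 0 ≤ L) {T : ℕ} (h2 : R2 g T L)
    (t : Fin n → ℕ) (ht : ∀ l, 1 ≤ t l ∧ t l ≤ T) (f : ∀ l, Fin (t l) → Fin m × Bool)
    (hpos : 0 < V2 (xs (sg g) t f) univ)
    {ω : Fin n → ℝ} (hω : ∀ l, 0 < ω l) {s : ℝ} (hs : 0 < s)
    (t' : Fin n → ℕ) (ht' : ∀ l, 1 ≤ t' l) (hst : ∀ l, s * ω l ≤ t' l) (q : ℕ) {y y' δ B : ℝ}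
    (hy' : 0 < y') (hyy : y' = y * Real.exp (-δ)) (hδ : 4 / (s * y') ≤ δ)
    (hB : 2 * Real.sqrt (2 * (12 * (∑ l, (t l : ℝ)) * L) / (s * y')) ≤ B) :
    ∃ f' : (∀ l, Fin (t' l) → Fin m × Bool), 0 < V2 (xs (sg g) t' f') univ ∧
      Psi ω q y' (xs (sg g) t' f') * V2 (xs (sg g) t f) univ ≤
        (2 * Real.exp B) * Psi ω q y (xs (sg g) t f) * V2 (xs (sg g) t' f') univ := by
  obtain ⟨α, hα0, hα, hcc⟩ := exists_emp (sg g) t (fun l => (ht l).1) f
  rw [← hcc] at hpos ⊢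
  set τ : ℝ := ∑ l, (t l : ℝ) with hτ
  have hτ0 : 0 ≤ τ := Finset.sum_nonneg fun l _ => Nat.cast_nonneg _
  have hP : 0 ≤ 12 * τ * L := by positivity
  have hz : 0 < s * y' := by positivity
  refine step (sg g) hα0 hα hpos hω hs t' ht' hst q hy'
    (fun h r => 2 * (h : ℝ) + 12 * τ * L / r) (fun h r => by positivity) ?_ ?_
  · intro I K φ hIK hK
    have := h2 t ht f I K φ hIK hK
    rw [hcc]
    have hc : ((n - I.card : ℕ) : ℝ) = (n : ℝ) - I.card := by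
      rw [Nat.cast_sub]
      simpa using Finset.card_le_univ I
    rw [hc]
    exact this
  · intro h hq hn
    have hyp : 0 < y := by
      rw [hyy] at hy'
      exact (pos_iff_pos_of_mul_pos hy').2 (Real.exp_pos _)
    have h1 := num_factor h (h - q) hP hz
    calc y' ^ h * ∑ r ∈ range (h - q + 1), ((2 * (h : ℝ) + 12 * τ * L / r) / (s * y')) ^ r /
          (r.factorial : ℝ)
        ≤ y' ^ h * (2 * Real.exp (4 * h / (s * y')) *
            Real.exp (2 * Real.sqrt (2 * (12 * τ * L) / (s * y')))) :=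
          mul_le_mul_of_nonneg_left h1 (by positivity)
      _ ≤ y' ^ h * (2 * Real.exp (h * δ) * Real.exp B) := by
          have e1 : 4 * (h : ℝ) / (s * y') ≤ h * δ := by
            calc 4 * (h : ℝ) / (s * y') = h * (4 / (s * y')) := by ring
              _ ≤ h * δ := mul_le_mul_of_nonneg_left hδ (by positivity)
          gcongr
      _ = (2 * Real.exp B) * y ^ h := by
          rw [hyy, mul_pow, ← Real.exp_nat_mul]
          have : Real.exp ((h : ℝ) * -δ) * Real.exp (h * δ) = 1 := by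
            rw [← Real.exp_add]; simp
          calc y ^ h * Real.exp ((h : ℝ) * -δ) * (2 * Real.exp (h * δ) * Real.exp B)
              = (2 * Real.exp B) * y ^ h * (Real.exp ((h : ℝ) * -δ) * Real.exp (h * δ)) := by ring
            _ = _ := by rw [this, mul_one]

theorem norm_sg {n m : ℕ} (g : Fin m → E n) (h0 : ∀ j, ‖g j‖ ^ 2 ≤ 8 * n) (k : Fin m × Bool) :
    ‖sg g k‖ ^ 2 ≤ 8 * n := by
  unfold sg
  split_ifs
  · exact h0 _
  · rw [norm_neg]; exact h0 _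

/-- The first step, with the trivial bound for the distances. -/
theorem chain_start {n m : ℕ} (g : Fin m → E n) (h0 : ∀ j, ‖g j‖ ^ 2 ≤ 8 * n)
    {α : Fin n → Fin m × Bool → ℝ} (hα0 : ∀ l k, 0 ≤ α l k) (hα : ∀ l, ∑ k, α l k = 1)
    (hpos : 0 < V2 (cc (sg g) α) univ)
    {ω : Fin n → ℝ} (hω : ∀ l, 0 < ω l) {s : ℝ} (hs : 0 < s)
    (t : Fin n → ℕ) (ht : ∀ l, 1 ≤ t l) (hst : ∀ l, s * ω l ≤ t l) (q : ℕ) {y : ℝ} (hy : 0 < y) :
    ∃ f : (∀ l, Fin (t l) → Fin m × Bool), 0 < V2 (xs (sg g) t f) univ ∧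
      Psi ω q y (xs (sg g) t f) * V2 (cc (sg g) α) univ ≤
        Real.exp (8 * n / (s * y)) * Psi ω q y (cc (sg g) α) * V2 (xs (sg g) t f) univ := by
  refine step (sg g) hα0 hα hpos hω hs t ht hst q hy (fun _ _ => 8 * (n : ℝ))
    (fun _ _ => by positivity) ?_ ?_
  · intro I K φ hIK hK
    have e1 : ∀ l ∈ I, K.piecewise (sg g ∘ φ) (cc (sg g) α) l = cc (sg g) α l := fun l hl =>
      Finset.piecewise_eq_of_notMem _ _ _ (Finset.disjoint_left.1 hIK hl)
    calc V2 (K.piecewise (sg g ∘ φ) (cc (sg g) α)) (I ∪ K)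
        ≤ V2 (K.piecewise (sg g ∘ φ) (cc (sg g) α)) I *
            ∏ l ∈ K, d2 (K.piecewise (sg g ∘ φ) (cc (sg g) α)) I
              (K.piecewise (sg g ∘ φ) (cc (sg g) α) l) := V2_union_le _ hIK
      _ ≤ V2 (cc (sg g) α) I * (8 * (n : ℝ)) ^ K.card := by
          rw [V2_congr e1]
          refine mul_le_mul_of_nonneg_left ?_ (V2_nonneg _ _)
          rw [← Finset.prod_const]
          refine Finset.prod_le_prod (fun l _ => d2_nonneg _ _ _) fun l hl => ?_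
          refine (d2_le_norm _ _ _).trans ?_
          rw [Finset.piecewise_eq_of_mem _ _ _ hl]
          exact norm_sg g h0 _
  · intro h hq hn
    rw [mul_comm]
    refine mul_le_mul_of_nonneg_right ?_ (by positivity)
    exact Real.sum_le_exp_of_nonneg (by positivity) _

theorem norm_cc_sq_le {n m : ℕ} (g : Fin m → E n) (h0 : ∀ j, ‖g j‖ ^ 2 ≤ 8 * n)
    {α : Fin n → Fin m × Bool → ℝ} (hα0 : ∀ l k, 0 ≤ α l k) (hα : ∀ l, ∑ k, α l k = 1) (l : Fin n) :
    ‖cc (sg g) α l‖ ≤ Real.sqrt (8 * n) := by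
  unfold cc
  calc ‖∑ k, α l k • sg g k‖ ≤ ∑ k, ‖α l k • sg g k‖ := norm_sum_le _ _
    _ ≤ ∑ k, α l k * Real.sqrt (8 * n) := by
        refine Finset.sum_le_sum fun k _ => ?_
        rw [norm_smul, Real.norm_eq_abs, abs_of_nonneg (hα0 l k)]
        refine mul_le_mul_of_nonneg_left ?_ (hα0 l k)
        exact Real.le_sqrt_of_sq_le (norm_sg g h0 k)
    _ = Real.sqrt (8 * n) := by rw [← Finset.sum_mul, hα, one_mul]

theorem le_D_sq {n m : ℕ} (hn : 0 < n) (g : Fin m → E n) (h0 : ∀ j, ‖g j‖ ^ 2 ≤ 8 * n)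
    {α : Fin n → Fin m × Bool → ℝ} (hα0 : ∀ l k, 0 ≤ α l k) (hα : ∀ l, ∑ k, α l k = 1)
    (y : Fin n → E n) (hy : ∀ i j, ⟪cc (sg g) α i, y j⟫ = if i = j then (1 : ℝ) else 0)
    {D : ℝ} (hD : D = ∑ i, ‖y i‖) : (n : ℝ) ≤ 8 * D ^ 2 := by
  have hn1 : (0 : ℝ) < n := by exact_mod_cast hn
  have h1 : ∀ i, 1 ≤ Real.sqrt (8 * n) * ‖y i‖ := by
    intro i
    have h2 := hy i i
    rw [if_pos rfl] at h2
    calc (1 : ℝ) = ⟪cc (sg g) α i, y i⟫ := h2.symm
      _ ≤ ‖cc (sg g) α i‖ * ‖y i‖ := real_inner_le_norm _ _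
      _ ≤ _ := mul_le_mul_of_nonneg_right (norm_cc_sq_le g h0 hα0 hα i) (norm_nonneg _)
  have h3 : (n : ℝ) ≤ Real.sqrt (8 * n) * D := by
    rw [hD, Finset.mul_sum]
    calc (n : ℝ) = ∑ _i : Fin n, (1 : ℝ) := by simp
      _ ≤ _ := Finset.sum_le_sum fun i _ => h1 i
  have h4 : (n : ℝ) ^ 2 ≤ (8 * n) * D ^ 2 := by
    calc (n : ℝ) ^ 2 ≤ (Real.sqrt (8 * n) * D) ^ 2 := by gcongr
      _ = (8 * n) * D ^ 2 := by rw [mul_pow, Real.sq_sqrt (by positivity)]
  nlinarith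

/-- A bound for the sparse columns at the end of the chain. -/
theorem chain_end {n m : ℕ} (g : Fin m → E n) {L : ℝ} {T : ℕ} (h2 : R2 g T L)
    (t : Fin n → ℕ) (ht : ∀ l, 1 ≤ t l ∧ t l ≤ T) (f : ∀ l, Fin (t l) → Fin m × Bool)
    (q : ℕ) (hq : 0 < q) (hL : 0 ≤ L)
    (hτ : 12 * (∑ l, (t l : ℝ)) * L ≤ (q : ℝ) ^ 2) (I : Finset (Fin n)) (hI : I.card + q = n) :
    V2 (xs (sg g) t f) univ ≤ V2 (xs (sg g) t f) I * (3 * (q : ℝ)) ^ q := by
  classical
  obtain ⟨α, hα0, hα, hcc⟩ := exists_emp (sg g) t (fun l => (ht l).1) f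
  have hKc : (Iᶜ).card = q := by
    rw [Finset.card_compl, Fintype.card_fin]; omega
  have hK : (Iᶜ).Nonempty := by
    rw [← Finset.card_pos, hKc]; exact hq
  have hτ0 : (0 : ℝ) ≤ ∑ l, (t l : ℝ) := Finset.sum_nonneg fun l _ => Nat.cast_nonneg _
  have hq1 : (0 : ℝ) < q := by exact_mod_cast hq
  have key : ∀ φ : Fin n → Fin m × Bool,
      V2 (Iᶜ.piecewise (sg g ∘ φ) (xs (sg g) t f)) univ ≤
        V2 (xs (sg g) t f) I * (3 * (q : ℝ)) ^ q := by
    intro φ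
    have h3 := h2 t ht f I Iᶜ φ disjoint_compl_right hK
    rw [Finset.union_compl, hKc] at h3
    refine h3.trans (mul_le_mul_of_nonneg_left ?_ (V2_nonneg _ _))
    have hc : (n : ℝ) - I.card = q := by
      have : (n : ℝ) = I.card + q := by exact_mod_cast hI.symm
      rw [this]; ring
    rw [hc]
    refine pow_le_pow_left₀ (by positivity) ?_ _
    have : 12 * (∑ l, (t l : ℝ)) * L / q ≤ q := by
      rw [div_le_iff₀ hq1]
      linarith [sq (q : ℝ)]
    linarith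
  have h4 := jensen_cols (sg g) hα0 hα Iᶜ univ
  rw [hcc] at h4
  refine h4.trans ?_
  calc ∑ φ : Fin n → Fin m × Bool, (∏ l, α l (φ l)) *
        V2 (Iᶜ.piecewise (sg g ∘ φ) (xs (sg g) t f)) univ
      ≤ ∑ φ : Fin n → Fin m × Bool, (∏ l, α l (φ l)) *
          (V2 (xs (sg g) t f) I * (3 * (q : ℝ)) ^ q) := by
        refine Finset.sum_le_sum fun φ _ => mul_le_mul_of_nonneg_left (key φ) ?_
        exact Finset.prod_nonneg fun l _ => hα0 _ _
    _ = _ := by rw [← Finset.sum_mul, sum_prod_eq_one α hα, one_mul]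

/-- The chain of halvings. -/
theorem chain_down {n m : ℕ} (hn : 0 < n) (g : Fin m → E n) (h0 : ∀ j, ‖g j‖ ^ 2 ≤ 8 * n)
    {L : ℝ} (hL : 0 ≤ L) {T : ℕ} (h2 : R2 g T L)
    {α : Fin n → Fin m × Bool → ℝ} (hα0 : ∀ l k, 0 ≤ α l k) (hα : ∀ l, ∑ k, α l k = 1)
    (hpos : 0 < V2 (cc (sg g) α) univ) {ω : Fin n → ℝ} (hω : ∀ l, 0 < ω l) (q : ℕ)
    {sf y0 c0 B Ci : ℝ} (hsf : 1 ≤ sf) (hy0 : 0 < y0) (hc0 : 16 / (sf * y0) ≤ c0)
    (hc1 : c0 ≤ Real.log 2) (hB : 2 * Real.sqrt (192 * n * L / y0) ≤ B) (hCi : 0 ≤ Ci)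
    (a : Fin n → ℕ) (ha1 : ∀ l, 1 ≤ a l) (has : ∀ l, sf * ω l ≤ a l)
    (hasum : (∑ l, (a l : ℝ)) ≤ 2 * sf * n) (N : ℕ) (hN : n ≤ 2 ^ N)
    (hT : ∀ l, 2 ^ N * a l ≤ T)
    (hinit : Psi ω q y0 (cc (sg g) α) ≤ Ci * V2 (cc (sg g) α) univ) :
    ∀ k ≤ N, ∀ t : Fin n → ℕ, (∀ l, t l = 2 ^ (N - k) * a l) →
      ∃ f : (∀ l, Fin (t l) → Fin m × Bool), 0 < V2 (xs (sg g) t f) univ ∧
        Psi ω q (y0 * Real.exp (-(c0 * (((2 : ℝ) ^ (N - k))⁻¹ - ((2 : ℝ) ^ N)⁻¹)))) (xs (sg g) t f) ≤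
          Real.exp (8 / y0) * (2 * Real.exp B) ^ k * Ci * V2 (xs (sg g) t f) univ := by
  intro k
  induction k with
  | zero =>
    intro _ t ht
    simp only [Nat.sub_zero] at ht
    have hs : (0 : ℝ) < 2 ^ N * sf := by positivity
    have hst : ∀ l, (2 ^ N * sf) * ω l ≤ t l := by
      intro l
      rw [ht]
      push_cast
      rw [mul_assoc]
      exact mul_le_mul_of_nonneg_left (has l) (by positivity)
    obtain ⟨f, hf, hle⟩ := chain_start g h0 hα0 hα hpos hω hs t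
      (fun l => by rw [ht]; exact Nat.mul_pos (by positivity) (ha1 l)) hst q hy0
    refine ⟨f, hf, ?_⟩
    simp only [Nat.sub_zero, sub_self, mul_zero, neg_zero, Real.exp_zero, mul_one, pow_zero]
    have hns : (n : ℝ) ≤ 2 ^ N * sf := by
      have h1 : (n : ℝ) ≤ 2 ^ N := by exact_mod_cast hN
      calc (n : ℝ) ≤ 2 ^ N * 1 := by linarith
        _ ≤ 2 ^ N * sf := mul_le_mul_of_nonneg_left hsf (by positivity)
    have hexp : Real.exp (8 * n / (2 ^ N * sf * y0)) ≤ Real.exp (8 / y0) := by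
      rw [Real.exp_le_exp, div_le_div_iff₀ (by positivity) hy0]
      calc 8 * (n : ℝ) * y0 ≤ 8 * (2 ^ N * sf) * y0 := by gcongr
        _ = 8 * (2 ^ N * sf * y0) := by ring
    have h3 : Psi ω q y0 (xs (sg g) t f) * V2 (cc (sg g) α) univ ≤
        (Real.exp (8 / y0) * Ci * V2 (xs (sg g) t f) univ) * V2 (cc (sg g) α) univ := by
      calc Psi ω q y0 (xs (sg g) t f) * V2 (cc (sg g) α) univ
          ≤ Real.exp (8 * n / (2 ^ N * sf * y0)) * Psi ω q y0 (cc (sg g) α) *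
              V2 (xs (sg g) t f) univ := hle
        _ ≤ Real.exp (8 * n / (2 ^ N * sf * y0)) * (Ci * V2 (cc (sg g) α) univ) *
              V2 (xs (sg g) t f) univ := by gcongr
        _ ≤ Real.exp (8 / y0) * (Ci * V2 (cc (sg g) α) univ) *
              V2 (xs (sg g) t f) univ := by gcongr
        _ = _ := by ring
    exact le_of_mul_le_mul_right h3 hpos
  | succ k ih =>
    intro hk t ht
    obtain ⟨j, hj⟩ : ∃ j, N = j + (k + 1) := ⟨N - (k + 1), by omega⟩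
    have hj1 : N - (k + 1) = j := by omega
    have hj2 : N - k = j + 1 := by omega
    rw [hj1] at ht ⊢
    rw [hj2] at ih
    obtain ⟨f, hf, hle⟩ := ih (by omega) (fun l => 2 ^ (j + 1) * a l) (fun l => rfl)
    have hs : (0 : ℝ) < 2 ^ j * sf := by positivity
    have hst : ∀ l, (2 ^ j * sf) * ω l ≤ t l := by
      intro l
      rw [ht]
      push_cast
      rw [mul_assoc]
      exact mul_le_mul_of_nonneg_left (has l) (by positivity)
    have hc0' : 0 ≤ c0 := le_trans (by positivity) hc0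
    have h2j : (0 : ℝ) < 2 ^ j := by positivity
    have h2N : ((2 : ℝ) ^ N)⁻¹ ≤ ((2 : ℝ) ^ j)⁻¹ := by
      gcongr
      · norm_num
      · omega
    have h2j1 : ((2 : ℝ) ^ j)⁻¹ ≤ 1 := inv_le_one_of_one_le₀ (one_le_pow₀ (by norm_num))
    have h2N0 : (0 : ℝ) < ((2 : ℝ) ^ N)⁻¹ := by positivity
    set y' := y0 * Real.exp (-(c0 * (((2 : ℝ) ^ j)⁻¹ - ((2 : ℝ) ^ N)⁻¹))) with hy'
    set yy := y0 * Real.exp (-(c0 * (((2 : ℝ) ^ (j + 1))⁻¹ - ((2 : ℝ) ^ N)⁻¹))) with hyy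
    have hy'pos : 0 < y' := by positivity
    have hy'low : y0 / 2 ≤ y' := by
      have : Real.exp (-Real.log 2) ≤
          Real.exp (-(c0 * (((2 : ℝ) ^ j)⁻¹ - ((2 : ℝ) ^ N)⁻¹))) := by
        rw [Real.exp_le_exp]
        have : c0 * (((2 : ℝ) ^ j)⁻¹ - ((2 : ℝ) ^ N)⁻¹) ≤ c0 * 1 :=
          mul_le_mul_of_nonneg_left (by linarith) hc0'
        linarith
      rw [Real.exp_neg, Real.exp_log (by norm_num)] at this
      calc y0 / 2 = y0 * 2⁻¹ := by ring
        _ ≤ _ := mul_le_mul_of_nonneg_left this hy0.le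
    have hrel : y' = yy * Real.exp (-(c0 * ((2 : ℝ) ^ (j + 1))⁻¹)) := by
      rw [hy', hyy, mul_assoc, ← Real.exp_add]
      congr 2
      rw [pow_succ, mul_inv]
      ring
    have hδ : 4 / (2 ^ j * sf * y') ≤ c0 * ((2 : ℝ) ^ (j + 1))⁻¹ := by
      calc 4 / (2 ^ j * sf * y') ≤ 4 / (2 ^ j * sf * (y0 / 2)) := by gcongr
        _ = 16 / (sf * y0) * ((2 : ℝ) ^ (j + 1))⁻¹ := by
            rw [pow_succ, mul_inv]
            field_simp
            norm_num
        _ ≤ _ := mul_le_mul_of_nonneg_right hc0 (by positivity)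
    have hBB : 2 * Real.sqrt (2 * (12 * (∑ l, ((2 ^ (j + 1) * a l : ℕ) : ℝ)) * L) /
        (2 ^ j * sf * y')) ≤ B := by
      refine le_trans ?_ hB
      refine mul_le_mul_of_nonneg_left (Real.sqrt_le_sqrt ?_) (by norm_num)
      have h4 : (∑ l, ((2 ^ (j + 1) * a l : ℕ) : ℝ)) ≤ 4 * (2 ^ j * sf) * n := by
        push_cast
        rw [← Finset.mul_sum]
        calc (2 : ℝ) ^ (j + 1) * ∑ l, (a l : ℝ) ≤ 2 ^ (j + 1) * (2 * sf * n) :=
              mul_le_mul_of_nonneg_left hasum (by positivity)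
          _ = _ := by rw [pow_succ]; ring
      calc 2 * (12 * (∑ l, ((2 ^ (j + 1) * a l : ℕ) : ℝ)) * L) / (2 ^ j * sf * y')
          ≤ 2 * (12 * (4 * (2 ^ j * sf) * n) * L) / (2 ^ j * sf * (y0 / 2)) := by gcongr
        _ = 192 * n * L / y0 := by
            field_simp
            ring
    have htT : ∀ l, 1 ≤ 2 ^ (j + 1) * a l ∧ 2 ^ (j + 1) * a l ≤ T := by
      intro l
      refine ⟨Nat.mul_pos (by positivity) (ha1 l), le_trans ?_ (hT l)⟩
      exact Nat.mul_le_mul_right _ (Nat.pow_le_pow_right (by norm_num) (by omega))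
    obtain ⟨f', hf', hle'⟩ := chain_step g hL h2 (fun l => 2 ^ (j + 1) * a l) htT f hf hω hs t
      (fun l => by rw [ht]; exact Nat.mul_pos (by positivity) (ha1 l)) hst q hy'pos hrel hδ hBB
    refine ⟨f', hf', ?_⟩
    have h3 : Psi ω q y' (xs (sg g) t f') * V2 (xs (sg g) (fun l => 2 ^ (j + 1) * a l) f) univ ≤
        (Real.exp (8 / y0) * (2 * Real.exp B) ^ (k + 1) * Ci * V2 (xs (sg g) t f') univ) *
          V2 (xs (sg g) (fun l => 2 ^ (j + 1) * a l) f) univ := by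
      calc Psi ω q y' (xs (sg g) t f') * V2 (xs (sg g) (fun l => 2 ^ (j + 1) * a l) f) univ
          ≤ (2 * Real.exp B) * Psi ω q yy (xs (sg g) (fun l => 2 ^ (j + 1) * a l) f) *
              V2 (xs (sg g) t f') univ := hle'
        _ ≤ (2 * Real.exp B) * (Real.exp (8 / y0) * (2 * Real.exp B) ^ k * Ci *
              V2 (xs (sg g) (fun l => 2 ^ (j + 1) * a l) f) univ) *
              V2 (xs (sg g) t f') univ := by gcongr
        _ = _ := by ring
    exact le_of_mul_le_mul_right h3 hf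

/-- The numerical part of the end of the chain. -/
theorem chain_final_num {n q N : ℕ} {D L y1 : ℝ} (hn : 100 ≤ n) (hL : 1 ≤ L) (hD0 : 0 < D)
    (hD1 : (n : ℝ) ≤ 8 * D ^ 2) (hDn : D ≤ n) (hq1 : 100 * D * Real.sqrt L * Real.log n ≤ q)
    (hq2 : 2 * q ≤ n) (hN : 2 ^ N ≤ 2 * n) (hy1 : n / (4 * D ^ 2) ≤ y1)
    (h : (q.factorial : ℝ) * y1 ^ q * (n.choose q) ≤
      (3 * (q : ℝ)) ^ q * (Real.exp (16 * D ^ 2 / n) * (2 * Real.exp (40 * D * Real.sqrt L)) ^ N *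
        (2 * (1 / 2) ^ q))) : (n : ℝ) ^ 2 ≤ 200 * D ^ 2 * q := by
  have hn1 : (100 : ℝ) ≤ n := by exact_mod_cast hn
  have hn0 : (0 : ℝ) < n := by linarith
  have hlog : 4 ≤ Real.log n := by
    rw [Real.le_log_iff_exp_le hn0]
    have h1 : Real.exp 4 = Real.exp 1 ^ 4 := by
      rw [← Real.exp_nat_mul]; norm_num
    rw [h1]
    have h2 := Real.exp_one_lt_d9
    have h3 : Real.exp 1 ^ 4 ≤ 2.7182818286 ^ 4 := by
      gcongr
    norm_num at h3
    linarith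
  have hD2 : 3.5 ≤ D := by
    by_contra hcon
    push Not at hcon
    have : D ^ 2 < 3.5 ^ 2 := by
      gcongr
    norm_num at this
    linarith
  have hsL : 1 ≤ Real.sqrt L := by
    rw [Real.one_le_sqrt]; exact hL
  have hNlog : (N : ℝ) ≤ 1.7 * Real.log n := by
    have h1 : (2 : ℝ) ^ N ≤ 2 * n := by exact_mod_cast hN
    have h2 := Real.log_le_log (by positivity) h1
    rw [Real.log_pow, Real.log_mul (by norm_num) (by positivity)] at h2
    have h3 := Real.log_two_gt_d9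
    have h4 := Real.log_two_lt_d9
    have h5 : (N : ℝ) * 0.6931471803 ≤ N * Real.log 2 :=
      mul_le_mul_of_nonneg_left h3.le (Nat.cast_nonneg _)
    linarith
  have hN0 : (0 : ℝ) ≤ N := Nat.cast_nonneg _
  set w := D * Real.sqrt L with hw
  have hDw : D ≤ w := by
    rw [hw]; exact le_mul_of_one_le_right hD0.le hsL
  have hw0 : 0 < w := lt_of_lt_of_le hD0 hDw
  have hwq : 100 * w * Real.log n ≤ q := by
    calc 100 * w * Real.log n = 100 * D * Real.sqrt L * Real.log n := by rw [hw]; ring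
      _ ≤ q := hq1
  have hq0 : (0 : ℝ) < q := lt_of_lt_of_le (by positivity) hwq
  have hqpos : 0 < q := by exact_mod_cast hq0
  have hloss : 16 * D ^ 2 / n + N * (Real.log 2 + 40 * D * Real.sqrt L) ≤ q := by
    have h1 : 16 * D ^ 2 / n ≤ 16 * w := by
      rw [div_le_iff₀ hn0]
      calc 16 * D ^ 2 = 16 * D * D := by ring
        _ ≤ 16 * w * n := by gcongr
    have h2 : Real.log 2 ≤ 0.2 * w := by
      have := Real.log_two_lt_d9
      linarith
    have h3 : (N : ℝ) * (Real.log 2 + 40 * D * Real.sqrt L) ≤ (1.7 * Real.log n) * (40.2 * w) := by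
      calc (N : ℝ) * (Real.log 2 + 40 * D * Real.sqrt L)
          ≤ (1.7 * Real.log n) * (0.2 * w + 40 * w) := by
            rw [hw, mul_assoc 40]
            rw [hw] at h2
            gcongr
        _ = _ := by ring
    have h4 : 16 * w ≤ 4 * w * Real.log n := by nlinarith
    have h5 : (1.7 * Real.log n) * (40.2 * w) = 68.34 * w * Real.log n := by ring
    have h6 : 0 ≤ w * Real.log n := by positivity
    nlinarith
  have he : Real.exp (16 * D ^ 2 / n) * (2 * Real.exp (40 * D * Real.sqrt L)) ^ N ≤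
      Real.exp 1 ^ q := by
    have h1 : (2 * Real.exp (40 * D * Real.sqrt L)) ^ N =
        Real.exp (N * (Real.log 2 + 40 * D * Real.sqrt L)) := by
      rw [Real.exp_nat_mul, Real.exp_add, Real.exp_log (by norm_num)]
    rw [h1, ← Real.exp_add, ← Real.exp_nat_mul, mul_one, Real.exp_le_exp]
    exact hloss
  have hd : ((n : ℝ) / 2) ^ q ≤ (q.factorial : ℝ) * (n.choose q) := by
    have h1 : (n + 1 - q) ^ q ≤ q.factorial * n.choose q := by
      rw [← Nat.descFactorial_eq_factorial_mul_choose]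
      exact Nat.pow_sub_le_descFactorial n q
    have h2 : ((n : ℝ) / 2) ≤ ((n + 1 - q : ℕ) : ℝ) := by
      rw [Nat.cast_sub (by omega)]
      push_cast
      have : (2 : ℝ) * q ≤ n := by exact_mod_cast hq2
      linarith
    calc ((n : ℝ) / 2) ^ q ≤ ((n + 1 - q : ℕ) : ℝ) ^ q := by gcongr
      _ ≤ _ := by exact_mod_cast h1
  have hmain : ((n : ℝ) / 2 * (n / (4 * D ^ 2))) ^ q ≤ (3 * Real.exp 1 * q) ^ q := by
    calc ((n : ℝ) / 2 * (n / (4 * D ^ 2))) ^ q = ((n : ℝ) / 2) ^ q * (n / (4 * D ^ 2)) ^ q := by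
          rw [mul_pow]
      _ ≤ ((q.factorial : ℝ) * (n.choose q)) * y1 ^ q := by gcongr
      _ = (q.factorial : ℝ) * y1 ^ q * (n.choose q) := by ring
      _ ≤ _ := h
      _ ≤ (3 * (q : ℝ)) ^ q * (Real.exp 1 ^ q * (2 * (1 / 2) ^ q)) := by gcongr
      _ ≤ (3 * (q : ℝ)) ^ q * (Real.exp 1 ^ q * (2 ^ q * (1 / 2) ^ q)) := by
          gcongr
          calc (2 : ℝ) = 2 ^ 1 := by norm_num
            _ ≤ 2 ^ q := pow_le_pow_right₀ (by norm_num) hqpos
      _ = (3 * Real.exp 1 * q) ^ q := by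
          rw [← mul_pow, ← mul_pow, ← mul_pow]
          congr 1
          ring
  have h7 : (n : ℝ) / 2 * (n / (4 * D ^ 2)) ≤ 3 * Real.exp 1 * q :=
    (pow_le_pow_iff_left₀ (by positivity) (by positivity) hqpos.ne').1 hmain
  have h8 : (n : ℝ) / 2 * (n / (4 * D ^ 2)) = (n : ℝ) ^ 2 / (8 * D ^ 2) := by
    field_simp
    norm_num
  rw [h8, div_le_iff₀ (by positivity)] at h7
  have h9 := Real.exp_one_lt_d9
  have h10 : 0 < (q : ℝ) * D ^ 2 := by positivity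
  nlinarith

theorem chain {n m : ℕ} (hn : 100 ≤ n) (g : Fin m → E n) (h0 : ∀ j, ‖g j‖ ^ 2 ≤ 8 * n) {L : ℝ} (hL : 1 ≤ L)
    {T : ℕ} (hT : n ^ 5 ≤ T) (h2 : R2 g T L)
    (α : Fin n → Fin m × Bool → ℝ) (hα0 : ∀ l k, 0 ≤ α l k) (hα : ∀ l, ∑ k, α l k = 1)
    (y : Fin n → E n) (hy : ∀ i j, ⟪cc (sg g) α i, y j⟫ = if i = j then (1 : ℝ) else 0)
    {D : ℝ} (hD : D = ∑ i, ‖y i‖) (hDn : D ≤ n)
    (q : ℕ) (hq1 : 100 * D * Real.sqrt L * Real.log n ≤ q) (hq2 : 2 * q ≤ n) :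
    (n : ℝ) ^ 2 ≤ 200 * D ^ 2 * q := by
  have hn0 : 0 < n := by omega
  have hn1 : (100 : ℝ) ≤ n := by exact_mod_cast hn
  have hnp : (0 : ℝ) < n := by linarith
  obtain ⟨hω, hsum, hD0, hinit⟩ := Psi_init hn0 (cc (sg g) α) y hy D hD
    (fun i => n * ‖y i‖ / D) (fun i => rfl) q
  set ω : Fin n → ℝ := fun i => n * ‖y i‖ / D with hωdef
  have hpos : 0 < V2 (cc (sg g) α) univ := (V2_compl_le (cc (sg g) α) y hy ∅).1
  have hD1 := le_D_sq hn0 g h0 hα0 hα y hy hD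
  have hlog : 1 ≤ Real.log n := by
    rw [Real.le_log_iff_exp_le hnp]
    have := Real.exp_one_lt_d9
    linarith
  have hsL : 1 ≤ Real.sqrt L := by
    rw [Real.one_le_sqrt]; exact hL
  have hL0 : 0 ≤ L := by linarith
  have hq0 : (0 : ℝ) < q := lt_of_lt_of_le (by positivity) hq1
  have hqpos : 0 < q := by exact_mod_cast hq0
  set sf : ℝ := 1 + 50 * D ^ 2 / n with hsf
  have hsf1 : 1 ≤ sf := by
    rw [hsf]
    have : 0 ≤ 50 * D ^ 2 / n := by positivity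
    linarith
  have hsf0 : 0 < sf := by linarith
  have hsfn : sf * n = n + 50 * D ^ 2 := by
    rw [hsf]; field_simp
  set a : Fin n → ℕ := fun l => ⌈sf * ω l⌉₊ with ha
  have ha1 : ∀ l, 1 ≤ a l := fun l => Nat.ceil_pos.2 (mul_pos hsf0 (hω l))
  have has : ∀ l, sf * ω l ≤ a l := fun l => Nat.le_ceil _
  have hau : ∀ l, (a l : ℝ) ≤ sf * ω l + 1 := fun l =>
    (Nat.ceil_lt_add_one (mul_pos hsf0 (hω l)).le).le
  have hasum1 : (∑ l, (a l : ℝ)) ≤ sf * n + n := by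
    calc (∑ l, (a l : ℝ)) ≤ ∑ l, (sf * ω l + 1) := Finset.sum_le_sum fun l _ => hau l
      _ = sf * n + n := by
          rw [Finset.sum_add_distrib, ← Finset.mul_sum, hsum]
          simp
  have hasum : (∑ l, (a l : ℝ)) ≤ 2 * sf * n := by
    have : (n : ℝ) ≤ sf * n := le_mul_of_one_le_left hnp.le hsf1
    linarith
  set N := Nat.clog 2 n with hNdef
  have hN1 : n ≤ 2 ^ N := Nat.le_pow_clog (by norm_num) n
  have hN2 : 2 ^ N ≤ 2 * n := by
    have h1 : 2 ^ (N - 1) < n := Nat.pow_pred_clog_lt_self (by norm_num) (by omega)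
    have h2 : 0 < N := Nat.clog_pos (by norm_num) (by omega)
    have h3 : 2 ^ N = 2 * 2 ^ (N - 1) := by
      rw [← pow_succ', Nat.sub_add_cancel h2]
    omega
  have hT' : ∀ l, 2 ^ N * a l ≤ T := by
    intro l
    refine le_trans ?_ hT
    have h1 : (a l : ℝ) ≤ 51 * n ^ 2 := by
      have h2 : (a l : ℝ) ≤ ∑ l, (a l : ℝ) :=
        Finset.single_le_sum (f := fun l => (a l : ℝ)) (fun _ _ => Nat.cast_nonneg _)
          (Finset.mem_univ l)
      have h3 : D ^ 2 ≤ n ^ 2 := by gcongr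
      nlinarith
    have h2 : a l ≤ 51 * n ^ 2 := by exact_mod_cast h1
    calc 2 ^ N * a l ≤ (2 * n) * (51 * n ^ 2) := Nat.mul_le_mul hN2 h2
      _ = 102 * n ^ 3 := by ring
      _ ≤ n ^ 2 * n ^ 3 := by
          refine Nat.mul_le_mul_right _ ?_
          nlinarith
      _ = n ^ 5 := by ring
  set y0 : ℝ := n / (2 * D ^ 2) with hy0def
  have hy0 : 0 < y0 := by positivity
  have hc0 : 16 / (sf * y0) ≤ 32 * D ^ 2 / (n + 50 * D ^ 2) := by
    rw [← hsfn, hy0def]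
    apply le_of_eq
    field_simp
    norm_num
  have hc1 : 32 * D ^ 2 / (n + 50 * D ^ 2) ≤ Real.log 2 := by
    have h3 := Real.log_two_gt_d9
    rw [div_le_iff₀ (by positivity)]
    have h5 : 0 < D ^ 2 := by positivity
    nlinarith
  have hB : 2 * Real.sqrt (192 * n * L / y0) ≤ 40 * D * Real.sqrt L := by
    have h1 : 192 * n * L / y0 = 384 * (D ^ 2 * L) := by
      rw [hy0def]; field_simp; ring
    have h2 : Real.sqrt (192 * n * L / y0) ≤ 20 * D * Real.sqrt L := by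
      rw [h1]
      refine Real.sqrt_le_iff.2 ⟨by positivity, ?_⟩
      rw [mul_pow, mul_pow, Real.sq_sqrt hL0]
      have : 0 ≤ D ^ 2 * L := by positivity
      nlinarith
    linarith
  have hPw : 0 < ∏ l, ω l := Finset.prod_pos fun l _ => hω l
  have hCi : 0 ≤ 2 * (1 / 2 : ℝ) ^ q * ∏ l, ω l := by positivity
  obtain ⟨f, hf, hle⟩ := chain_down hn0 g h0 hL0 h2 hα0 hα hpos hω q hsf1 hy0 hc0 hc1 hB hCi a
    ha1 has hasum N hN1 hT' hinit N le_rfl a (by simp)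
  rw [Nat.sub_self, pow_zero, inv_one] at hle
  set y1 := y0 * Real.exp (-(32 * D ^ 2 / (n + 50 * D ^ 2) * (1 - ((2 : ℝ) ^ N)⁻¹))) with hy1def
  have hy1 : n / (4 * D ^ 2) ≤ y1 := by
    have h2N0 : (0 : ℝ) < ((2 : ℝ) ^ N)⁻¹ := by positivity
    have : Real.exp (-Real.log 2) ≤
        Real.exp (-(32 * D ^ 2 / (n + 50 * D ^ 2) * (1 - ((2 : ℝ) ^ N)⁻¹))) := by
      rw [Real.exp_le_exp]
      have : 32 * D ^ 2 / (n + 50 * D ^ 2) * (1 - ((2 : ℝ) ^ N)⁻¹) ≤
          32 * D ^ 2 / (n + 50 * D ^ 2) * 1 :=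
        mul_le_mul_of_nonneg_left (by linarith) (by positivity)
      linarith
    rw [Real.exp_neg, Real.exp_log (by norm_num)] at this
    calc n / (4 * D ^ 2) = y0 * 2⁻¹ := by rw [hy0def]; field_simp; norm_num
      _ ≤ _ := mul_le_mul_of_nonneg_left this hy0.le
  have hy1p : 0 < y1 := lt_of_lt_of_le (by positivity) hy1
  have haT : ∀ l, 1 ≤ a l ∧ a l ≤ T := fun l => ⟨ha1 l, le_trans (Nat.le_mul_of_pos_left _
    (by positivity)) (hT' l)⟩
  have hτ : 12 * (∑ l, (a l : ℝ)) * L ≤ (q : ℝ) ^ 2 := by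
    have h1 : (∑ l, (a l : ℝ)) ≤ 66 * D ^ 2 := by
      rw [hsfn] at hasum1
      linarith
    have h3 : 100 * D * Real.sqrt L ≤ q := by
      refine le_trans ?_ hq1
      exact le_mul_of_one_le_right (by positivity) hlog
    have h4 : (100 * D * Real.sqrt L) ^ 2 ≤ (q : ℝ) ^ 2 := by gcongr
    rw [mul_pow, Real.sq_sqrt hL0] at h4
    calc 12 * (∑ l, (a l : ℝ)) * L ≤ 12 * (66 * D ^ 2) * L := by gcongr
      _ ≤ (100 * D) ^ 2 * L := by
          have : 0 ≤ D ^ 2 * L := by positivity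
          nlinarith
      _ ≤ _ := h4
  have hlow := Psi_lower hω hsum q (by omega) (xs (sg g) a f) (M := 3 * (q : ℝ)) (by positivity)
    (fun I hI => chain_end g h2 a haT f q hqpos hL0 hτ I hI) hy1p
  refine chain_final_num hn hL hD0 hD1 hDn hq1 hq2 hN2 hy1 ?_
  have hV := mul_pos hPw hf
  refine le_of_mul_le_mul_right ?_ hV
  calc (q.factorial : ℝ) * y1 ^ q * (n.choose q) * ((∏ l, ω l) * V2 (xs (sg g) a f) univ)
      = (q.factorial : ℝ) * y1 ^ q * (n.choose q) * (∏ l, ω l) * V2 (xs (sg g) a f) univ := by ring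
    _ ≤ (3 * (q : ℝ)) ^ q * Psi ω q y1 (xs (sg g) a f) := hlow
    _ ≤ (3 * (q : ℝ)) ^ q * (Real.exp (8 / y0) * (2 * Real.exp (40 * D * Real.sqrt L)) ^ N *
          (2 * (1 / 2) ^ q * ∏ l, ω l) * V2 (xs (sg g) a f) univ) := by gcongr
    _ = _ := by
        have : (8 : ℝ) / y0 = 16 * D ^ 2 / n := by
          rw [hy0def]; field_simp; norm_num
        rw [this]; ring

end Pool.Agent.LB
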