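import Pool.Agent.Helper91.LB.C

/-!
LB-D. One sparsification step (uses LB-C as black box).

Write `x = cc v α`, `X f = xs v t f`, `W f = wt α t f`.
(1) `∑_f W f Psi ω q y' (X f) ≤ A * Psi ω q y x`: by `exp_upper` and `hG` (with `I \ K`, `K`; trivial for
`K = ∅`; the average over `φ` of a constant bound, `sum_prod_eq_one`) the left side is at most
`∑_{I, |I|+q≤n} ∑_{K ⊆ I} (n-|I|)! y'^(n-|I|) ω^(I\K) (∏_K ω/t) V2 x (I\K) G(n-|I\K|, |K|)^|K|`, and
`ω l / t l ≤ 1/s`. Put `J = I \ K`, `h = n - |J|`, `r = |K|`: for fixed `J` (with `h ≥ q`) there are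
`h.choose r` sets `K ⊆ Jᶜ` with `r` elements, `r ≤ h - q`, and `(h.choose r) (h-r)! = h!/r!`, so the
sum is `∑_J ω^J V2 x J h! y'^h ∑_{r ≤ h-q} (G h r/(s y'))^r / r! ≤ ∑_J ω^J V2 x J h! A y^h` by `hnum`.
(2) `∑_f W f V2 (X f) univ ≥ V2 x univ > 0` (`exp_lower`). Note `A * Psi ω q y x ≥ 0` because
`A y^h ≥ 0` for `q ≤ h ≤ n` by `hnum`.
(3) So `∑_f W f (A * Psi ω q y x * V2 (X f) univ - Psi ω q y' (X f) * V2 x univ) ≥ 0`. If all `f` with
`V2 (X f) univ > 0` had a negative bracket, then (brackets with `V2 (X f) univ = 0` are `≤ 0`, and some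
`f` has `W f > 0`, `V2 (X f) univ > 0` by (2)) the sum would be negative.
-/

namespace Pool.Agent.LB

open Finset MeasureTheory ProbabilityTheory
open scoped RealInnerProductSpace

section
variable {n : ℕ} {κ : Type} [Fintype κ]

/-- Reindexing pairs `K ⊆ I` as disjoint pairs `J = I \ K`, `K`. -/
theorem step_reindex (q : ℕ) (F : Finset (Fin n) → Finset (Fin n) → ℝ) :
    ∑ I ∈ (univ : Finset (Finset (Fin n))).filter (fun I => I.card + q ≤ n),
        ∑ K ∈ I.powerset, F (I \ K) K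
      = ∑ J ∈ (univ : Finset (Finset (Fin n))).filter (fun I => I.card + q ≤ n),
          ∑ K ∈ (Jᶜ).powerset.filter (fun K => J.card + K.card + q ≤ n), F J K := by
  classical
  rw [Finset.sum_sigma', Finset.sum_sigma']
  refine Finset.sum_nbij' (fun p => ⟨p.1 \ p.2, p.2⟩) (fun p => ⟨p.1 ∪ p.2, p.2⟩) ?_ ?_ ?_ ?_ ?_
  · rintro ⟨I, K⟩ h
    simp only [mem_sigma, mem_filter, mem_univ, true_and, mem_powerset] at h ⊢
    obtain ⟨h1, h2⟩ := h
    have h3 : (I \ K).card + K.card = I.card := card_sdiff_add_card_eq_card h2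
    refine ⟨by omega, ?_, by omega⟩
    intro a ha
    simp [ha]
  · rintro ⟨J, K⟩ h
    simp only [mem_sigma, mem_filter, mem_univ, true_and, mem_powerset] at h ⊢
    obtain ⟨h1, h2, h3⟩ := h
    have hd : Disjoint J K := by
      rw [Finset.disjoint_left]
      intro a ha hb
      exact (mem_compl.1 (h2 hb)) ha
    rw [card_union_of_disjoint hd]
    exact ⟨h3, subset_union_right⟩
  · rintro ⟨I, K⟩ h
    simp only [mem_sigma, mem_filter, mem_univ, true_and, mem_powerset] at h
    obtain ⟨h1, h2⟩ := h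
    simp only [sdiff_union_of_subset h2]
  · rintro ⟨J, K⟩ h
    simp only [mem_sigma, mem_filter, mem_univ, true_and, mem_powerset] at h
    obtain ⟨h1, h2, h3⟩ := h
    have hd : Disjoint J K := by
      rw [Finset.disjoint_left]
      intro a ha hb
      exact (mem_compl.1 (h2 hb)) ha
    simp only [Finset.union_sdiff_cancel_right hd]
  · rintro ⟨I, K⟩ h
    rfl

/-- The inner sum over `K ⊆ Jᶜ`. -/
theorem step_inner (J : Finset (Fin n)) {q : ℕ} (hJ : J.card + q ≤ n) {y' s : ℝ} (hy' : 0 < y')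
    (hs : 0 < s) (g : ℕ → ℝ) :
    ∑ K ∈ (Jᶜ).powerset.filter (fun K => J.card + K.card + q ≤ n),
        ((n - (J.card + K.card)).factorial : ℝ) * y' ^ (n - (J.card + K.card)) *
          (g K.card / s) ^ K.card
      = ((n - J.card).factorial : ℝ) * (y' ^ (n - J.card) *
          ∑ r ∈ range (n - J.card - q + 1), (g r / (s * y')) ^ r / (r.factorial : ℝ)) := by
  classical
  rw [Finset.sum_filter]
  have h1 := Finset.sum_powerset_apply_card (x := Jᶜ) (fun r => if J.card + r + q ≤ n then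
    ((n - (J.card + r)).factorial : ℝ) * y' ^ (n - (J.card + r)) * (g r / s) ^ r else 0)
  rw [h1]
  have hcard : (Jᶜ).card = n - J.card := by
    rw [card_compl, Fintype.card_fin]
  rw [hcard]
  set h := n - J.card with hh
  rw [mul_sum, mul_sum]
  have hsub : range (h - q + 1) ⊆ range (h + 1) := by
    apply range_subset_range.2; omega
  rw [← Finset.sum_subset hsub]
  · apply Finset.sum_congr rfl
    intro r hr
    rw [mem_range] at hr
    have hr1 : J.card + r + q ≤ n := by omega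
    rw [if_pos hr1]
    have hr2 : n - (J.card + r) = h - r := by omega
    rw [hr2]
    have hr3 : r ≤ h := by omega
    have hfac : ((h.choose r : ℕ) : ℝ) * ((h - r).factorial : ℝ) = (h.factorial : ℝ) / (r.factorial : ℝ) := by
      rw [eq_div_iff (by exact_mod_cast (Nat.factorial_pos r).ne')]
      have := Nat.choose_mul_factorial_mul_factorial hr3
      have h4 : ((h.choose r * r.factorial * (h - r).factorial : ℕ) : ℝ) = (h.factorial : ℝ) := by
        rw [this]
      push_cast at h4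
      linarith
    have hpow : y' ^ h = y' ^ (h - r) * y' ^ r := by
      rw [← pow_add]; congr 1; omega
    rw [nsmul_eq_mul, hpow, div_pow, div_pow, mul_pow]
    have hy'r : y' ^ r ≠ 0 := (pow_pos hy' r).ne'
    have hsr : s ^ r ≠ 0 := (pow_pos hs r).ne'
    calc ((h.choose r : ℕ) : ℝ) * (((h - r).factorial : ℝ) * y' ^ (h - r) * (g r ^ r / s ^ r))
        = (((h.choose r : ℕ) : ℝ) * ((h - r).factorial : ℝ)) * (y' ^ (h - r) * (g r ^ r / s ^ r)) := by ring
      _ = (h.factorial : ℝ) / (r.factorial : ℝ) * (y' ^ (h - r) * (g r ^ r / s ^ r)) := by rw [hfac]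
      _ = _ := by field_simp
  · intro r hr hr'
    rw [mem_range] at hr hr'
    rw [if_neg (by omega), smul_zero]

theorem step_Psi_nonneg {ω : Fin n → ℝ} (hω : ∀ l, 0 < ω l) (q : ℕ) {y : ℝ} (hy : 0 < y)
    (x : Fin n → E n) : 0 ≤ Psi ω q y x := by
  unfold Psi
  apply Finset.sum_nonneg
  intro I _
  have h1 : 0 ≤ ∏ l ∈ I, ω l := Finset.prod_nonneg (fun l _ => (hω l).le)
  have h2 := V2_nonneg x I
  positivity

/-- The expectation bound for the potential. -/
theorem step_exp (v : κ → E n) {α : Fin n → κ → ℝ} (hα0 : ∀ l k, 0 ≤ α l k)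
    (hα : ∀ l, ∑ k, α l k = 1)
    {ω : Fin n → ℝ} (hω : ∀ l, 0 < ω l) {s : ℝ} (hs : 0 < s)
    (t : Fin n → ℕ) (ht : ∀ l, 1 ≤ t l) (hst : ∀ l, s * ω l ≤ t l)
    (q : ℕ) {y y' A : ℝ} (hy' : 0 < y') (G : ℕ → ℕ → ℝ) (hG0 : ∀ h r, 0 ≤ G h r)
    (hG : ∀ (I K : Finset (Fin n)) (φ : Fin n → κ), Disjoint I K → K.Nonempty →
      V2 (K.piecewise (v ∘ φ) (cc v α)) (I ∪ K) ≤
        V2 (cc v α) I * (G (n - I.card) K.card) ^ K.card)
    (hnum : ∀ h, q ≤ h → h ≤ n →
      y' ^ h * ∑ r ∈ range (h - q + 1), (G h r / (s * y')) ^ r / (r.factorial : ℝ) ≤ A * y ^ h) :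
    ∑ f : (∀ l, Fin (t l) → κ), wt α t f * Psi ω q y' (xs v t f) ≤ A * Psi ω q y (cc v α) := by
  classical
  have step1 : ∑ f : (∀ l, Fin (t l) → κ), wt α t f * Psi ω q y' (xs v t f)
      = ∑ I ∈ (univ : Finset (Finset (Fin n))).filter (fun I => I.card + q ≤ n),
        (((n - I.card).factorial : ℝ) * y' ^ (n - I.card) * (∏ l ∈ I, ω l)) *
          ∑ f : (∀ l, Fin (t l) → κ), wt α t f * V2 (xs v t f) I := by
    unfold Psi
    simp_rw [mul_sum]
    rw [Finset.sum_comm]
    apply Finset.sum_congr rfl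
    intro I _
    apply Finset.sum_congr rfl
    intro f _
    ring
  rw [step1]
  have hφ1 : ∑ φ : Fin n → κ, (∏ l, α l (φ l)) = 1 := sum_prod_eq_one α hα
  have step2 : ∀ I ∈ (univ : Finset (Finset (Fin n))).filter (fun I => I.card + q ≤ n),
      (((n - I.card).factorial : ℝ) * y' ^ (n - I.card) * (∏ l ∈ I, ω l)) *
          ∑ f : (∀ l, Fin (t l) → κ), wt α t f * V2 (xs v t f) I ≤
      ∑ K ∈ I.powerset, (fun J K : Finset (Fin n) => ((n - (J.card + K.card)).factorial : ℝ) *
        y' ^ (n - (J.card + K.card)) *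
          (G (n - J.card) K.card / s) ^ K.card * ((∏ l ∈ J, ω l) * V2 (cc v α) J)) (I \ K) K := by
    intro I hI
    rw [mem_filter] at hI
    have hω0 : 0 ≤ ∏ l ∈ I, ω l := Finset.prod_nonneg (fun l _ => (hω l).le)
    have hc0 : 0 ≤ (((n - I.card).factorial : ℝ) * y' ^ (n - I.card) * (∏ l ∈ I, ω l)) := by
      positivity
    refine (mul_le_mul_of_nonneg_left (exp_upper v hα0 hα t ht I) hc0).trans ?_
    rw [mul_sum]
    apply Finset.sum_le_sum
    intro K hK
    rw [mem_powerset] at hK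
    have hcard : (I \ K).card + K.card = I.card := card_sdiff_add_card_eq_card hK
    simp only
    rw [hcard]
    -- bound of the average
    have hb : ∑ φ : Fin n → κ, (∏ l, α l (φ l)) * V2 (K.piecewise (v ∘ φ) (cc v α)) I ≤
        V2 (cc v α) (I \ K) * (G (n - (I \ K).card) K.card) ^ K.card := by
      have hb1 : ∀ φ : Fin n → κ, V2 (K.piecewise (v ∘ φ) (cc v α)) I ≤
          V2 (cc v α) (I \ K) * (G (n - (I \ K).card) K.card) ^ K.card := by
        intro φ
        rcases K.eq_empty_or_nonempty with h0 | h0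
        · subst h0
          simp
        · have := hG (I \ K) K φ sdiff_disjoint h0
          rwa [sdiff_union_of_subset hK] at this
      calc ∑ φ : Fin n → κ, (∏ l, α l (φ l)) * V2 (K.piecewise (v ∘ φ) (cc v α)) I
          ≤ ∑ φ : Fin n → κ, (∏ l, α l (φ l)) *
            (V2 (cc v α) (I \ K) * (G (n - (I \ K).card) K.card) ^ K.card) := by
            apply Finset.sum_le_sum
            intro φ _
            exact mul_le_mul_of_nonneg_left (hb1 φ)
              (Finset.prod_nonneg (fun l _ => hα0 l (φ l)))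
        _ = _ := by rw [← Finset.sum_mul, hφ1, one_mul]
    have hprod : (∏ l ∈ I, ω l) * ∏ l ∈ K, (t l : ℝ)⁻¹ ≤ (∏ l ∈ I \ K, ω l) * (1 / s) ^ K.card := by
      have h1 : ∏ l ∈ I, ω l = (∏ l ∈ I \ K, ω l) * ∏ l ∈ K, ω l := by
        rw [Finset.prod_sdiff hK]
      rw [h1, mul_assoc, ← Finset.prod_mul_distrib]
      apply mul_le_mul_of_nonneg_left _ (Finset.prod_nonneg (fun l _ => (hω l).le))
      rw [← Finset.prod_const]
      apply Finset.prod_le_prod
      · intro l _
        have := (hω l).le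
        positivity
      · intro l _
        have htl : (0 : ℝ) < t l := by exact_mod_cast ht l
        rw [← div_eq_mul_inv, div_le_div_iff₀ htl hs]
        linarith [hst l]
    have hV0 := V2_nonneg (cc v α) (I \ K)
    have hGp : 0 ≤ (G (n - (I \ K).card) K.card) ^ K.card := pow_nonneg (hG0 _ _) _
    have htp : 0 ≤ ∏ l ∈ K, (t l : ℝ)⁻¹ := Finset.prod_nonneg (fun l _ => by positivity)
    calc (((n - I.card).factorial : ℝ) * y' ^ (n - I.card) * (∏ l ∈ I, ω l)) *
          ((∏ l ∈ K, (t l : ℝ)⁻¹) *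
            ∑ φ : Fin n → κ, (∏ l, α l (φ l)) * V2 (K.piecewise (v ∘ φ) (cc v α)) I)
        ≤ (((n - I.card).factorial : ℝ) * y' ^ (n - I.card) * (∏ l ∈ I, ω l)) *
          ((∏ l ∈ K, (t l : ℝ)⁻¹) *
            (V2 (cc v α) (I \ K) * (G (n - (I \ K).card) K.card) ^ K.card)) := by
          exact mul_le_mul_of_nonneg_left (mul_le_mul_of_nonneg_left hb htp) hc0
      _ = (((n - I.card).factorial : ℝ) * y' ^ (n - I.card)) *
            (((∏ l ∈ I, ω l) * ∏ l ∈ K, (t l : ℝ)⁻¹) *
            (V2 (cc v α) (I \ K) * (G (n - (I \ K).card) K.card) ^ K.card)) := by ring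
      _ ≤ (((n - I.card).factorial : ℝ) * y' ^ (n - I.card)) *
            (((∏ l ∈ I \ K, ω l) * (1 / s) ^ K.card) *
            (V2 (cc v α) (I \ K) * (G (n - (I \ K).card) K.card) ^ K.card)) := by
          apply mul_le_mul_of_nonneg_left _ (by positivity)
          exact mul_le_mul_of_nonneg_right hprod (mul_nonneg hV0 hGp)
      _ = _ := by
          rw [div_pow, div_pow, one_pow]
          ring
  refine (Finset.sum_le_sum step2).trans ?_
  rw [step_reindex q (fun J K : Finset (Fin n) => ((n - (J.card + K.card)).factorial : ℝ) *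
        y' ^ (n - (J.card + K.card)) *
          (G (n - J.card) K.card / s) ^ K.card * ((∏ l ∈ J, ω l) * V2 (cc v α) J))]
  unfold Psi
  rw [mul_sum]
  apply Finset.sum_le_sum
  intro J hJ
  rw [mem_filter] at hJ
  rw [← Finset.sum_mul, step_inner J hJ.2 hy' hs (fun r => G (n - J.card) r)]
  have hω0 : 0 ≤ ∏ l ∈ J, ω l := Finset.prod_nonneg (fun l _ => (hω l).le)
  have hV0 := V2_nonneg (cc v α) J
  have hn := hnum (n - J.card) (by omega) (by omega)
  have hf : (0 : ℝ) ≤ ((n - J.card).factorial : ℝ) := by positivity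
  calc ((n - J.card).factorial : ℝ) * (y' ^ (n - J.card) *
          ∑ r ∈ range (n - J.card - q + 1), (G (n - J.card) r / (s * y')) ^ r / (r.factorial : ℝ)) *
          ((∏ l ∈ J, ω l) * V2 (cc v α) J)
      ≤ ((n - J.card).factorial : ℝ) * (A * y ^ (n - J.card)) *
          ((∏ l ∈ J, ω l) * V2 (cc v α) J) := by
        apply mul_le_mul_of_nonneg_right _ (mul_nonneg hω0 hV0)
        exact mul_le_mul_of_nonneg_left hn hf
    _ = _ := by ring

/-- One sparsification step. -/
theorem step (v : κ → E n) {α : Fin n → κ → ℝ} (hα0 : ∀ l k, 0 ≤ α l k)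
    (hα : ∀ l, ∑ k, α l k = 1) (hpos : 0 < V2 (cc v α) univ)
    {ω : Fin n → ℝ} (hω : ∀ l, 0 < ω l) {s : ℝ} (hs : 0 < s)
    (t : Fin n → ℕ) (ht : ∀ l, 1 ≤ t l) (hst : ∀ l, s * ω l ≤ t l)
    (q : ℕ) {y y' A : ℝ} (hy' : 0 < y') (G : ℕ → ℕ → ℝ) (hG0 : ∀ h r, 0 ≤ G h r)
    (hG : ∀ (I K : Finset (Fin n)) (φ : Fin n → κ), Disjoint I K → K.Nonempty →
      V2 (K.piecewise (v ∘ φ) (cc v α)) (I ∪ K) ≤
        V2 (cc v α) I * (G (n - I.card) K.card) ^ K.card)
    (hnum : ∀ h, q ≤ h → h ≤ n →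
      y' ^ h * ∑ r ∈ range (h - q + 1), (G h r / (s * y')) ^ r / (r.factorial : ℝ) ≤ A * y ^ h) :
    ∃ f : (∀ l, Fin (t l) → κ), 0 < V2 (xs v t f) univ ∧
      Psi ω q y' (xs v t f) * V2 (cc v α) univ ≤ A * Psi ω q y (cc v α) * V2 (xs v t f) univ := by
  classical
  have hE := step_exp v hα0 hα hω hs t ht hst q hy' G hG0 hG hnum
  have hL := exp_lower v hα0 hα t ht (univ : Finset (Fin n))
  have hAP : 0 ≤ A * Psi ω q y (cc v α) := by
    have : 0 ≤ ∑ f : (∀ l, Fin (t l) → κ), wt α t f * Psi ω q y' (xs v t f) :=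
      Finset.sum_nonneg (fun f _ => mul_nonneg (wt_nonneg hα0 t f) (step_Psi_nonneg hω q hy' _))
    linarith
  by_contra hcon
  push Not at hcon
  -- some `f` has positive weight and positive volume
  have hex : ∃ f ∈ (univ : Finset (∀ l, Fin (t l) → κ)), 0 < wt α t f * V2 (xs v t f) univ := by
    by_contra hno
    push Not at hno
    have := Finset.sum_nonpos hno
    linarith
  obtain ⟨f0, _, hf0⟩ := hex
  have hw0 : 0 < wt α t f0 := by
    rcases (wt_nonneg hα0 t f0).lt_or_eq with h | h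
    · exact h
    · rw [← h, zero_mul] at hf0
      exact absurd hf0 (lt_irrefl _)
  have hv0 : 0 < V2 (xs v t f0) univ := by
    rcases (V2_nonneg (xs v t f0) univ).lt_or_eq with h | h
    · exact h
    · rw [← h, mul_zero] at hf0
      exact absurd hf0 (lt_irrefl _)
  have hlt : ∑ f : (∀ l, Fin (t l) → κ), wt α t f *
      (A * Psi ω q y (cc v α) * V2 (xs v t f) univ - Psi ω q y' (xs v t f) * V2 (cc v α) univ)
        < ∑ f : (∀ l, Fin (t l) → κ), (0 : ℝ) := by
    apply Finset.sum_lt_sum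
    · intro f _
      rcases (V2_nonneg (xs v t f) univ).lt_or_eq with h | h
      · have := hcon f h
        have hw := wt_nonneg hα0 t f
        nlinarith
      · rw [← h, mul_zero, zero_sub]
        have hw := wt_nonneg hα0 t f
        have hP := step_Psi_nonneg hω q hy' (xs v t f)
        have := mul_nonneg hw (mul_nonneg hP hpos.le)
        linarith
    · refine ⟨f0, mem_univ _, ?_⟩
      have := hcon f0 hv0
      nlinarith
  rw [Finset.sum_const_zero] at hlt
  have heq : ∑ f : (∀ l, Fin (t l) → κ), wt α t f *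
      (A * Psi ω q y (cc v α) * V2 (xs v t f) univ - Psi ω q y' (xs v t f) * V2 (cc v α) univ)
      = A * Psi ω q y (cc v α) * (∑ f : (∀ l, Fin (t l) → κ), wt α t f * V2 (xs v t f) univ)
        - (∑ f : (∀ l, Fin (t l) → κ), wt α t f * Psi ω q y' (xs v t f)) * V2 (cc v α) univ := by
    rw [mul_sum, Finset.sum_mul, ← Finset.sum_sub_distrib]
    apply Finset.sum_congr rfl
    intro f _
    ring
  rw [heq] at hlt
  have h1 : A * Psi ω q y (cc v α) * V2 (cc v α) univ ≤
      A * Psi ω q y (cc v α) * (∑ f : (∀ l, Fin (t l) → κ), wt α t f * V2 (xs v t f) univ) :=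
    mul_le_mul_of_nonneg_left hL hAP
  have h2 : (∑ f : (∀ l, Fin (t l) → κ), wt α t f * Psi ω q y' (xs v t f)) * V2 (cc v α) univ ≤
      A * Psi ω q y (cc v α) * V2 (cc v α) univ := mul_le_mul_of_nonneg_right hE hpos.le
  linarith

end

end Pool.Agent.LB
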