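import Pool.Agent.Helper91.LB.CH

/-!
LB-DM. Asymptotics (elementary real analysis; uses `chain` as black box).
Let `D = ∑ ‖y i‖`, `L = 2 log n`, `c = 1/40` (say) and suppose `D < c n^(2/3)/√(log n)`. Then `D ≤ n`,
`q = ⌈100 D √L log n⌉` satisfies `2 q ≤ n` for all large `n` (because `100 D √L log n ≤ 142 c n^(2/3) log n`),
and `q ≤ 143 D (log n)^(3/2)` (here `D ≥ √(n/8)`: `‖y i‖ ≥ 1/√(8n)` since `⟪x i, y i⟫ = 1` and
`‖x i‖ ≤ √(8n)`; or any weaker lower bound of `D`, e.g. from `chain`). `chain` gives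
`n² ≤ 200 D² q ≤ 28600 D³ (log n)^(3/2)`, so `D ≥ n^(2/3)/(31 √(log n))`, a contradiction for `c = 1/40`.
-/

namespace Pool.Agent.LB

open Finset MeasureTheory ProbabilityTheory
open scoped RealInnerProductSpace

theorem dm_ev : ∃ N : ℕ, ∀ n : ℕ, N ≤ n →
    8 * (n : ℝ) ^ (2 / 3 : ℝ) * Real.log n + 4 ≤ n := by
  have h1 := (isLittleO_log_rpow_atTop (r := 1 / 3) (by norm_num)).def
    (c := 1 / 16) (by norm_num)
  have h2 := tendsto_natCast_atTop_atTop (R := ℝ) |>.eventually h1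
  obtain ⟨N, hN⟩ := Filter.eventually_atTop.mp h2
  refine ⟨max N 8, fun n hn => ?_⟩
  have h3 := hN n (le_trans (le_max_left _ _) hn)
  have h8 : (8 : ℝ) ≤ n := by exact_mod_cast le_trans (le_max_right _ _) hn
  have hn0 : (0 : ℝ) < n := by linarith
  have hlog : 0 ≤ Real.log n := Real.log_nonneg (by linarith)
  rw [Real.norm_of_nonneg hlog, Real.norm_of_nonneg (Real.rpow_nonneg hn0.le _)] at h3
  have h4 : (n : ℝ) ^ (2 / 3 : ℝ) * (n : ℝ) ^ (1 / 3 : ℝ) = n := by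
    rw [← Real.rpow_add hn0]
    norm_num
  have h5 : 0 ≤ (n : ℝ) ^ (2 / 3 : ℝ) := Real.rpow_nonneg hn0.le _
  have h6 := mul_le_mul_of_nonneg_left h3 h5
  nlinarith

theorem det_main : ∃ c : ℝ, 0 < c ∧ ∃ n0 : ℕ, ∀ n : ℕ, n0 ≤ n → ∀ (g : Fin (n ^ 2) → E n),
    (∀ j, ‖g j‖ ^ 2 ≤ 8 * n) → R2 g (n ^ 5) (2 * Real.log n) →
    ∀ (α : Fin n → Fin (n ^ 2) × Bool → ℝ), (∀ l k, 0 ≤ α l k) → (∀ l, ∑ k, α l k = 1) →
    ∀ (y : Fin n → E n), (∀ i j, ⟪cc (sg g) α i, y j⟫ = if i = j then (1 : ℝ) else 0) →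
    c * (n : ℝ) ^ (2 / 3 : ℝ) / Real.sqrt (Real.log n) ≤ ∑ i, ‖y i‖ := by
  obtain ⟨N, hN⟩ := dm_ev
  refine ⟨1 / 40, by norm_num, max N 100, fun n hn g h0 h2 α hα0 hα y hy => ?_⟩
  have hn100 : 100 ≤ n := le_trans (le_max_right _ _) hn
  have hNn := hN n (le_trans (le_max_left _ _) hn)
  have hn' : (100 : ℝ) ≤ n := by exact_mod_cast hn100
  have hn0 : (0 : ℝ) < n := by linarith
  by_contra hcon
  push Not at hcon
  set D : ℝ := ∑ i, ‖y i‖ with hD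
  set ℓ : ℝ := Real.log n with hℓ
  set a : ℝ := (n : ℝ) ^ (2 / 3 : ℝ) with ha
  have hℓ1 : 1 ≤ ℓ := by
    rw [hℓ, Real.le_log_iff_exp_le hn0]
    have := Real.exp_one_lt_d9
    linarith
  have hD0 : 0 ≤ D := Finset.sum_nonneg fun i _ => norm_nonneg _
  have ha1 : 1 ≤ a := Real.one_le_rpow (by linarith) (by norm_num)
  have ha3 : a ^ 3 = (n : ℝ) ^ 2 := by
    rw [ha, ← Real.rpow_natCast, ← Real.rpow_mul hn0.le, ← Real.rpow_natCast]
    norm_num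
  set s : ℝ := Real.sqrt ℓ with hs
  have hs2 : s ^ 2 = ℓ := Real.sq_sqrt (by linarith)
  have hs1 : 1 ≤ s := by
    rw [hs]
    exact Real.one_le_sqrt.mpr hℓ1
  have hs0 : 0 < s := by linarith
  have hDs : D * s < a / 40 := by
    rw [lt_div_iff₀ hs0] at hcon
    linarith
  have hDa : D ≤ a / 40 := by nlinarith
  have han : a ≤ n := by
    nlinarith [mul_nonneg (by linarith : (0 : ℝ) ≤ a) (by linarith : (0 : ℝ) ≤ ℓ - 1)]
  have hsq : Real.sqrt (2 * ℓ) = Real.sqrt 2 * s := by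
    rw [hs, Real.sqrt_mul (by norm_num)]
  have hr2 : Real.sqrt 2 ≤ 1.42 := by
    rw [Real.sqrt_le_left (by norm_num)]
    norm_num
  have hr20 : 0 ≤ Real.sqrt 2 := Real.sqrt_nonneg 2
  set X : ℝ := 100 * D * Real.sqrt (2 * ℓ) * ℓ with hX
  have hX0 : 0 ≤ X := by rw [hX]; positivity
  have hXle : X ≤ 142 * (D * s) * ℓ := by
    rw [hX, hsq]
    have h5 : 0 ≤ D * s * ℓ := by positivity
    nlinarith [mul_le_mul_of_nonneg_right hr2 h5]
  set q : ℕ := ⌈X⌉₊ with hq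
  have hq1 : X ≤ q := Nat.le_ceil X
  have hq3 : (q : ℝ) < X + 1 := Nat.ceil_lt_add_one hX0
  have hXa : X ≤ 3.55 * a * ℓ := by
    refine hXle.trans ?_
    have : D * s * ℓ ≤ a / 40 * ℓ := mul_le_mul_of_nonneg_right hDs.le (by linarith)
    nlinarith
  have hq2 : 2 * q ≤ n := by
    have : (2 : ℝ) * q ≤ n := by
      have h6 : 0 ≤ a * ℓ := by positivity
      nlinarith
    exact_mod_cast this
  have hch := chain hn100 g h0 (L := 2 * ℓ) (by linarith) (le_refl (n ^ 5)) h2 α hα0 hα y hy hD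
    (by linarith) q hq1 hq2
  have h7 : 200 * D ^ 2 * q ≤ 200 * D ^ 2 * (142 * (D * s) * ℓ + 1) := by
    refine mul_le_mul_of_nonneg_left ?_ (by positivity)
    linarith
  have h8 : 200 * D ^ 2 * (142 * (D * s) * ℓ + 1) = 28400 * (D * s) ^ 3 + 200 * D ^ 2 := by
    rw [← hs2]; ring
  have h9 : (D * s) ^ 3 ≤ (a / 40) ^ 3 := pow_le_pow_left₀ (by positivity) hDs.le 3
  have h10 : D ^ 2 ≤ (a / 40) ^ 2 := pow_le_pow_left₀ hD0 hDa 2
  have h11 : a ^ 2 ≤ a ^ 3 := by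
    nlinarith [sq_nonneg a]
  have h12 : 0 < a ^ 3 := by positivity
  rw [← ha3] at hch
  nlinarith

end Pool.Agent.LB
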