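import Mathlib

/-!
Lower bound for the maximal Banach-Mazur distance to the cube (MP_a64d16_an): definitions.
-/

namespace Pool.Agent.LB

open Finset MeasureTheory ProbabilityTheory
open scoped RealInnerProductSpace

noncomputable section

/-- Euclidean space `ℝ^n`. -/
abbrev E (n : ℕ) : Type := EuclideanSpace ℝ (Fin n)

/-- Squared volume (Gram determinant) of the vectors `x l`, `l ∈ I`. -/
def V2 {n : ℕ} {ι : Type} [DecidableEq ι] (x : ι → E n) (I : Finset ι) : ℝ :=
  (Matrix.gram ℝ (fun l : I => x l)).det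

/-- Orthogonal complement of the span of the vectors `x l`, `l ∈ I`. -/
def Hc {n : ℕ} {ι : Type} (x : ι → E n) (I : Finset ι) : Submodule ℝ (E n) :=
  (Submodule.span ℝ (x '' (I : Set ι)))ᗮ

/-- Squared distance of `z` to the span of the vectors `x l`, `l ∈ I`. -/
def d2 {n : ℕ} {ι : Type} (x : ι → E n) (I : Finset ι) (z : E n) : ℝ :=
  ‖(Hc x I).starProjection z‖ ^ 2

/-- Column averages: column `l` is the mean of `t l` vectors `v (f l i)`. -/
def xs {n : ℕ} {κ : Type} (v : κ → E n) (t : Fin n → ℕ) (f : ∀ l, Fin (t l) → κ) : Fin n → E n :=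
  fun l => (t l : ℝ)⁻¹ • ∑ i, v (f l i)

/-- The convex combinations with coefficients `α l`. -/
def cc {n : ℕ} {κ : Type} [Fintype κ] (v : κ → E n) (α : Fin n → κ → ℝ) : Fin n → E n :=
  fun l => ∑ k, α l k • v k

/-- Probability of the choice `f`, if the `f l i` are independent with distribution `α l`. -/
def wt {n : ℕ} {κ : Type} (α : Fin n → κ → ℝ) (t : Fin n → ℕ) (f : ∀ l, Fin (t l) → κ) : ℝ :=
  ∏ l, ∏ i, α l (f l i)

/-- The potential. -/
def Psi {n : ℕ} (ω : Fin n → ℝ) (q : ℕ) (y : ℝ) (x : Fin n → E n) : ℝ :=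
  ∑ I ∈ (univ : Finset (Finset (Fin n))).filter (fun I => I.card + q ≤ n),
    ((n - I.card).factorial : ℝ) * y ^ (n - I.card) * (∏ l ∈ I, ω l) * V2 x I

/-- The signed vertices `± g j`. -/
def sg {n m : ℕ} (g : Fin m → E n) : Fin m × Bool → E n :=
  fun k => if k.2 then g k.1 else -g k.1

/-- `m` independent standard Gaussian vectors in `ℝ^n`. -/
def gam (m n : ℕ) : Measure (Fin m → E n) := Measure.pi (fun _ => stdGaussian (E n))

/-- The vectors `∑ j, a l j • g j`. -/
def lin {n m : ℕ} (a : Fin n → EuclideanSpace ℝ (Fin m)) (g : Fin m → E n) : Fin n → E n :=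
  fun l => ∑ j, a l j • g j

/-- (R2): volume bound for all sparse columns with at most `T` terms. -/
def R2 {n m : ℕ} (g : Fin m → E n) (T : ℕ) (L : ℝ) : Prop :=
  ∀ (t : Fin n → ℕ) (_ : ∀ l, 1 ≤ t l ∧ t l ≤ T) (f : ∀ l, Fin (t l) → Fin m × Bool)
    (I K : Finset (Fin n)) (φ : Fin n → Fin m × Bool), Disjoint I K → K.Nonempty →
    V2 (K.piecewise (sg g ∘ φ) (xs (sg g) t f)) (I ∪ K) ≤
      V2 (xs (sg g) t f) I *
        (2 * ((n : ℝ) - I.card) + 12 * (∑ l, (t l : ℝ)) * L / K.card) ^ K.card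

end

end Pool.Agent.LB
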