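import Pool.Agent.Helper91.LB.Defs

/-!
LB-GL. `ℓ_1` lower tail for one vector. For `y ≠ 0`, `N_j = ⟪g j, y⟫/‖y‖` are independent standard normal:
`P(∑ |N_j| < m/8) ≤ E exp(8 (m/8 - ∑ |N_j|)) = e^m (E e^(-8|N|))^m` and
`E e^(-8|N|) ≤ 2 ∫_0^∞ e^(-8x) dx / √(2π) = 1/(4 √(2π)) ≤ 0.1`, `0.1 e ≤ e^(-1)`.
-/

namespace Pool.Agent.LB

open Finset MeasureTheory ProbabilityTheory
open scoped RealInnerProductSpace

private lemma exp_abs_integral : ∫ x : ℝ, Real.exp (-8 * |x|) = 1 / 4 := by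
  rw [integral_comp_abs (f := fun x => Real.exp (-8 * x)),
    integral_exp_mul_Ioi (by norm_num) 0]
  norm_num

private lemma exp_abs_integrable : Integrable (fun x : ℝ => Real.exp (-8 * |x|)) := by
  by_contra h
  have h1 := integral_undef h
  rw [exp_abs_integral] at h1
  norm_num at h1

private lemma gauss_abs : ∫ x : ℝ, Real.exp (-8 * |x|) ∂(gaussianReal 0 1) ≤ Real.exp (-2) := by
  rw [integral_gaussianReal_eq_integral_smul (by norm_num)]
  have h1 : ∫ x : ℝ, gaussianPDFReal 0 1 x • Real.exp (-8 * |x|) ≤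
      ∫ x : ℝ, (√(2 * Real.pi))⁻¹ * Real.exp (-8 * |x|) := by
    apply integral_mono_of_nonneg
    · filter_upwards with x
      exact smul_nonneg (gaussianPDFReal_nonneg _ _ _) (Real.exp_nonneg _)
    · exact exp_abs_integrable.const_mul _
    · filter_upwards with x
      rw [smul_eq_mul]
      apply mul_le_mul_of_nonneg_right _ (Real.exp_nonneg _)
      rw [gaussianPDFReal]
      have : Real.exp (-(x - 0) ^ 2 / (2 * ((1 : NNReal) : ℝ))) ≤ 1 := by
        apply Real.exp_le_one_iff.2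
        have : 0 ≤ (x - 0) ^ 2 := sq_nonneg _
        simp only [NNReal.coe_one, mul_one]
        linarith
      calc (√(2 * Real.pi * ((1 : NNReal) : ℝ)))⁻¹ * Real.exp (-(x - 0) ^ 2 / (2 * ((1 : NNReal) : ℝ)))
          ≤ (√(2 * Real.pi * ((1 : NNReal) : ℝ)))⁻¹ * 1 := by gcongr
        _ = _ := by simp
  refine h1.trans ?_
  rw [integral_const_mul, exp_abs_integral]
  have h2 : (2.5 : ℝ) ≤ √(2 * Real.pi) := by
    apply Real.le_sqrt_of_sq_le
    nlinarith [Real.pi_gt_d2]
  have h3 : Real.exp 2 ≤ 10 := by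
    have := Real.exp_one_lt_d9
    have h4 : Real.exp 2 = Real.exp 1 * Real.exp 1 := by rw [← Real.exp_add]; norm_num
    rw [h4]
    nlinarith [Real.exp_pos 1]
  have h5 : (10 : ℝ)⁻¹ ≤ Real.exp (-2) := by
    rw [Real.exp_neg]
    gcongr
  refine le_trans ?_ h5
  have h6 : (√(2 * Real.pi))⁻¹ ≤ (2.5 : ℝ)⁻¹ := by gcongr
  linarith

private lemma gauss_vec {n : ℕ} (y : E n) (hy : y ≠ 0) :
    ∫ x : E n, Real.exp (-8 * (|⟪x, y⟫| / ‖y‖)) ∂(stdGaussian (E n)) ≤ Real.exp (-2) := by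
  have hny : 0 < ‖y‖ := norm_pos_iff.2 hy
  set L : StrongDual ℝ (E n) := innerSL ℝ (‖y‖⁻¹ • y) with hL
  have hnL : ‖L‖ = 1 := by
    rw [hL, innerSL_apply_norm, norm_smul, norm_inv, norm_norm, inv_mul_cancel₀ hny.ne']
  have hmap : (stdGaussian (E n)).map L = gaussianReal 0 1 := by
    rw [IsGaussian.map_eq_gaussianReal, integral_strongDual_stdGaussian, variance_dual_stdGaussian,
      hnL]
    simp
  have h1 : ∀ x : E n, Real.exp (-8 * (|⟪x, y⟫| / ‖y‖)) = Real.exp (-8 * |L x|) := by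
    intro x
    rw [hL, innerSL_apply_apply, real_inner_smul_left, abs_mul, abs_inv, abs_norm, real_inner_comm]
    congr 2
    field_simp
  simp_rw [h1]
  have h2 : ∫ x : E n, Real.exp (-8 * |L x|) ∂(stdGaussian (E n)) =
      ∫ t : ℝ, Real.exp (-8 * |t|) ∂((stdGaussian (E n)).map L) := by
    rw [integral_map (by fun_prop) (by fun_prop)]
  rw [h2, hmap]
  exact gauss_abs

theorem gauss_l1 {m n : ℕ} (y : E n) :
    gam m n {g | ∑ j, |⟪g j, y⟫| < m / 8 * ‖y‖} ≤ ENNReal.ofReal (Real.exp (-m)) := by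
  by_cases hy : y = 0
  · subst hy
    simp
  have hny : 0 < ‖y‖ := norm_pos_iff.2 hy
  haveI : IsProbabilityMeasure (gam m n) := by unfold gam; infer_instance
  set F : (Fin m → E n) → ℝ := fun g => ∏ j, Real.exp (-8 * (|⟪g j, y⟫| / ‖y‖)) with hF
  have hF1 : ∀ g, F g ≤ 1 := by
    intro g
    apply Finset.prod_le_one
    · intro i _; exact Real.exp_nonneg _
    · intro i _
      apply Real.exp_le_one_iff.2
      have : 0 ≤ |⟪g i, y⟫| / ‖y‖ := by positivity
      linarith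
  have hF0 : ∀ g, 0 ≤ F g := fun g => Finset.prod_nonneg fun i _ => Real.exp_nonneg _
  have hint : ∫ g, F g ∂(gam m n) ≤ Real.exp (-2) ^ m := by
    rw [hF]
    unfold gam
    rw [integral_fintype_prod_eq_prod (𝕜 := ℝ)
      (f := fun (_ : Fin m) (x : E n) => Real.exp (-8 * (|⟪x, y⟫| / ‖y‖)))]
    rw [Finset.prod_const, Finset.card_univ, Fintype.card_fin]
    exact pow_le_pow_left₀ (integral_nonneg fun x => Real.exp_nonneg _) (gauss_vec y hy) m
  have hmeas : Measurable F := by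
    rw [hF]
    fun_prop
  have hFint : Integrable F (gam m n) := by
    refine Integrable.of_bound hmeas.aestronglyMeasurable 1 ?_
    filter_upwards with g
    rw [Real.norm_of_nonneg (hF0 g)]
    exact hF1 g
  have hmk := mul_meas_ge_le_integral_of_nonneg (μ := gam m n) (f := F)
    (Filter.Eventually.of_forall hF0) hFint (Real.exp (-m))
  have hsub : {g : Fin m → E n | ∑ j, |⟪g j, y⟫| < m / 8 * ‖y‖} ⊆ {g | Real.exp (-m) ≤ F g} := by
    intro g hg
    simp only [Set.mem_setOf_eq] at hg ⊢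
    rw [hF]
    simp only
    rw [← Real.exp_sum]
    apply Real.exp_le_exp.2
    rw [← Finset.mul_sum, ← Finset.sum_div]
    have : (∑ j, |⟪g j, y⟫|) / ‖y‖ < m / 8 := by
      rw [div_lt_iff₀ hny]; exact hg
    linarith
  refine (measure_mono hsub).trans ?_
  rw [← ENNReal.ofReal_toReal (measure_ne_top (gam m n) _)]
  apply ENNReal.ofReal_le_ofReal
  rw [← measureReal_def]
  have h3 : Real.exp (-m) * (gam m n).real {g | Real.exp (-m) ≤ F g} ≤ Real.exp (-m) * Real.exp (-m) := by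
    refine (hmk.trans hint).trans (le_of_eq ?_)
    rw [← Real.exp_nat_mul, ← Real.exp_add]
    congr 1
    ring
  exact le_of_mul_le_mul_left h3 (Real.exp_pos _)

end Pool.Agent.LB
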