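import Pool.Agent.Helper91.LB.GL

/-!
LB-GN. Net argument. Grid `y' = (k_i / (200 n))_i`, `k_i ∈ {-200n, .., 200n}` integers: at most `(401 n)^n`
points; union bound of `gauss_l1` over the grid. If no grid point is bad and `‖g j‖² ≤ 8n`, let `‖y‖ = 1` and
`y'` the rounded grid point: `‖y - y'‖ ≤ √n/(200 n)`, `‖y'‖ ≥ 1 - 1/200`,
`∑ |⟪g j, y⟫| ≥ (m/8)(1 - 1/200) - m √(8n) √n/(200 n) ≥ m/16`; homogeneity.
-/

namespace Pool.Agent.LB

open Finset MeasureTheory ProbabilityTheory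
open scoped RealInnerProductSpace

/-- The points of the grid. -/
private noncomputable def gridPt {n : ℕ} (k : Fin n → Fin (400 * n + 1)) : E n :=
  WithLp.toLp 2 fun i => (((k i : ℕ) : ℝ) - 200 * n) / (200 * n)

private lemma exists_gridPt {n : ℕ} (hn : 1 ≤ n) (z : E n) (hz : ‖z‖ = 1) :
    ∃ k : Fin n → Fin (400 * n + 1), ‖z - gridPt k‖ ^ 2 ≤ 1 / (200 ^ 2 * n) := by
  have hn0 : (0 : ℝ) < n := by exact_mod_cast hn
  have hzi : ∀ i, |z i| ≤ 1 := by
    intro i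
    have h1 := PiLp.norm_apply_le z i
    rw [hz, Real.norm_eq_abs] at h1
    exact h1
  have hk : ∀ i, ∃ k : Fin (400 * n + 1),
      |z i - (((k : ℕ) : ℝ) - 200 * n) / (200 * n)| ≤ 1 / (200 * n) := by
    intro i
    obtain ⟨h1, h2⟩ := abs_le.1 (hzi i)
    have h3 : 0 ≤ 200 * n * (z i + 1) := by
      have : 0 ≤ z i + 1 := by linarith
      positivity
    have h4 : ⌊200 * n * (z i + 1)⌋₊ < 400 * n + 1 := by
      have h5 : ⌊200 * n * (z i + 1)⌋₊ ≤ 400 * n := by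
        apply Nat.floor_le_of_le
        push_cast
        nlinarith
      omega
    refine ⟨⟨⌊200 * n * (z i + 1)⌋₊, h4⟩, ?_⟩
    have h6 := Nat.floor_le h3
    have h7 := Nat.lt_floor_add_one (200 * n * (z i + 1))
    simp only
    have h8 : z i - ((⌊200 * n * (z i + 1)⌋₊ : ℝ) - 200 * n) / (200 * n)
        = (200 * n * (z i + 1) - (⌊200 * n * (z i + 1)⌋₊ : ℝ)) / (200 * n) := by
      field_simp
      ring
    rw [h8, abs_of_nonneg (div_nonneg (by linarith) (by positivity))]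
    exact div_le_div_of_nonneg_right (by linarith) (by positivity)
  choose k hk using hk
  refine ⟨k, ?_⟩
  rw [EuclideanSpace.real_norm_sq_eq]
  calc ∑ i, (z - gridPt k) i ^ 2 ≤ ∑ _i : Fin n, (1 / (200 * (n : ℝ))) ^ 2 := by
        refine Finset.sum_le_sum fun i _ => ?_
        have h1 : (z - gridPt k) i = z i - (((k i : ℕ) : ℝ) - 200 * n) / (200 * n) := rfl
        rw [h1, ← sq_abs]
        exact pow_le_pow_left₀ (abs_nonneg _) (hk i) 2
    _ = 1 / (200 ^ 2 * n) := by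
        rw [Finset.sum_const, Finset.card_univ, Fintype.card_fin, nsmul_eq_mul]
        field_simp

theorem gauss_R1 {m n : ℕ} (hn : 1 ≤ n) :
    gam m n {g | (∀ j, ‖g j‖ ^ 2 ≤ 8 * n) ∧ ¬ ∀ y : E n, m * ‖y‖ ≤ 16 * ∑ j, |⟪g j, y⟫|} ≤
      (401 * n : ℕ) ^ n * ENNReal.ofReal (Real.exp (-m)) := by
  classical
  have hn0 : (0 : ℝ) < n := by exact_mod_cast hn
  have hn1 : (1 : ℝ) ≤ n := by exact_mod_cast hn
  have hsub : {g : Fin m → E n | (∀ j, ‖g j‖ ^ 2 ≤ 8 * n) ∧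
      ¬ ∀ y : E n, m * ‖y‖ ≤ 16 * ∑ j, |⟪g j, y⟫|} ⊆
      ⋃ k : Fin n → Fin (400 * n + 1), {g | ∑ j, |⟪g j, gridPt k⟫| < m / 8 * ‖gridPt k‖} := by
    rintro g ⟨h8, hy⟩
    push Not at hy
    obtain ⟨y, hy⟩ := hy
    have hy0 : y ≠ 0 := by
      rintro rfl
      simp at hy
    have hny : 0 < ‖y‖ := norm_pos_iff.2 hy0
    have hz : ‖(‖y‖⁻¹ • y : E n)‖ = 1 := by
      rw [norm_smul, norm_inv, norm_norm, inv_mul_cancel₀ hny.ne']
    obtain ⟨k, hk⟩ := exists_gridPt hn (‖y‖⁻¹ • y) hz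
    set z : E n := ‖y‖⁻¹ • y with hzdef
    have hzs : 16 * ∑ j, |⟪g j, z⟫| < m := by
      have h1 : ∀ j, |⟪g j, z⟫| = ‖y‖⁻¹ * |⟪g j, y⟫| := by
        intro j
        rw [hzdef, real_inner_smul_right, abs_mul, abs_inv, abs_norm]
      simp_rw [h1]
      rw [← Finset.mul_sum]
      have h2 : ‖y‖⁻¹ * (16 * ∑ j, |⟪g j, y⟫|) < ‖y‖⁻¹ * (m * ‖y‖) :=
        mul_lt_mul_of_pos_left hy (inv_pos.2 hny)
      have h3 : ‖y‖⁻¹ * (m * ‖y‖) = m := by field_simp
      rw [h3] at h2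
      linarith
    rw [Set.mem_iUnion]
    refine ⟨k, ?_⟩
    rw [Set.mem_ofPred_eq]
    by_contra hcon
    rw [not_lt] at hcon
    have hd : ‖z - gridPt k‖ ≤ 1 / 200 := by
      apply abs_le_of_sq_le_sq' _ (by norm_num) |>.2
      refine hk.trans ?_
      rw [div_pow, one_pow]
      apply div_le_div_of_nonneg_left zero_le_one (by norm_num)
      nlinarith
    have hp : 199 / 200 ≤ ‖gridPt k‖ := by
      have h1 : ‖z‖ ≤ ‖z - gridPt k‖ + ‖gridPt k‖ := by
        calc ‖z‖ = ‖(z - gridPt k) + gridPt k‖ := by rw [sub_add_cancel]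
          _ ≤ _ := norm_add_le _ _
      rw [hz] at h1
      linarith
    have hin : ∀ j, |⟪g j, gridPt k⟫| ≤ |⟪g j, z⟫| + 3 / 200 := by
      intro j
      have h1 : ⟪g j, gridPt k⟫ = ⟪g j, z⟫ - ⟪g j, z - gridPt k⟫ := by
        rw [← inner_sub_right]
        congr 1
        abel
      have h2 : |⟪g j, z - gridPt k⟫| ≤ 3 / 200 := by
        refine (abs_real_inner_le_norm _ _).trans ?_
        apply abs_le_of_sq_le_sq' _ (by norm_num) |>.2
        rw [mul_pow]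
        calc ‖g j‖ ^ 2 * ‖z - gridPt k‖ ^ 2 ≤ (8 * n) * (1 / (200 ^ 2 * n)) :=
              mul_le_mul (h8 j) hk (by positivity) (by positivity)
          _ = 8 / 200 ^ 2 := by field_simp
          _ ≤ (3 / 200) ^ 2 := by norm_num
      rw [h1]
      calc |⟪g j, z⟫ - ⟪g j, z - gridPt k⟫| ≤ |⟪g j, z⟫| + |⟪g j, z - gridPt k⟫| := abs_sub _ _
        _ ≤ _ := by linarith
    have hs : ∑ j, |⟪g j, gridPt k⟫| ≤ ∑ j, |⟪g j, z⟫| + m * (3 / 200) := by
      calc ∑ j, |⟪g j, gridPt k⟫| ≤ ∑ j, (|⟪g j, z⟫| + 3 / 200) :=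
            Finset.sum_le_sum fun j _ => hin j
        _ = _ := by
            rw [Finset.sum_add_distrib, Finset.sum_const, Finset.card_univ, Fintype.card_fin,
              nsmul_eq_mul]
    have hm0 : (0 : ℝ) ≤ m := Nat.cast_nonneg m
    have h9 : (m : ℝ) / 8 * (199 / 200) ≤ m / 8 * ‖gridPt k‖ :=
      mul_le_mul_of_nonneg_left hp (by positivity)
    linarith
  refine (measure_mono hsub).trans ?_
  refine (measure_iUnion_fintype_le _ _).trans ?_
  calc ∑ k : Fin n → Fin (400 * n + 1),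
        gam m n {g | ∑ j, |⟪g j, gridPt k⟫| < m / 8 * ‖gridPt k‖}
      ≤ ∑ _k : Fin n → Fin (400 * n + 1), ENNReal.ofReal (Real.exp (-m)) :=
        Finset.sum_le_sum fun k _ => gauss_l1 (gridPt k)
    _ = ((400 * n + 1 : ℕ) ^ n : ℕ) * ENNReal.ofReal (Real.exp (-m)) := by
        rw [Finset.sum_const, Finset.card_univ, Fintype.card_fun, Fintype.card_fin,
          Fintype.card_fin, nsmul_eq_mul]
    _ ≤ _ := by
        gcongr
        rw [Nat.cast_pow]
        gcongr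
        omega

end Pool.Agent.LB
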