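import Pool.Agent.Helper91.LB.Defs

/-!
LB-GP. Gaussian exponential moments.
`gauss_proj`: take an orthonormal basis of `E n` adapted to `H ⊕ Hᗮ`
(`stdGaussian_eq_map_pi_orthonormalBasis`), so `‖H.starProjection z‖²` is the sum of the squares of
`finrank H` independent standard Gaussian coordinates, and `∫ exp(x²/4) dN(0,1) = √2`.
(Or use the isometry `E n ≃ H × Hᗮ`.)
`gauss_R0`: Markov with `H = ⊤`: `P(‖g j‖² > 8n) ≤ 2^(n/2) e^(-2n) ≤ e^(-n)`, union over `j`.
-/

namespace Pool.Agent.LB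

open Finset MeasureTheory ProbabilityTheory
open scoped RealInnerProductSpace

namespace GP

theorem lintegral_exp_sq :
    ∫⁻ x : ℝ, ENNReal.ofReal (Real.exp (x ^ 2 / 4)) ∂(gaussianReal 0 1) =
      ENNReal.ofReal (Real.sqrt 2) := by
  rw [gaussianReal_of_var_ne_zero _ one_ne_zero,
    lintegral_withDensity_eq_lintegral_mul _ (measurable_gaussianPDF 0 1) (by fun_prop)]
  have h1 : ∀ x : ℝ, (gaussianPDF 0 1 * fun x : ℝ => ENNReal.ofReal (Real.exp (x ^ 2 / 4))) x =
      ENNReal.ofReal ((Real.sqrt (2 * Real.pi))⁻¹ * Real.exp (-(1 / 4) * x ^ 2)) := by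
    intro x
    rw [Pi.mul_apply, gaussianPDF, ← ENNReal.ofReal_mul (gaussianPDFReal_nonneg _ _ _),
      gaussianPDFReal]
    congr 1
    rw [mul_assoc, ← Real.exp_add]
    simp only [NNReal.coe_one, mul_one, sub_zero]
    congr 2
    ring
  simp_rw [h1]
  rw [← ofReal_integral_eq_lintegral_ofReal
    ((integrable_exp_neg_mul_sq (by norm_num : (0 : ℝ) < 1 / 4)).const_mul _)
    (Filter.Eventually.of_forall fun x => by positivity)]
  congr 1
  rw [integral_const_mul, integral_gaussian]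
  have h2 : Real.pi / (1 / 4) = 2 * (2 * Real.pi) := by ring
  have h3 : Real.sqrt (2 * Real.pi) ≠ 0 := by positivity
  rw [h2, Real.sqrt_mul (by norm_num : (0 : ℝ) ≤ 2) (2 * Real.pi), mul_left_comm,
    inv_mul_cancel₀ h3, mul_one]

end GP

theorem gauss_proj {n : ℕ} (H : Submodule ℝ (E n)) :
    ∫⁻ z, ENNReal.ofReal (Real.exp (‖H.starProjection z‖ ^ 2 / 4)) ∂(stdGaussian (E n)) =
      ENNReal.ofReal (2 ^ ((Module.finrank ℝ H : ℝ) / 2)) := by
  classical
  let bH := stdOrthonormalBasis ℝ H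
  let bK := stdOrthonormalBasis ℝ Hᗮ
  let v : Fin (Module.finrank ℝ H) ⊕ Fin (Module.finrank ℝ Hᗮ) → E n :=
    Sum.elim (fun i => (bH i : E n)) (fun j => (bK j : E n))
  have hv : Orthonormal ℝ v := by
    rw [orthonormal_iff_ite]
    rintro (i | i) (j | j)
    · have := orthonormal_iff_ite.mp bH.orthonormal i j
      rw [Submodule.coe_inner] at this
      simpa [v] using this
    · have : inner ℝ (bH i : E n) (bK j : E n) = 0 := (bK j).2 _ (bH i).2
      simpa [v] using this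
    · have : inner ℝ (bK i : E n) (bH j : E n) = 0 := by
        rw [real_inner_comm]; exact (bK i).2 _ (bH j).2
      simpa [v] using this
    · have := orthonormal_iff_ite.mp bK.orthonormal i j
      rw [Submodule.coe_inner] at this
      simpa [v] using this
  have hcard : Module.finrank ℝ (E n) =
      Fintype.card (Fin (Module.finrank ℝ H) ⊕ Fin (Module.finrank ℝ Hᗮ)) := by
    rw [Fintype.card_sum, Fintype.card_fin, Fintype.card_fin]
    exact (Submodule.finrank_add_finrank_orthogonal H).symm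
  obtain ⟨b, hb⟩ := Orthonormal.exists_orthonormalBasis_extension_of_card_eq (s := Set.univ)
    hcard (v := v) (hv.comp _ Subtype.val_injective)
  have hbl : ∀ i, b (Sum.inl i) = (bH i : E n) := fun i => hb _ trivial
  have hbr : ∀ j, b (Sum.inr j) = (bK j : E n) := fun j => hb _ trivial
  rw [stdGaussian_eq_map_pi_orthonormalBasis b, lintegral_map (by fun_prop) (by fun_prop)]
  have hnorm : ∀ x : Fin (Module.finrank ℝ H) ⊕ Fin (Module.finrank ℝ Hᗮ) → ℝ,
      ‖H.starProjection (∑ i, x i • b i)‖ ^ 2 = ∑ i, x (Sum.inl i) ^ 2 := by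
    intro x
    have h1 : H.starProjection (∑ i, x i • b i) = ∑ i, x (Sum.inl i) • (bH i : E n) := by
      rw [map_sum, Fintype.sum_sum_type]
      have hA : ∀ i, H.starProjection (x (Sum.inl i) • b (Sum.inl i)) =
          x (Sum.inl i) • (bH i : E n) := by
        intro i
        rw [map_smul, hbl, Submodule.starProjection_eq_self_iff.mpr (bH i).2]
      have hB : ∀ j, H.starProjection (x (Sum.inr j) • b (Sum.inr j)) = 0 := by
        intro j
        rw [map_smul, hbr, (Submodule.starProjection_apply_eq_zero_iff H).mpr (bK j).2, smul_zero]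
      simp_rw [hA, hB]
      simp
    rw [h1]
    have h2 : (∑ i, x (Sum.inl i) • (bH i : E n)) =
        ((∑ i, x (Sum.inl i) • bH i : H) : E n) := by simp
    rw [h2, ← Submodule.coe_norm, ← real_inner_self_eq_norm_sq, bH.orthonormal.inner_sum]
    simp [sq]
  simp_rw [hnorm]
  let F : Fin (Module.finrank ℝ H) ⊕ Fin (Module.finrank ℝ Hᗮ) → ℝ → ENNReal :=
    Sum.elim (fun _ => fun y : ℝ => ENNReal.ofReal (Real.exp (y ^ 2 / 4)))
      (fun _ => fun _ : ℝ => (1 : ENNReal))
  have hprod : ∀ x : Fin (Module.finrank ℝ H) ⊕ Fin (Module.finrank ℝ Hᗮ) → ℝ,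
      ENNReal.ofReal (Real.exp ((∑ i, x (Sum.inl i) ^ 2) / 4)) = ∏ j, F j (x j) := by
    intro x
    rw [Fintype.prod_sum_type]
    simp only [F, Sum.elim_inl, Sum.elim_inr, Finset.prod_const_one, mul_one]
    rw [← ENNReal.ofReal_prod_of_nonneg (fun i _ => (Real.exp_pos _).le), ← Real.exp_sum,
      Finset.sum_div]
  simp_rw [hprod]
  have hmeas : ∀ j, Measurable (F j) := by
    rintro (i | i)
    · simp only [F, Sum.elim_inl]; fun_prop
    · simp only [F, Sum.elim_inr]; fun_prop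
  have hint := lintegral_prod_eq_prod_lintegral_of_indepFun
    (μ := Measure.pi fun _ : Fin (Module.finrank ℝ H) ⊕ Fin (Module.finrank ℝ Hᗮ) =>
      gaussianReal 0 1) Finset.univ
    (fun j (x : Fin (Module.finrank ℝ H) ⊕ Fin (Module.finrank ℝ Hᗮ) → ℝ) => F j (x j))
    (iIndepFun_pi (X := F) fun j => (hmeas j).aemeasurable)
    (fun j => (hmeas j).comp (measurable_pi_apply j))
  rw [hint]
  have heval : ∀ j, ∫⁻ x, F j (x j)
          ∂(Measure.pi fun _ : Fin (Module.finrank ℝ H) ⊕ Fin (Module.finrank ℝ Hᗮ) =>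
            gaussianReal 0 1) = ∫⁻ y, F j y ∂(gaussianReal 0 1) := by
    intro j
    exact (measurePreserving_eval (fun _ : Fin (Module.finrank ℝ H) ⊕
      Fin (Module.finrank ℝ Hᗮ) => gaussianReal 0 1) j).lintegral_comp (hmeas j)
  simp_rw [heval]
  rw [Fintype.prod_sum_type]
  simp only [F, Sum.elim_inl, Sum.elim_inr, lintegral_const, measure_univ, mul_one,
    Finset.prod_const_one]
  rw [GP.lintegral_exp_sq, Finset.prod_const, Finset.card_univ, Fintype.card_fin,
    ← ENNReal.ofReal_pow (Real.sqrt_nonneg _)]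
  congr 1
  rw [Real.sqrt_eq_rpow, ← Real.rpow_natCast, ← Real.rpow_mul (by norm_num)]
  congr 1
  ring

theorem gauss_R0 {m n : ℕ} :
    gam m n {g | ¬ ∀ j, ‖g j‖ ^ 2 ≤ 8 * n} ≤ m * ENNReal.ofReal (Real.exp (-n)) := by
  have hone : stdGaussian (E n) {z | 8 * (n : ℝ) < ‖z‖ ^ 2} ≤ ENNReal.ofReal (Real.exp (-n)) := by
    have h1 := gauss_proj (⊤ : Submodule ℝ (E n))
    simp only [Submodule.starProjection_top, ContinuousLinearMap.id_apply, finrank_top,
      finrank_euclideanSpace_fin] at h1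
    have h2 := mul_meas_ge_le_lintegral (μ := stdGaussian (E n))
      (f := fun z => ENNReal.ofReal (Real.exp (‖z‖ ^ 2 / 4))) (by fun_prop)
      (ENNReal.ofReal (Real.exp (2 * n)))
    rw [h1] at h2
    have h3 : {z : E n | 8 * (n : ℝ) < ‖z‖ ^ 2} ⊆
        {z | ENNReal.ofReal (Real.exp (2 * n)) ≤ ENNReal.ofReal (Real.exp (‖z‖ ^ 2 / 4))} := by
      intro z hz
      simp only [Set.mem_ofPred_eq] at hz ⊢
      apply ENNReal.ofReal_le_ofReal
      apply Real.exp_le_exp.mpr
      linarith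
    have h4 : ENNReal.ofReal (Real.exp (2 * n)) *
        stdGaussian (E n) {z | 8 * (n : ℝ) < ‖z‖ ^ 2} ≤
        ENNReal.ofReal (2 ^ ((n : ℝ) / 2)) :=
      le_trans (mul_le_mul_right (measure_mono h3) _) h2
    have h5 : (2 : ℝ) ^ ((n : ℝ) / 2) ≤ Real.exp (2 * n) * Real.exp (-n) := by
      rw [← Real.exp_add, Real.rpow_def_of_pos (by norm_num)]
      apply Real.exp_le_exp.mpr
      have := Real.log_two_lt_d9
      have hn : (0 : ℝ) ≤ n := Nat.cast_nonneg n
      nlinarith
    have h6 : ENNReal.ofReal (Real.exp (2 * n)) *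
        stdGaussian (E n) {z | 8 * (n : ℝ) < ‖z‖ ^ 2} ≤
        ENNReal.ofReal (Real.exp (2 * n)) * ENNReal.ofReal (Real.exp (-n)) := by
      rw [← ENNReal.ofReal_mul (Real.exp_pos _).le]
      exact h4.trans (ENNReal.ofReal_le_ofReal h5)
    have h7 : ENNReal.ofReal (Real.exp (2 * n)) ≠ 0 := by
      rw [Ne, ENNReal.ofReal_eq_zero, not_le]; exact Real.exp_pos _
    exact (ENNReal.mul_le_mul_iff_right h7 ENNReal.ofReal_ne_top).mp h6
  have hsub : {g : Fin m → E n | ¬ ∀ j, ‖g j‖ ^ 2 ≤ 8 * n} ⊆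
      ⋃ j, (fun g : Fin m → E n => g j) ⁻¹' {z | 8 * (n : ℝ) < ‖z‖ ^ 2} := by
    intro g hg
    simp only [Set.mem_ofPred_eq, not_forall, not_le] at hg
    obtain ⟨j, hj⟩ := hg
    exact Set.mem_iUnion.mpr ⟨j, hj⟩
  have hms : MeasurableSet {z : E n | 8 * (n : ℝ) < ‖z‖ ^ 2} :=
    measurableSet_lt (by fun_prop) (by fun_prop)
  calc gam m n {g | ¬ ∀ j, ‖g j‖ ^ 2 ≤ 8 * n}
      ≤ gam m n (⋃ j, (fun g : Fin m → E n => g j) ⁻¹' {z | 8 * (n : ℝ) < ‖z‖ ^ 2}) :=
        measure_mono hsub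
    _ ≤ ∑ j, gam m n ((fun g : Fin m → E n => g j) ⁻¹' {z | 8 * (n : ℝ) < ‖z‖ ^ 2}) :=
        measure_iUnion_fintype_le _ _
    _ = ∑ _j : Fin m, stdGaussian (E n) {z | 8 * (n : ℝ) < ‖z‖ ^ 2} := by
        refine Finset.sum_congr rfl fun j _ => ?_
        exact (measurePreserving_eval (fun _ : Fin m => stdGaussian (E n)) j).measure_preimage
          hms.nullMeasurableSet
    _ ≤ ∑ _j : Fin m, ENNReal.ofReal (Real.exp (-n)) := Finset.sum_le_sum fun _ _ => hone
    _ = m * ENNReal.ofReal (Real.exp (-n)) := by simp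

end Pool.Agent.LB
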