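import Pool.Agent.Helper91.LB.RM

/-!
LB-GR. Union bound for (R2). For fixed `t, f, I, K, φ` the vectors `K.piecewise (sg g ∘ φ) (xs (sg g) t f)`
are `lin a g` with fixed coefficient vectors `a l ∈ ℝ^m`, `‖a l‖ ≤ 1` (`a l = ± e_j` for `l ∈ K`; the mean of
`t l` signed unit vectors otherwise), and `V2 (xs ..) I = V2 (lin a g) I` (`V2_congr`, disjointness). With
`h = n - |I|`, `r = |K| ≥ 1`, `τ = ∑ t l ≥ n`, `M = 2h + 12 τ L / r > 0`, `L = log m`: `ratio_tail` gives
`P(bad) ≤ 2^(hr/2) exp(-hr/2 - 3 τ L) ≤ m^(-3τ)`. Number of `f` for given `t`: `(2m)^τ`; so the sum over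
`t, f` is at most `∏_l ∑_{t_l ≥ 1} (2m · m^(-3))^(t_l) ≤ (4/m²)^n` (`Finset.prod_univ_sum`); number of `(I, K)`:
at most `4^n`; number of `φ`: `(2m)^n`. Total `(32/m)^n`.
-/

namespace Pool.Agent.LB

open Finset MeasureTheory ProbabilityTheory
open scoped RealInnerProductSpace

namespace GR

noncomputable def se {m : ℕ} (k : Fin m × Bool) : EuclideanSpace ℝ (Fin m) :=
  if k.2 then EuclideanSpace.single k.1 1 else -EuclideanSpace.single k.1 1

lemma se_norm {m : ℕ} (k : Fin m × Bool) : ‖se k‖ = 1 := by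
  unfold se
  split_ifs <;> simp

lemma se_sum {m n : ℕ} (g : Fin m → E n) (k : Fin m × Bool) : ∑ j, se k j • g j = sg g k := by
  unfold se sg
  split_ifs <;> simp

noncomputable def aa {m n : ℕ} (t : Fin n → ℕ) (f : ∀ l, Fin (t l) → Fin m × Bool)
    (K : Finset (Fin n)) (φ : Fin n → Fin m × Bool) : Fin n → EuclideanSpace ℝ (Fin m) :=
  fun l => if l ∈ K then se (φ l) else (t l : ℝ)⁻¹ • ∑ i, se (f l i)

lemma lin_aa {m n : ℕ} (t : Fin n → ℕ) (f : ∀ l, Fin (t l) → Fin m × Bool)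
    (K : Finset (Fin n)) (φ : Fin n → Fin m × Bool) (g : Fin m → E n) :
    lin (aa t f K φ) g = K.piecewise (sg g ∘ φ) (xs (sg g) t f) := by
  funext l
  unfold lin aa
  by_cases hl : l ∈ K
  · rw [Finset.piecewise_eq_of_mem _ _ _ hl]
    simp only [hl, if_true, Function.comp]
    exact se_sum g (φ l)
  · rw [Finset.piecewise_eq_of_notMem _ _ _ hl]
    simp only [hl, if_false]
    unfold xs
    have h1 : ∀ j, ((t l : ℝ)⁻¹ • ∑ i, se (f l i)) j • g j =
        (t l : ℝ)⁻¹ • ∑ i, se (f l i) j • g j := by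
      intro j
      rw [PiLp.smul_apply, smul_assoc, WithLp.ofLp_sum, Finset.sum_apply, Finset.sum_smul]
    rw [Finset.sum_congr rfl (fun j _ => h1 j), ← Finset.smul_sum, Finset.sum_comm]
    congr 1
    exact Finset.sum_congr rfl fun i _ => se_sum g (f l i)

/-- The bad event for fixed data. -/
def bad {m n : ℕ} (t : Fin n → ℕ) (f : ∀ l, Fin (t l) → Fin m × Bool)
    (I K : Finset (Fin n)) (φ : Fin n → Fin m × Bool) : Set (Fin m → E n) :=
  {g | Disjoint I K ∧ K.Nonempty ∧ V2 (xs (sg g) t f) I *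
        (2 * ((n : ℝ) - I.card) + 12 * (∑ l, (t l : ℝ)) * Real.log m / K.card) ^ K.card <
      V2 (K.piecewise (sg g ∘ φ) (xs (sg g) t f)) (I ∪ K)}

lemma bad_le {m n : ℕ} (t : Fin n → ℕ) (ht : ∀ l, 1 ≤ t l) (hn : 1 ≤ n) (hm : 32 ≤ m)
    (f : ∀ l, Fin (t l) → Fin m × Bool) (I K : Finset (Fin n)) (φ : Fin n → Fin m × Bool) :
    gam m n (bad t f I K φ) ≤ ENNReal.ofReal (∏ l, (1 / (m : ℝ) ^ 3) ^ (t l)) := by
  by_cases hd : Disjoint I K ∧ K.Nonempty
  swap
  · have : bad t f I K φ = ∅ := by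
      ext g
      simp only [bad, Set.mem_ofPred_eq, Set.mem_empty_iff_false, iff_false]
      rintro ⟨h1, h2, -⟩
      exact hd ⟨h1, h2⟩
    rw [this]
    simp
  obtain ⟨hd, hK⟩ := hd
  have hm0 : (0 : ℝ) < m := by
    have : 0 < m := by omega
    exact_mod_cast this
  have hL : 0 < Real.log m := Real.log_pos (by exact_mod_cast (by omega : 1 < m))
  have hr : (0 : ℝ) < K.card := by exact_mod_cast hK.card_pos
  have hh : (0 : ℝ) ≤ (n : ℝ) - I.card := by
    have : I.card ≤ n := by simpa using Finset.card_le_univ I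
    have : (I.card : ℝ) ≤ n := by exact_mod_cast this
    linarith
  have hτ : (0 : ℝ) < ∑ l, (t l : ℝ) := by
    have : Nonempty (Fin n) := ⟨⟨0, by omega⟩⟩
    apply Finset.sum_pos
    · intro l _
      exact_mod_cast ht l
    · exact Finset.univ_nonempty
  set M : ℝ := 2 * ((n : ℝ) - I.card) + 12 * (∑ l, (t l : ℝ)) * Real.log m / K.card with hMdef
  have hM : 0 < M := by
    have : 0 < 12 * (∑ l, (t l : ℝ)) * Real.log m / K.card := by positivity
    linarith
  have hsub : bad t f I K φ ⊆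
      {g | V2 (lin (aa t f K φ) g) I * M ^ K.card < V2 (lin (aa t f K φ) g) (I ∪ K)} := by
    rintro g ⟨-, -, hg⟩
    simp only [Set.mem_ofPred_eq]
    rw [lin_aa]
    have h1 : V2 (K.piecewise (sg g ∘ φ) (xs (sg g) t f)) I = V2 (xs (sg g) t f) I := by
      apply V2_congr
      intro l hl
      exact Finset.piecewise_eq_of_notMem _ _ _ (Finset.disjoint_left.1 hd hl)
    rw [h1]
    exact hg
  refine (measure_mono hsub).trans ((ratio_tail (aa t f K φ) I K hd ?_ hK hM).trans ?_)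
  · intro l hl
    unfold aa
    simp only [hl, if_true]
    exact (se_norm _).le
  apply ENNReal.ofReal_le_ofReal
  have h2 : (2 : ℝ) ^ (((n : ℝ) - I.card) * K.card / 2) ≤
      Real.exp (((n : ℝ) - I.card) * K.card / 2) := by
    rw [Real.rpow_def_of_pos (by norm_num)]
    apply Real.exp_le_exp.2
    have h3 : Real.log 2 ≤ 1 := by
      have := Real.log_two_lt_d9
      linarith
    have h4 : 0 ≤ ((n : ℝ) - I.card) * K.card / 2 := by positivity
    nlinarith
  have h5 : ∏ l, (1 / (m : ℝ) ^ 3) ^ (t l) = Real.exp (-(3 * (∑ l, (t l : ℝ)) * Real.log m)) := by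
    rw [Finset.prod_pow_eq_pow_sum, ← Nat.cast_sum]
    have h6 : (1 / (m : ℝ) ^ 3) = Real.exp (-(3 * Real.log m)) := by
      rw [Real.exp_neg, one_div]
      congr 1
      rw [show (3 : ℝ) * Real.log m = ((3 : ℕ) : ℝ) * Real.log m by norm_num, Real.exp_nat_mul,
        Real.exp_log hm0]
    rw [h6, ← Real.exp_nat_mul]
    congr 1
    ring
  rw [h5]
  calc (2 : ℝ) ^ (((n : ℝ) - I.card) * K.card / 2) * Real.exp (-(M * K.card / 4))
      ≤ Real.exp (((n : ℝ) - I.card) * K.card / 2) * Real.exp (-(M * K.card / 4)) := by gcongr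
    _ = Real.exp (-(3 * (∑ l, (t l : ℝ)) * Real.log m)) := by
        rw [← Real.exp_add]
        congr 1
        rw [hMdef]
        field_simp
        ring

lemma geom_le {x : ℝ} (hx0 : 0 ≤ x) (hx : x ≤ 1 / 2) (T : ℕ) :
    ∑ k ∈ Finset.Icc 1 T, x ^ k ≤ 2 * x := by
  have h1 : ∀ T : ℕ, ∑ k ∈ Finset.Icc 1 T, x ^ k ≤ 2 * x - 2 * x ^ (T + 1) := by
    intro T
    induction T with
    | zero => simp
    | succ T ih =>
      rw [Finset.sum_Icc_succ_top (by omega)]
      have h2 : x ^ (T + 1 + 1) ≤ x ^ (T + 1) * (1 / 2) := by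
        rw [pow_succ x (T + 1)]
        gcongr
      linarith
  have h3 : 0 ≤ x ^ (T + 1) := by positivity
  linarith [h1 T]

end GR

open GR

theorem gauss_R2 {m n : ℕ} (T : ℕ) (hn : 1 ≤ n) (hm : 32 ≤ m) :
    gam m n {g | ¬ R2 g T (Real.log m)} ≤ ENNReal.ofReal ((32 / m) ^ n) := by
  classical
  have hm0 : (0 : ℝ) < m := by
    have : 0 < m := by omega
    exact_mod_cast this
  have hsub : {g : Fin m → E n | ¬ R2 g T (Real.log m)} ⊆
      ⋃ t ∈ Fintype.piFinset (fun _ : Fin n => Finset.Icc 1 T),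
        ⋃ f ∈ (Finset.univ : Finset (∀ l, Fin (t l) → Fin m × Bool)),
          ⋃ p ∈ (Finset.univ : Finset (Finset (Fin n) × Finset (Fin n) × (Fin n → Fin m × Bool))),
            bad t f p.1 p.2.1 p.2.2 := by
    intro g hg
    simp only [Set.mem_ofPred_eq, R2] at hg
    push Not at hg
    obtain ⟨t, ht, f, I, K, φ, h1, h2, h3⟩ := hg
    simp only [Set.mem_iUnion]
    refine ⟨t, ?_, f, Finset.mem_univ _, (I, K, φ), Finset.mem_univ _, h1, h2, h3⟩
    rw [Fintype.mem_piFinset]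
    intro l
    exact Finset.mem_Icc.2 (ht l)
  refine (measure_mono hsub).trans ?_
  have h1 : ∀ t ∈ Fintype.piFinset (fun _ : Fin n => Finset.Icc 1 T),
      gam m n (⋃ f ∈ (Finset.univ : Finset (∀ l, Fin (t l) → Fin m × Bool)),
          ⋃ p ∈ (Finset.univ : Finset (Finset (Fin n) × Finset (Fin n) × (Fin n → Fin m × Bool))),
            bad t f p.1 p.2.1 p.2.2) ≤
        ENNReal.ofReal ((8 * m) ^ n * ∏ l, (2 / (m : ℝ) ^ 2) ^ (t l)) := by
    intro t ht
    rw [Fintype.mem_piFinset] at ht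
    have ht1 : ∀ l, 1 ≤ t l := fun l => (Finset.mem_Icc.1 (ht l)).1
    have h2 : ∀ f ∈ (Finset.univ : Finset (∀ l, Fin (t l) → Fin m × Bool)),
        gam m n (⋃ p ∈ (Finset.univ :
            Finset (Finset (Fin n) × Finset (Fin n) × (Fin n → Fin m × Bool))),
            bad t f p.1 p.2.1 p.2.2) ≤
          ENNReal.ofReal ((8 * m) ^ n * ∏ l, (1 / (m : ℝ) ^ 3) ^ (t l)) := by
      intro f _
      refine (measure_biUnion_finset_le _ _).trans ?_
      refine (Finset.sum_le_sum fun p _ => bad_le t ht1 hn hm f p.1 p.2.1 p.2.2).trans ?_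
      rw [← ENNReal.ofReal_sum_of_nonneg (fun _ _ => by positivity)]
      apply ENNReal.ofReal_le_ofReal
      rw [Finset.sum_const, nsmul_eq_mul]
      apply le_of_eq
      congr 1
      rw [Finset.card_univ]
      simp only [Fintype.card_prod, Fintype.card_finset, Fintype.card_fin, Fintype.card_fun,
        Fintype.card_bool]
      push_cast
      rw [← mul_pow, ← mul_pow]
      congr 1
      ring
    refine (measure_biUnion_finset_le _ _).trans ((Finset.sum_le_sum h2).trans ?_)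
    rw [← ENNReal.ofReal_sum_of_nonneg (fun _ _ => by positivity)]
    apply ENNReal.ofReal_le_ofReal
    rw [Finset.sum_const, nsmul_eq_mul]
    apply le_of_eq
    rw [Finset.card_univ]
    simp only [Fintype.card_pi, Fintype.card_prod, Fintype.card_fin,
      Fintype.card_bool]
    push_cast
    rw [mul_left_comm]
    congr 1
    rw [← Finset.prod_mul_distrib]
    refine Finset.prod_congr rfl fun l _ => ?_
    rw [Finset.prod_const, Finset.card_univ, Fintype.card_fin, ← mul_pow]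
    congr 1
    field_simp
  refine (measure_biUnion_finset_le _ _).trans ((Finset.sum_le_sum h1).trans ?_)
  rw [← ENNReal.ofReal_sum_of_nonneg (fun _ _ => by positivity)]
  apply ENNReal.ofReal_le_ofReal
  rw [← Finset.mul_sum, ← Finset.prod_univ_sum (t := fun _ : Fin n => Finset.Icc 1 T)
    (f := fun (_ : Fin n) (k : ℕ) => (2 / (m : ℝ) ^ 2) ^ k)]
  rw [Finset.prod_const, Finset.card_univ, Fintype.card_fin]
  have hx : (2 / (m : ℝ) ^ 2) ≤ 1 / 2 := by
    have h32 : (32 : ℝ) ≤ m := by exact_mod_cast hm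
    rw [div_le_div_iff₀ (by positivity) (by norm_num)]
    nlinarith
  have h3 := geom_le (by positivity : (0 : ℝ) ≤ 2 / (m : ℝ) ^ 2) hx T
  have h4 : (0 : ℝ) ≤ ∑ k ∈ Finset.Icc 1 T, (2 / (m : ℝ) ^ 2) ^ k :=
    Finset.sum_nonneg fun _ _ => by positivity
  calc (8 * (m : ℝ)) ^ n * (∑ k ∈ Finset.Icc 1 T, (2 / (m : ℝ) ^ 2) ^ k) ^ n
      ≤ (8 * (m : ℝ)) ^ n * (2 * (2 / (m : ℝ) ^ 2)) ^ n := by gcongr
    _ = (32 / m) ^ n := by
        rw [← mul_pow]
        congr 1
        field_simp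
        norm_num

end Pool.Agent.LB
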