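import Pool.Agent.Helper91.LB.GR
import Pool.Agent.Helper91.LB.GN

/-!
LB-GX. Existence: `m = n²`, the three bad events have total probability
`≤ (32/n²)^n + n² e^(-n) + (401 n)^n e^(-n²) < 1` for `n ≥ 100`. `log (n²) = 2 log n`.
-/

namespace Pool.Agent.LB

open Finset MeasureTheory ProbabilityTheory
open scoped RealInnerProductSpace

theorem gx_num1 {n : ℕ} (hn : 100 ≤ n) : ((32 : ℝ) / (n ^ 2 : ℕ)) ^ n ≤ 1 / 4 := by
  have hn' : (100 : ℝ) ≤ n := by exact_mod_cast hn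
  have h1 : (32 : ℝ) / (n ^ 2 : ℕ) ≤ 1 / 4 := by
    push_cast
    rw [div_le_div_iff₀ (by positivity) (by norm_num)]
    nlinarith
  calc ((32 : ℝ) / (n ^ 2 : ℕ)) ^ n ≤ (1 / 4) ^ n := pow_le_pow_left₀ (by positivity) h1 n
    _ ≤ (1 / 4) ^ 1 := pow_le_pow_of_le_one (by norm_num) (by norm_num) (by omega)
    _ = 1 / 4 := by norm_num

theorem gx_num2 {n : ℕ} (hn : 100 ≤ n) : ((n ^ 2 : ℕ) : ℝ) * Real.exp (-n) ≤ 1 / 4 := by
  have hn' : (100 : ℝ) ≤ n := by exact_mod_cast hn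
  have h1 : (n : ℝ) ^ 3 / (Nat.factorial 3 : ℕ) ≤ Real.exp n :=
    Real.pow_div_factorial_le_exp (n : ℝ) (by positivity) 3
  have h2 : ((Nat.factorial 3 : ℕ) : ℝ) = 6 := by norm_num [Nat.factorial]
  rw [h2] at h1
  have hpos := Real.exp_pos (n : ℝ)
  rw [Real.exp_neg]
  push_cast
  rw [← div_eq_mul_inv, div_le_div_iff₀ hpos (by norm_num)]
  nlinarith [sq_nonneg (n : ℝ)]

theorem gx_num3 {n : ℕ} (hn : 100 ≤ n) :
    ((401 * n : ℕ) : ℝ) ^ n * Real.exp (-((n ^ 2 : ℕ) : ℝ)) ≤ 1 / 4 := by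
  have hn' : (100 : ℝ) ≤ n := by exact_mod_cast hn
  have h1 : (n : ℝ) ^ 4 / (Nat.factorial 4 : ℕ) ≤ Real.exp n :=
    Real.pow_div_factorial_le_exp (n : ℝ) (by positivity) 4
  have h2 : ((Nat.factorial 4 : ℕ) : ℝ) = 24 := by norm_num [Nat.factorial]
  rw [h2] at h1
  have hpos := Real.exp_pos (n : ℝ)
  have h3 : ((401 * n : ℕ) : ℝ) * Real.exp (-n) ≤ 1 / 4 := by
    rw [Real.exp_neg]
    push_cast
    rw [← div_eq_mul_inv, div_le_div_iff₀ hpos (by norm_num)]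
    have : (1000000 : ℝ) ≤ n ^ 3 := by
      calc (1000000 : ℝ) = 100 ^ 3 := by norm_num
        _ ≤ n ^ 3 := pow_le_pow_left₀ (by norm_num) hn' 3
    nlinarith [mul_le_mul_of_nonneg_left this (by positivity : (0 : ℝ) ≤ n)]
  have h4 : Real.exp (-((n ^ 2 : ℕ) : ℝ)) = Real.exp (-n) ^ n := by
    rw [← Real.exp_nat_mul]
    congr 1
    push_cast
    ring
  rw [h4, ← mul_pow]
  calc (((401 * n : ℕ) : ℝ) * Real.exp (-n)) ^ n ≤ (1 / 4) ^ n :=
        pow_le_pow_left₀ (by positivity) h3 n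
    _ ≤ (1 / 4) ^ 1 := pow_le_pow_of_le_one (by norm_num) (by norm_num) (by omega)
    _ = 1 / 4 := by norm_num

theorem exists_good (n T : ℕ) (hn : 100 ≤ n) :
    ∃ g : Fin (n ^ 2) → E n, (∀ j, ‖g j‖ ^ 2 ≤ 8 * n) ∧
      (∀ y : E n, (n : ℝ) ^ 2 * ‖y‖ ≤ 16 * ∑ j, |⟪g j, y⟫|) ∧ R2 g T (2 * Real.log n) := by
  have hprob : IsProbabilityMeasure (gam (n ^ 2) n) := by unfold gam; infer_instance
  have hm : 32 ≤ n ^ 2 := by nlinarith
  have hA := gauss_R2 (m := n ^ 2) (n := n) T (by omega) hm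
  have hB := gauss_R0 (m := n ^ 2) (n := n)
  have hC := gauss_R1 (m := n ^ 2) (n := n) (by omega)
  have hlog : Real.log ((n ^ 2 : ℕ) : ℝ) = 2 * Real.log n := by
    push_cast
    rw [Real.log_pow]
    norm_num
  rw [hlog] at hA
  by_contra hcon
  push Not at hcon
  have hcover : (Set.univ : Set (Fin (n ^ 2) → E n)) ⊆
      ({g | ¬ R2 g T (2 * Real.log n)} ∪ {g | ¬ ∀ j, ‖g j‖ ^ 2 ≤ 8 * n}) ∪
      {g | (∀ j, ‖g j‖ ^ 2 ≤ 8 * n) ∧
        ¬ ∀ y : E n, ((n ^ 2 : ℕ) : ℝ) * ‖y‖ ≤ 16 * ∑ j, |⟪g j, y⟫|} := by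
    intro g _
    by_cases h1 : R2 g T (2 * Real.log n)
    · by_cases h2 : ∀ j, ‖g j‖ ^ 2 ≤ 8 * n
      · right
        refine ⟨h2, fun h3 => ?_⟩
        refine hcon g h2 (fun y => ?_) h1
        have := h3 y
        push_cast at this
        exact this
      · left; right; exact h2
    · left; left; exact h1
  have h1 : (1 : ENNReal) ≤ ENNReal.ofReal (1 / 4) + ENNReal.ofReal (1 / 4) + ENNReal.ofReal (1 / 4) := by
    calc (1 : ENNReal) = gam (n ^ 2) n Set.univ := (measure_univ).symm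
      _ ≤ _ := measure_mono hcover
      _ ≤ _ := measure_union_le _ _
      _ ≤ gam (n ^ 2) n {g | ¬ R2 g T (2 * Real.log n)} +
            gam (n ^ 2) n {g | ¬ ∀ j, ‖g j‖ ^ 2 ≤ 8 * n} + _ :=
          add_le_add_left (measure_union_le _ _) _
      _ ≤ _ := by
          refine add_le_add (add_le_add ?_ ?_) ?_
          · refine hA.trans (ENNReal.ofReal_le_ofReal (gx_num1 hn))
          · refine hB.trans ?_
            have : (((n ^ 2 : ℕ) : ℕ) : ENNReal) = ENNReal.ofReal ((n ^ 2 : ℕ) : ℝ) :=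
              (ENNReal.ofReal_natCast _).symm
            rw [this, ← ENNReal.ofReal_mul (by positivity)]
            exact ENNReal.ofReal_le_ofReal (gx_num2 hn)
          · refine hC.trans ?_
            have : (((401 * n : ℕ) : ℕ) : ENNReal) = ENNReal.ofReal ((401 * n : ℕ) : ℝ) :=
              (ENNReal.ofReal_natCast _).symm
            rw [this, ← ENNReal.ofReal_pow (by positivity), ← ENNReal.ofReal_mul (by positivity)]
            exact ENNReal.ofReal_le_ofReal (gx_num3 hn)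
  rw [← ENNReal.ofReal_add (by norm_num) (by norm_num),
    ← ENNReal.ofReal_add (by norm_num) (by norm_num)] at h1
  have h2 : ENNReal.ofReal (1 / 4 + 1 / 4 + 1 / 4) < 1 := by
    rw [ENNReal.ofReal_lt_one]
    norm_num
  exact absurd h1 (not_le.mpr h2)

end Pool.Agent.LB
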