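import Pool.Agent.Helper91.LB.GX
import Pool.Agent.Helper91.LB.DM
import Pool.Agent.Helper91.LB.BD

/-!
Assembly of the lower bound (helper91): a space far from the cube.
-/

namespace Pool.Agent.LB

open Finset MeasureTheory ProbabilityTheory
open scoped RealInnerProductSpace

/-- For large `n` there is an `n`-dimensional subspace of `ℓ_∞^(n²)` that is far from `ℓ_∞^n`. -/
theorem far_space : ∃ c : ℝ, 0 < c ∧ ∃ n0 : ℕ, 2 ≤ n0 ∧ ∀ n : ℕ, n0 ≤ n →
    ∃ X : Submodule ℝ (Fin (n ^ 2) → ℝ), Module.finrank ℝ X = n ∧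
      ∀ T : X ≃L[ℝ] (Fin n → ℝ),
        c * (n : ℝ) ^ (2 / 3 : ℝ) / Real.sqrt (Real.log n) ≤
          ‖(T : X →L[ℝ] (Fin n → ℝ))‖ * ‖(T.symm : (Fin n → ℝ) →L[ℝ] X)‖ := by
  obtain ⟨c, hc, n0, H⟩ := det_main
  refine ⟨c / 16, by positivity, max n0 100, le_trans (by norm_num) (le_max_right _ _), ?_⟩
  intro n hn
  have hn0 : n0 ≤ n := le_trans (le_max_left _ _) hn
  have hn100 : 100 ≤ n := le_trans (le_max_right _ _) hn
  obtain ⟨g, h0, h1, h2⟩ := exists_good n (n ^ 5) hn100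
  have hnp : 0 < n := by omega
  have hnr : (0 : ℝ) < (n : ℝ) ^ 2 := by positivity
  have hinj : Function.Injective (coords g) := by
    rw [← LinearMap.ker_eq_bot, LinearMap.ker_eq_bot']
    intro y hy
    have h3 := h1 y
    have h4 : ∑ j, |⟪g j, y⟫| = 0 := by
      refine Finset.sum_eq_zero fun j _ => ?_
      have : ⟪g j, y⟫ = (0 : ℝ) := congrFun hy j
      rw [this, abs_zero]
    rw [h4, mul_zero] at h3
    have h5 : ‖y‖ ≤ 0 := by
      by_contra hcon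
      push Not at hcon
      have := mul_pos hnr hcon
      linarith
    exact norm_le_zero_iff.1 h5
  refine ⟨LinearMap.range (coords g), ?_, ?_⟩
  · rw [LinearMap.finrank_range_of_inj hinj]
    simp [E]
  · intro T
    obtain ⟨α, hα0, hα, y, hy, hsum⟩ := bm_data g hinj hnp T
    set d := ‖(T : LinearMap.range (coords g) →L[ℝ] (Fin n → ℝ))‖ *
      ‖(T.symm : (Fin n → ℝ) →L[ℝ] LinearMap.range (coords g))‖ with hd
    have h6 := H n hn0 g h0 h2 α hα0 hα y hy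
    have h7 : (n : ℝ) ^ 2 * ∑ i, ‖y i‖ ≤ 16 * ((n : ℝ) ^ 2 * d) := by
      calc (n : ℝ) ^ 2 * ∑ i, ‖y i‖ = ∑ i, (n : ℝ) ^ 2 * ‖y i‖ := by rw [Finset.mul_sum]
        _ ≤ ∑ i, 16 * ∑ j, |⟪g j, y i⟫| := Finset.sum_le_sum fun i _ => h1 (y i)
        _ = 16 * ∑ j, ∑ i, |⟪g j, y i⟫| := by rw [← Finset.mul_sum, Finset.sum_comm]
        _ ≤ 16 * ∑ _j : Fin (n ^ 2), d := by
            refine mul_le_mul_of_nonneg_left (Finset.sum_le_sum fun j _ => hsum j) (by norm_num)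
        _ = 16 * ((n : ℝ) ^ 2 * d) := by simp
    have h8 : ∑ i, ‖y i‖ ≤ 16 * d := by
      refine le_of_mul_le_mul_left ?_ hnr
      linarith
    calc c / 16 * (n : ℝ) ^ (2 / 3 : ℝ) / Real.sqrt (Real.log n)
        = (c * (n : ℝ) ^ (2 / 3 : ℝ) / Real.sqrt (Real.log n)) / 16 := by ring
      _ ≤ (16 * d) / 16 := by gcongr; linarith
      _ = d := by ring

end Pool.Agent.LB
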