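import Pool.Agent.Helper91.LB.Defs

/-!
LB-RS. Resampling. `Γ = (g_1..g_m)` as an `n × m` Gaussian matrix, `z` an independent Gaussian vector,
`u` a unit vector of `ℝ^m`: `Γ(1 - u uᵀ) + z uᵀ` has the same law as `Γ`. Proof by characteristic
functions: `gam m n` is (up to `toLp`) the standard Gaussian measure of `PiLp 2 (fun _ : Fin m => E n)`,
with characteristic function `exp(-‖T‖²/2)` (`charFun_pi`, `charFun_stdGaussian`, Multivariate.lean); the
map is linear, `L L* = 1`, so the characteristic function of the image at `T` is `exp(-‖L* T‖²/2) =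
exp(-‖T‖²/2)`: `L* T = (T - T u uᵀ, T u)` and `‖T - T u uᵀ‖² + ‖T u‖² = ‖T‖²`.
-/

namespace Pool.Agent.LB

open Finset MeasureTheory ProbabilityTheory
open scoped RealInnerProductSpace

theorem resample {m n : ℕ} (u : EuclideanSpace ℝ (Fin m)) (hu : ‖u‖ = 1) :
    ((gam m n).prod (stdGaussian (E n))).map
      (fun p => fun j => p.1 j + u j • (p.2 - ∑ i, u i • p.1 i)) = gam m n := by
  have hprob : IsProbabilityMeasure (gam m n) := by unfold gam; infer_instance
  have hφ : Measurable (fun p : (Fin m → E n) × E n => fun j =>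
      p.1 j + u j • (p.2 - ∑ i, u i • p.1 i)) := by fun_prop
  have hfin : IsFiniteMeasure (((gam m n).prod (stdGaussian (E n))).map
      (fun p => fun j => p.1 j + u j • (p.2 - ∑ i, u i • p.1 i))) := by
    have := Measure.isProbabilityMeasure_map (μ := (gam m n).prod (stdGaussian (E n)))
      hφ.aemeasurable
    infer_instance
  unfold gam at *
  rw [← charFun_eq_pi_iff]
  intro t
  set s : E n := ∑ j, u j • t j with hs
  have hu2 : ∑ j, u j ^ 2 = 1 := by
    have := EuclideanSpace.real_norm_sq_eq u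
    rw [hu] at this
    rw [← this]; norm_num
  have hexp : ∀ p : (Fin m → E n) × E n,
      inner ℝ (WithLp.toLp 2 (fun j => p.1 j + u j • (p.2 - ∑ i, u i • p.1 i)) :
        PiLp 2 (fun _ : Fin m => E n)) t =
      ∑ j, inner ℝ (p.1 j) (t j - u j • s) + inner ℝ p.2 s := by
    intro p
    rw [PiLp.inner_apply]
    simp only [inner_add_left, inner_sub_left, inner_smul_left, inner_sub_right,
      inner_smul_right, Finset.sum_add_distrib, Finset.sum_sub_distrib, conj_trivial, mul_sub]
    have h1 : ∑ j, u j * inner ℝ p.2 (t j) = inner ℝ p.2 s := by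
      rw [hs, inner_sum]
      refine Finset.sum_congr rfl fun j _ => ?_
      rw [inner_smul_right]
    have h2 : ∑ j, u j * inner ℝ (∑ i, u i • p.1 i) (t j) = ∑ j, u j * inner ℝ (p.1 j) s := by
      have h3 : ∑ j, u j * inner ℝ (∑ i, u i • p.1 i) (t j) =
          inner ℝ (∑ i, u i • p.1 i) s := by
        rw [hs, inner_sum]
        refine Finset.sum_congr rfl fun j _ => ?_
        rw [inner_smul_right]
      rw [h3, sum_inner]
      refine Finset.sum_congr rfl fun j _ => ?_
      rw [inner_smul_left]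
      simp
    rw [h1, h2]
    ring
  have hnorm : ∑ j, ‖t j - u j • s‖ ^ 2 + ‖s‖ ^ 2 = ∑ j, ‖t j‖ ^ 2 := by
    have h1 : ∀ j, ‖t j - u j • s‖ ^ 2 =
        ‖t j‖ ^ 2 - 2 * (u j * inner ℝ (t j) s) + u j ^ 2 * ‖s‖ ^ 2 := by
      intro j
      rw [norm_sub_sq_real, inner_smul_right, norm_smul, mul_pow, Real.norm_eq_abs, sq_abs]
    have h2 : ∑ j, u j * inner ℝ (t j) s = ‖s‖ ^ 2 := by
      have h3 : inner ℝ (∑ j, u j • t j) s = ∑ j, u j * inner ℝ (t j) s := by
        rw [sum_inner]
        refine Finset.sum_congr rfl fun j _ => ?_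
        rw [inner_smul_left, conj_trivial]
      rw [← hs] at h3
      rw [← real_inner_self_eq_norm_sq, h3]
    simp_rw [h1]
    rw [Finset.sum_add_distrib, Finset.sum_sub_distrib, ← Finset.mul_sum, h2, ← Finset.sum_mul,
      hu2]
    ring
  rw [Measure.map_map (by fun_prop) hφ, charFun_apply,
    integral_map (by fun_prop) (by fun_prop)]
  simp only [Function.comp_apply]
  simp_rw [hexp]
  have hsplit : ∀ p : (Fin m → E n) × E n,
      Complex.exp (((∑ j, inner ℝ (p.1 j) (t j - u j • s) + inner ℝ p.2 s : ℝ) : ℂ) * Complex.I) =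
      (∏ j, Complex.exp ((inner ℝ (p.1 j) (t j - u j • s) : ℝ) * Complex.I)) *
        Complex.exp ((inner ℝ p.2 s : ℝ) * Complex.I) := by
    intro p
    rw [← Complex.exp_sum, ← Complex.exp_add]
    congr 1
    push_cast
    rw [add_mul, Finset.sum_mul]
  simp_rw [hsplit]
  rw [integral_prod_mul (μ := Measure.pi fun _ : Fin m => stdGaussian (E n))
    (ν := stdGaussian (E n))
    (fun x : Fin m → E n => ∏ j, Complex.exp ((inner ℝ (x j) (t j - u j • s) : ℝ) * Complex.I))
    (fun y : E n => Complex.exp ((inner ℝ y s : ℝ) * Complex.I)),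
    integral_fintype_prod_eq_prod
      (f := fun j (x : E n) => Complex.exp ((inner ℝ x (t j - u j • s) : ℝ) * Complex.I))]
  simp_rw [← charFun_apply, charFun_stdGaussian]
  rw [← Complex.exp_sum, ← Complex.exp_add, ← Complex.exp_sum]
  congr 1
  rw [← Finset.sum_div, ← Finset.sum_div, ← add_div]
  congr 1
  rw [Finset.sum_neg_distrib, Finset.sum_neg_distrib, ← neg_add]
  congr 1
  exact_mod_cast hnorm

end Pool.Agent.LB
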