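import Pool.Agent.Helper91.LB.A2
import Pool.Agent.Helper91.LB.GP
import Pool.Agent.Helper91.LB.RS

/-!
LB-RM. Moments and tails of volume ratios of Gaussian vectors `x l = Γ (a l) = lin a g l`.

`ratio_moment`, induction on `K` (fixed `I`). `K = ∅`: the ratio is `1` or `0/0 = 0`. Step: `l ∉ I ∪ K`,
`J = I ∪ K`, `V2 x (insert l J) / V2 x I = (V2 x J / V2 x I) * d2 x J (x l)`. Let `w` be the
component of `a l` orthogonal to `span (a i, i ∈ J)` in `ℝ^m`. If `w = 0` then `x l ∈ span x_J`, the
distance is `0`. Otherwise `u = w/‖w‖`, `‖w‖ ≤ ‖a l‖ ≤ 1`. By `resample` we may replace `g` by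
`g' = g + u (z - Γ u)` and integrate over `(g, z)` (`lintegral_map`, `lintegral_prod`): `⟪a i, u⟫ = 0` for
`i ∈ J`, so `x i` (`i ∈ J`) does not change, and `x' l = Γ(a l - ‖w‖ u) + ‖w‖ z` with the first part in the
span of `x_J`, so `d2 x J (x' l) = ‖w‖² d2 x J z ≤ d2 x J z` (`d2_add`, `d2_congr`). For fixed `g` (with
`V2 x I ≠ 0`) the subspace `H = Hc x J ≤ Hc x I` has dimension `≤ n - |I|` (`finrank_Hc`), and
`‖P_H z‖^(2p) ≤ (4p/e)^p exp(‖P_H z‖²/4)` (since `X^p ≤ (4p/e)^p e^(X/4)`), `gauss_proj`.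
Measurability: `g ↦ V2 (lin a g) I` is continuous.
`ratio_tail`: Markov for the power `p = M/4`.
-/

namespace Pool.Agent.LB

open Finset MeasureTheory ProbabilityTheory
open scoped RealInnerProductSpace

instance rm_instProbGam (m n : ℕ) : IsProbabilityMeasure (gam m n) := by
  unfold gam; infer_instance

theorem rm_continuous_lin {m n : ℕ} (a : Fin n → EuclideanSpace ℝ (Fin m)) (l : Fin n) :
    Continuous (fun g : Fin m → E n => lin a g l) := by
  unfold lin
  exact continuous_finsetSum _ fun j _ => (continuous_apply j).const_smul (a l j)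

theorem rm_continuous_V2 {m n : ℕ} (a : Fin n → EuclideanSpace ℝ (Fin m)) (I : Finset (Fin n)) :
    Continuous (fun g : Fin m → E n => V2 (lin a g) I) := by
  unfold V2
  refine Continuous.matrix_det ?_
  refine continuous_pi fun i => continuous_pi fun j => ?_
  show Continuous fun g : Fin m → E n => ⟪lin a g i, lin a g j⟫
  exact (rm_continuous_lin a i).inner (rm_continuous_lin a j)

theorem rm_measurable_ratio {m n : ℕ} (a : Fin n → EuclideanSpace ℝ (Fin m)) (I K : Finset (Fin n))
    (p : ℝ) : Measurable (fun g : Fin m → E n =>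
      ENNReal.ofReal ((V2 (lin a g) (I ∪ K) / V2 (lin a g) I) ^ p)) := by
  have h1 := (rm_continuous_V2 (m := m) a (I ∪ K)).measurable
  have h2 := (rm_continuous_V2 (m := m) a I).measurable
  exact ((h1.div h2).pow_const p).ennreal_ofReal

theorem rm_rpow_le_exp {X p : ℝ} (hX : 0 ≤ X) (hp : 0 < p) :
    X ^ p ≤ (4 * p / Real.exp 1) ^ p * Real.exp (X / 4) := by
  rcases hX.eq_or_lt with h | h
  · rw [← h, Real.zero_rpow hp.ne']
    positivity
  · have h4 : (0 : ℝ) < 4 * p := by positivity
    have hy : 0 < X / (4 * p) := div_pos h h4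
    have h1 := Real.add_one_le_exp (X / (4 * p) - 1)
    have h2 : X ≤ 4 * p / Real.exp 1 * Real.exp (X / (4 * p)) := by
      have h3 : X / (4 * p) ≤ Real.exp (X / (4 * p)) / Real.exp 1 := by
        rw [← Real.exp_sub]
        linarith
      have := mul_le_mul_of_nonneg_left h3 h4.le
      calc X = 4 * p * (X / (4 * p)) := by field_simp
        _ ≤ 4 * p * (Real.exp (X / (4 * p)) / Real.exp 1) := this
        _ = _ := by ring
    calc X ^ p ≤ (4 * p / Real.exp 1 * Real.exp (X / (4 * p))) ^ p :=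
          Real.rpow_le_rpow h.le h2 hp.le
      _ = (4 * p / Real.exp 1) ^ p * Real.exp (X / (4 * p)) ^ p :=
          Real.mul_rpow (by positivity) (by positivity)
      _ = _ := by
          rw [← Real.exp_mul]
          congr 2
          field_simp

/-- the matrix `Γ` acting on coefficient vectors -/
noncomputable def rmGam {m n : ℕ} (g : Fin m → E n) : EuclideanSpace ℝ (Fin m) →ₗ[ℝ] E n where
  toFun b := ∑ j, b j • g j
  map_add' b c := by
    simp [add_smul, Finset.sum_add_distrib]
  map_smul' r b := by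
    simp [mul_smul, Finset.smul_sum]

theorem rmGam_apply {m n : ℕ} (g : Fin m → E n) (b : EuclideanSpace ℝ (Fin m)) :
    rmGam g b = ∑ j, b j • g j := rfl

theorem rmGam_res {m n : ℕ} (g : Fin m → E n) (z : E n) (u b : EuclideanSpace ℝ (Fin m)) :
    rmGam (fun j => g j + u j • (z - ∑ i, u i • g i)) b =
      rmGam g b + ⟪b, u⟫ • (z - rmGam g u) := by
  rw [rmGam_apply, rmGam_apply, rmGam_apply]
  simp only [smul_add, Finset.sum_add_distrib, smul_smul]
  congr 1
  rw [← Finset.sum_smul]
  congr 1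
  rw [PiLp.inner_apply]
  refine Finset.sum_congr rfl fun j _ => ?_
  simp [mul_comm]

theorem rm_lin_eq_Gam {m n : ℕ} (a : Fin n → EuclideanSpace ℝ (Fin m)) (g : Fin m → E n) (l : Fin n) :
    lin a g l = rmGam g (a l) := rfl

theorem rm_d2_smul {n : ℕ} {ι : Type} [DecidableEq ι] (x : ι → E n) (I : Finset ι) (c : ℝ) (z : E n) :
    d2 x I (c • z) = c ^ 2 * d2 x I z := by
  unfold d2
  rw [map_smul, norm_smul, mul_pow, Real.norm_eq_abs, sq_abs]

theorem rm_d2_zero_right {n : ℕ} {ι : Type} [DecidableEq ι] (x : ι → E n) (I : Finset ι) :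
    d2 x I 0 = 0 := by
  unfold d2
  simp

theorem rmGam_mem_span {m n : ℕ} (a : Fin n → EuclideanSpace ℝ (Fin m)) (g : Fin m → E n)
    (J : Finset (Fin n)) {b : EuclideanSpace ℝ (Fin m)}
    (hb : b ∈ Submodule.span ℝ (a '' (J : Set (Fin n)))) :
    rmGam g b ∈ Submodule.span ℝ (lin a g '' (J : Set (Fin n))) := by
  have h := Submodule.mem_map_of_mem (f := rmGam g) hb
  rw [Submodule.map_span] at h
  refine Submodule.span_mono ?_ h
  rintro _ ⟨_, ⟨i, hi, rfl⟩, rfl⟩
  exact ⟨i, hi, rfl⟩

theorem rm_d2_moment {n : ℕ} {ι : Type} [DecidableEq ι] (x : ι → E n) (I J : Finset ι) (hIJ : I ⊆ J)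
    (hI : I.card ≤ n) (hV : V2 x I ≠ 0) {p : ℝ} (hp : 0 < p) :
    ∫⁻ z, ENNReal.ofReal (d2 x J z ^ p) ∂(stdGaussian (E n)) ≤
      ENNReal.ofReal ((4 * p / Real.exp 1) ^ p * 2 ^ (((n : ℝ) - I.card) / 2)) := by
  have hc : (0 : ℝ) ≤ (4 * p / Real.exp 1) ^ p := by positivity
  have hle : Hc x J ≤ Hc x I := by
    unfold Hc
    exact Submodule.orthogonal_le (Submodule.span_mono (Set.image_mono (by exact_mod_cast hIJ)))
  have hfin : (Module.finrank ℝ (Hc x J) : ℝ) ≤ (n : ℝ) - I.card := by
    have h1 := Submodule.finrank_mono hle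
    rw [finrank_Hc hV] at h1
    have : ((n - I.card : ℕ) : ℝ) = (n : ℝ) - I.card := by
      rw [Nat.cast_sub hI]
    rw [← this]
    exact_mod_cast h1
  calc ∫⁻ z, ENNReal.ofReal (d2 x J z ^ p) ∂(stdGaussian (E n))
      ≤ ∫⁻ z, ENNReal.ofReal ((4 * p / Real.exp 1) ^ p) *
          ENNReal.ofReal (Real.exp (‖(Hc x J).starProjection z‖ ^ 2 / 4)) ∂(stdGaussian (E n)) := by
        refine lintegral_mono fun z => ?_
        rw [← ENNReal.ofReal_mul hc]
        exact ENNReal.ofReal_le_ofReal (rm_rpow_le_exp (sq_nonneg _) hp)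
    _ = ENNReal.ofReal ((4 * p / Real.exp 1) ^ p) *
          ENNReal.ofReal (2 ^ ((Module.finrank ℝ (Hc x J) : ℝ) / 2)) := by
        rw [lintegral_const_mul' _ _ ENNReal.ofReal_ne_top, gauss_proj]
    _ ≤ _ := by
        rw [← ENNReal.ofReal_mul hc]
        refine ENNReal.ofReal_le_ofReal (mul_le_mul_of_nonneg_left ?_ hc)
        exact Real.rpow_le_rpow_of_exponent_le one_le_two (by linarith)

theorem ratio_moment {m n : ℕ} (a : Fin n → EuclideanSpace ℝ (Fin m)) (I K : Finset (Fin n))
    (hIK : Disjoint I K) (ha : ∀ l ∈ K, ‖a l‖ ≤ 1) (p : ℝ) (hp : 0 < p) :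
    ∫⁻ g, ENNReal.ofReal ((V2 (lin a g) (I ∪ K) / V2 (lin a g) I) ^ p) ∂(gam m n) ≤
      (ENNReal.ofReal ((4 * p / Real.exp 1) ^ p * 2 ^ (((n : ℝ) - I.card) / 2))) ^ K.card := by
  classical
  induction K using Finset.induction_on with
  | empty =>
    simp only [Finset.union_empty, Finset.card_empty, pow_zero]
    calc ∫⁻ g, ENNReal.ofReal ((V2 (lin a g) I / V2 (lin a g) I) ^ p) ∂(gam m n)
        ≤ ∫⁻ _, 1 ∂(gam m n) := by
          refine lintegral_mono fun g => ?_
          rw [← ENNReal.ofReal_one]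
          refine ENNReal.ofReal_le_ofReal ?_
          by_cases h : V2 (lin a g) I = 0
          · rw [h, div_zero, Real.zero_rpow hp.ne']
            exact zero_le_one
          · rw [div_self h, Real.one_rpow]
      _ = 1 := by simp
  | insert l K hlK ih =>
    have hlI : l ∉ I := fun h =>
      (Finset.disjoint_left.mp hIK h) (Finset.mem_insert_self l K)
    have hIK' : Disjoint I K := by
      refine Finset.disjoint_left.mpr fun i hi hK => ?_
      exact (Finset.disjoint_left.mp hIK hi) (Finset.mem_insert_of_mem hK)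
    have ih' := ih hIK' (fun i hi => ha i (Finset.mem_insert_of_mem hi))
    have hal : ‖a l‖ ≤ 1 := ha l (Finset.mem_insert_self l K)
    set J : Finset (Fin n) := I ∪ K with hJ
    have hlJ : l ∉ J := by
      rw [hJ, Finset.mem_union]
      exact fun h => h.elim hlI hlK
    have hJI : I ⊆ J := Finset.subset_union_left
    have hun : I ∪ insert l K = insert l J := by
      rw [Finset.union_insert]
    have hcI : I.card ≤ n := by
      simpa using Finset.card_le_univ I
    set C : ENNReal := ENNReal.ofReal ((4 * p / Real.exp 1) ^ p * 2 ^ (((n : ℝ) - I.card) / 2)) with hC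
    rw [Finset.card_insert_of_notMem hlK]
    -- splitting of the ratio
    have hsplit : ∀ g : Fin m → E n,
        ENNReal.ofReal ((V2 (lin a g) (I ∪ insert l K) / V2 (lin a g) I) ^ p) =
          ENNReal.ofReal ((V2 (lin a g) J / V2 (lin a g) I) ^ p) *
            ENNReal.ofReal (d2 (lin a g) J (lin a g l) ^ p) := by
      intro g
      rw [hun, V2_insert _ hlJ, ← ENNReal.ofReal_mul (Real.rpow_nonneg
        (div_nonneg (V2_nonneg _ _) (V2_nonneg _ _)) _),
        ← Real.mul_rpow (div_nonneg (V2_nonneg _ _) (V2_nonneg _ _)) (d2_nonneg _ _ _)]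
      congr 2
      ring
    set S : Submodule ℝ (EuclideanSpace ℝ (Fin m)) := Submodule.span ℝ (a '' (J : Set (Fin n))) with hS
    set w : EuclideanSpace ℝ (Fin m) := Sᗮ.starProjection (a l) with hw
    have hdec : S.starProjection (a l) + w = a l := by
      rw [hw]
      exact Submodule.starProjection_add_starProjection_orthogonal (K := S) (a l)
    by_cases hw0 : w = 0
    · have hmem : a l ∈ S := by
        rw [← hdec, hw0, add_zero]
        exact Submodule.starProjection_apply_mem S (a l)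
      have hz : ∀ g : Fin m → E n,
          ENNReal.ofReal ((V2 (lin a g) (I ∪ insert l K) / V2 (lin a g) I) ^ p) = 0 := by
        intro g
        rw [hsplit]
        have h1 := d2_add (lin a g) J 0 (lin a g l) (by
          rw [rm_lin_eq_Gam]
          exact rmGam_mem_span a g J hmem)
        rw [zero_add, rm_d2_zero_right] at h1
        rw [h1, Real.zero_rpow hp.ne', ENNReal.ofReal_zero, mul_zero]
      rw [lintegral_congr hz]
      simp
    · have hwn : ‖w‖ ≠ 0 := norm_ne_zero_iff.mpr hw0
      set u : EuclideanSpace ℝ (Fin m) := ‖w‖⁻¹ • w with hu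
      have hu1 : ‖u‖ = 1 := by
        rw [hu, norm_smul, norm_inv, norm_norm, inv_mul_cancel₀ hwn]
      have hwu : w = ‖w‖ • u := by
        rw [hu, smul_smul, mul_inv_cancel₀ hwn, one_smul]
      have hwle : ‖w‖ ≤ 1 := by
        refine le_trans ?_ hal
        rw [hw]
        exact Submodule.norm_starProjection_apply_le _ _
      have hwS : w ∈ Sᗮ := by
        rw [hw]
        exact Submodule.starProjection_apply_mem _ _
      have huS : u ∈ Sᗮ := Submodule.smul_mem _ _ hwS
      have hiu : ∀ i ∈ J, ⟪a i, u⟫ = 0 := by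
        intro i hi
        exact (Submodule.mem_orthogonal S u).mp huS (a i)
          (Submodule.subset_span ⟨i, by exact_mod_cast hi, rfl⟩)
      have hlu : ⟪a l, u⟫ = ‖w‖ := by
        rw [← hdec, inner_add_left]
        rw [(Submodule.mem_orthogonal S u).mp huS _ (Submodule.starProjection_apply_mem S (a l)),
          zero_add]
        conv_lhs => rw [hwu]
        rw [real_inner_smul_left, real_inner_self_eq_norm_sq, hu1]
        ring
      -- the resampling map
      set Φ : (Fin m → E n) × E n → (Fin m → E n) :=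
        fun q => fun j => q.1 j + u j • (q.2 - ∑ i, u i • q.1 i) with hΦ
      have hΦm : Measurable Φ := by
        refine Continuous.measurable ?_
        rw [hΦ]
        fun_prop
      have hmap := resample (m := m) (n := n) u hu1
      have hmeas := rm_measurable_ratio (m := m) a I (insert l K) p
      have hmeasJ : Measurable (fun g : Fin m → E n =>
          ENNReal.ofReal ((V2 (lin a g) J / V2 (lin a g) I) ^ p)) := rm_measurable_ratio (m := m) a I K p
      have hpt : ∀ (g : Fin m → E n) (z : E n),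
          ENNReal.ofReal ((V2 (lin a (Φ (g, z))) (I ∪ insert l K) / V2 (lin a (Φ (g, z))) I) ^ p) ≤
          ENNReal.ofReal ((V2 (lin a g) J / V2 (lin a g) I) ^ p) *
            ENNReal.ofReal (d2 (lin a g) J z ^ p) := by
        intro g z
        have hlin : ∀ i ∈ J, lin a (Φ (g, z)) i = lin a g i := by
          intro i hi
          rw [rm_lin_eq_Gam, rm_lin_eq_Gam, hΦ]
          show rmGam (fun j => g j + u j • (z - ∑ i, u i • g i)) (a i) = _
          rw [rmGam_res, hiu i hi, zero_smul, add_zero]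
        have hl' : lin a (Φ (g, z)) l = ‖w‖ • z + rmGam g (S.starProjection (a l)) := by
          rw [rm_lin_eq_Gam, hΦ]
          show rmGam (fun j => g j + u j • (z - ∑ i, u i • g i)) (a l) = _
          rw [rmGam_res, hlu]
          conv_lhs => rw [← hdec, map_add]
          rw [smul_sub, ← map_smul, ← hwu]
          abel
        rw [hsplit, V2_congr hlin, V2_congr (fun i hi => hlin i (hJI hi)), d2_congr hlin, hl',
          d2_add _ _ _ _ (rmGam_mem_span a g J (Submodule.starProjection_apply_mem S (a l))), rm_d2_smul]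
        refine mul_le_mul_right ?_ _
        refine ENNReal.ofReal_le_ofReal (Real.rpow_le_rpow ?_ ?_ hp.le)
        · exact mul_nonneg (sq_nonneg _) (d2_nonneg _ _ _)
        · have h1 : ‖w‖ ^ 2 ≤ 1 := pow_le_one₀ (norm_nonneg _) hwle
          nlinarith [d2_nonneg (lin a g) J z]
      calc ∫⁻ g, ENNReal.ofReal ((V2 (lin a g) (I ∪ insert l K) / V2 (lin a g) I) ^ p) ∂(gam m n)
          = ∫⁻ q, ENNReal.ofReal ((V2 (lin a (Φ q)) (I ∪ insert l K) / V2 (lin a (Φ q)) I) ^ p)
              ∂((gam m n).prod (stdGaussian (E n))) := by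
            conv_lhs => rw [← hmap]
            exact lintegral_map hmeas hΦm
        _ = ∫⁻ g, ∫⁻ z, ENNReal.ofReal
              ((V2 (lin a (Φ (g, z))) (I ∪ insert l K) / V2 (lin a (Φ (g, z))) I) ^ p)
              ∂(stdGaussian (E n)) ∂(gam m n) :=
            lintegral_prod _ (hmeas.comp hΦm).aemeasurable
        _ ≤ ∫⁻ g, ∫⁻ z, ENNReal.ofReal ((V2 (lin a g) J / V2 (lin a g) I) ^ p) *
              ENNReal.ofReal (d2 (lin a g) J z ^ p) ∂(stdGaussian (E n)) ∂(gam m n) :=
            lintegral_mono fun g => lintegral_mono fun z => hpt g z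
        _ ≤ ∫⁻ g, ENNReal.ofReal ((V2 (lin a g) J / V2 (lin a g) I) ^ p) * C ∂(gam m n) := by
            refine lintegral_mono fun g => ?_
            show ∫⁻ z, ENNReal.ofReal ((V2 (lin a g) J / V2 (lin a g) I) ^ p) *
              ENNReal.ofReal (d2 (lin a g) J z ^ p) ∂(stdGaussian (E n)) ≤ _
            rw [lintegral_const_mul' _ _ ENNReal.ofReal_ne_top]
            by_cases hV : V2 (lin a g) I = 0
            · rw [hV, div_zero, Real.zero_rpow hp.ne', ENNReal.ofReal_zero, zero_mul, zero_mul]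
            · exact mul_le_mul_right (rm_d2_moment (lin a g) I J hJI hcI hV hp) _
        _ = (∫⁻ g, ENNReal.ofReal ((V2 (lin a g) J / V2 (lin a g) I) ^ p) ∂(gam m n)) * C :=
            lintegral_mul_const' _ _ ENNReal.ofReal_ne_top
        _ ≤ C ^ K.card * C := mul_le_mul_left ih' _
        _ = C ^ (K.card + 1) := (pow_succ _ _).symm

theorem ratio_tail {m n : ℕ} (a : Fin n → EuclideanSpace ℝ (Fin m)) (I K : Finset (Fin n))
    (hIK : Disjoint I K) (ha : ∀ l ∈ K, ‖a l‖ ≤ 1) (hK : K.Nonempty) {M : ℝ} (hM : 0 < M) :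
    gam m n {g | V2 (lin a g) I * M ^ K.card < V2 (lin a g) (I ∪ K)} ≤
      ENNReal.ofReal (2 ^ (((n : ℝ) - I.card) * K.card / 2) * Real.exp (-(M * K.card / 4))) := by
  set p : ℝ := M / 4 with hpdef
  have hp : 0 < p := by positivity
  set k : ℕ := K.card with hk
  have h1 := ratio_moment a I K hIK ha p hp
  set ε : ENNReal := ENNReal.ofReal (M ^ (p * k)) with hε
  have hMp : 0 < M ^ (p * k) := Real.rpow_pos_of_pos hM _
  have hsub : {g : Fin m → E n | V2 (lin a g) I * M ^ k < V2 (lin a g) (I ∪ K)} ⊆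
      {g | ε ≤ ENNReal.ofReal ((V2 (lin a g) (I ∪ K) / V2 (lin a g) I) ^ p)} := by
    intro g hg
    have hg' : V2 (lin a g) I * M ^ k < V2 (lin a g) (I ∪ K) := hg
    have hI0 : 0 ≤ V2 (lin a g) I := V2_nonneg _ _
    have hIpos : 0 < V2 (lin a g) I := by
      rcases hI0.eq_or_lt with h | h
      · exfalso
        have h2 := V2_union_le (lin a g) hIK
        rw [← h, zero_mul] at h2
        rw [← h, zero_mul] at hg'
        linarith
      · exact h
    show ε ≤ _
    rw [hε]
    refine ENNReal.ofReal_le_ofReal ?_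
    have h3 : M ^ k ≤ V2 (lin a g) (I ∪ K) / V2 (lin a g) I := by
      rw [le_div_iff₀ hIpos]
      linarith
    calc M ^ (p * k) = (M ^ k) ^ p := by
          rw [mul_comm, Real.rpow_mul hM.le, Real.rpow_natCast]
      _ ≤ _ := Real.rpow_le_rpow (by positivity) h3 hp.le
  have hε0 : ε ≠ 0 := by
    rw [hε]
    exact (ENNReal.ofReal_pos.mpr hMp).ne'
  have hεt : ε ≠ ⊤ := ENNReal.ofReal_ne_top
  calc gam m n {g | V2 (lin a g) I * M ^ k < V2 (lin a g) (I ∪ K)}
      ≤ gam m n {g | ε ≤ ENNReal.ofReal ((V2 (lin a g) (I ∪ K) / V2 (lin a g) I) ^ p)} :=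
        measure_mono hsub
    _ ≤ (∫⁻ g, ENNReal.ofReal ((V2 (lin a g) (I ∪ K) / V2 (lin a g) I) ^ p) ∂(gam m n)) / ε :=
        meas_ge_le_lintegral_div (rm_measurable_ratio a I K p).aemeasurable hε0 hεt
    _ ≤ (ENNReal.ofReal ((4 * p / Real.exp 1) ^ p * 2 ^ (((n : ℝ) - I.card) / 2))) ^ k / ε :=
        ENNReal.div_le_div_right h1 _
    _ = _ := by
        rw [hε, ← ENNReal.ofReal_pow (by positivity), ← ENNReal.ofReal_div_of_pos hMp]
        congr 1
        rw [div_eq_iff hMp.ne', mul_pow]
        have e1 : 4 * p = M := by rw [hpdef]; ring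
        rw [e1, Real.div_rpow hM.le (Real.exp_pos 1).le, div_pow]
        have e2 : (M ^ p) ^ k = M ^ (p * k) := by
          rw [Real.rpow_mul hM.le, Real.rpow_natCast]
        have e3 : (Real.exp 1 ^ p) ^ k = Real.exp (M * k / 4) := by
          rw [← Real.exp_mul, ← Real.exp_nat_mul]
          congr 1
          rw [hpdef]; ring
        have e4 : ((2 : ℝ) ^ (((n : ℝ) - I.card) / 2)) ^ k = 2 ^ (((n : ℝ) - I.card) * k / 2) := by
          rw [← Real.rpow_natCast, ← Real.rpow_mul (by norm_num)]
          congr 1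
          ring
        rw [e2, e3, e4, Real.exp_neg]
        field_simp

end Pool.Agent.LB
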